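import Pool.Agent.Helper29.UT.GeoPDefs

set_option autoImplicit false

namespace Pool.Agent.Helper29.UT

open MvPolynomial Pool.Agent.Helper29.QT

variable {R : Type} [CommRing R] {n c : ℕ}

/-- The difference `D_a(T)` of the averages of the Tauberian Tate conjecture up to `T` for the
double cover `V_a : a y ^ 2 = f (x)`, `x` in `W`, and for `W`. -/
noncomputable def dev (P : ∀ p : ℕ, Set (R →+* ZMod p)) (h : Fin c → MvPolynomial (Fin n) R)
    (f : MvPolynomial (Fin n) R) (a : ℤ) (T : ℕ) : ℝ :=
  twistAverageOn P T h f a - averageOn P T h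

/-- The bounds for the traces of Frobenius at the primes of `P` (Deligne): the traces of `V_1` and
of `W` differ by at most `M p`, and the trace of `W` is at most `M₁ p`. -/
def Bounds (P : ∀ p : ℕ, Set (R →+* ZMod p)) (h : Fin c → MvPolynomial (Fin n) R)
    (f : MvPolynomial (Fin n) R) (M M₁ : ℝ) : Prop :=
  ∀ p : ℕ, p.Prime → ∀ φ ∈ P p, |coverPoints φ h f 1 - points φ h| ≤ M * p ∧
    |points φ h - (p : ℝ) ^ 2 - 1| ≤ M₁ * p

/-- The number of the squarefree integers `a` with `|a| ≤ A` and the property `Q`. -/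
noncomputable def number (A : ℕ) (Q : ℤ → Prop) : ℕ :=
  Nat.card {a : ℤ // Squarefree a ∧ |a| ≤ A ∧ Q a}

end Pool.Agent.Helper29.UT
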