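import Pool.Agent.Helper29.QT.Dens

/-!
# Primes in short intervals, an upper bound of Brun-Titchmarsh type
-/

set_option autoImplicit false

namespace Pool.Agent.Helper29.UT

open Finset Pool.Agent.Helper29.QT

lemma Icc_split {β : Type*} [AddCommMonoid β] {x t : ℕ} (hxt : x ≤ t) (P : ℕ → Prop)
    [DecidablePred P] (f : ℕ → β) :
    ∑ n ∈ (Icc 1 t).filter P, f n =
      ∑ n ∈ (Icc 1 x).filter P, f n + ∑ n ∈ (Ioc x t).filter P, f n := by
  rw [← Finset.sum_union]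
  · apply Finset.sum_congr _ fun _ _ => rfl
    ext n
    simp only [Finset.mem_filter, Finset.mem_union, Finset.mem_Icc, Finset.mem_Ioc]
    constructor
    · rintro ⟨⟨h1, h2⟩, h3⟩
      rcases le_or_gt n x with h | h
      · exact Or.inl ⟨⟨h1, h⟩, h3⟩
      · exact Or.inr ⟨⟨h, h2⟩, h3⟩
    · rintro (⟨⟨h1, h2⟩, h3⟩ | ⟨⟨h1, h2⟩, h3⟩)
      · exact ⟨⟨h1, h2.trans hxt⟩, h3⟩
      · exact ⟨⟨by omega, h2⟩, h3⟩
  · rw [Finset.disjoint_left]
    intro n h1 h2
    have h3 := (Finset.mem_Icc.1 (Finset.mem_filter.1 h1).1).2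
    have h4 := (Finset.mem_Ioc.1 (Finset.mem_filter.1 h2).1).1
    omega

lemma card_dvd_Ioc {x t D : ℕ} (hxt : x ≤ t) (hD : 1 ≤ D) :
    |∑ n ∈ (Ioc x t).filter (D ∣ ·), (1 : ℝ) - ((t : ℝ) - x) / D| ≤ 2 := by
  have h1 := Icc_split hxt (D ∣ ·) fun _ => (1 : ℝ)
  have h2 := abs_le.1 (card_dvd t D hD)
  have h3 := abs_le.1 (card_dvd x D hD)
  have h4 : ((t : ℝ) - x) / D = t / D - x / D := by ring
  rw [h4, abs_le]
  constructor <;> linarith [h2.1, h2.2, h3.1, h3.2]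

/-- The sum of the weights over an interval. -/
lemma sum_ww_Ioc {z : ℕ} (hz : 1 ≤ z) {x t : ℕ} (hxt : x ≤ t) :
    ∑ n ∈ Ioc x t, ww z n ≤ ((t : ℝ) - x) / GG z + 2 * (z : ℝ) ^ 4 := by
  have h1 := sum_ww z (Ioc x t) fun _ => (1 : ℝ)
  simp only [mul_one] at h1
  rw [h1]
  have h2 : ∀ d ∈ Icc 1 z, ∀ e ∈ Icc 1 z, lam z d * lam z e *
      ∑ n ∈ (Ioc x t).filter (Nat.lcm d e ∣ ·), (1 : ℝ) ≤
      ((t : ℝ) - x) * (lam z d * lam z e / (Nat.lcm d e : ℝ)) + 2 * |lam z d * lam z e| := by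
    intro d hd e he
    rw [Finset.mem_Icc] at hd he
    have h3 := card_dvd_Ioc hxt (D := Nat.lcm d e) (Nat.lcm_pos (by omega) (by omega))
    have h4 : lam z d * lam z e * ∑ n ∈ (Ioc x t).filter (Nat.lcm d e ∣ ·), (1 : ℝ) =
        ((t : ℝ) - x) * (lam z d * lam z e / (Nat.lcm d e : ℝ)) + lam z d * lam z e *
          (∑ n ∈ (Ioc x t).filter (Nat.lcm d e ∣ ·), (1 : ℝ) -
            ((t : ℝ) - x) / (Nat.lcm d e : ℝ)) := by
      ring
    rw [h4]
    have h5 := le_abs_self (lam z d * lam z e *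
      (∑ n ∈ (Ioc x t).filter (Nat.lcm d e ∣ ·), (1 : ℝ) - ((t : ℝ) - x) / (Nat.lcm d e : ℝ)))
    rw [abs_mul] at h5
    have h6 := mul_le_mul_of_nonneg_left h3 (abs_nonneg (lam z d * lam z e))
    linarith
  refine (Finset.sum_le_sum fun d hd => Finset.sum_le_sum fun e he => h2 d hd e he).trans ?_
  simp_rw [Finset.sum_add_distrib, ← Finset.mul_sum]
  rw [main_term hz]
  have h7 := sum_abs_lam hz
  have h8 : ((t : ℝ) - x) * (1 / GG z) = ((t : ℝ) - x) / GG z := by ring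
  rw [h8]
  linarith

/-- The sum of `log p` over the primes of an interval. -/
lemma sum_log_Ioc {x t : ℕ} (hx2 : 2 ≤ x) (hxt : x ≤ t) :
    ∑ p ∈ (Ioc x t).filter Nat.Prime, Real.log p ≤
      Real.log t * (5 * ((t : ℝ) - x) / Real.log x + 2 * (zz x : ℝ) ^ 4) := by
  have hx : 1 ≤ x := by omega
  have hz := one_le_zz hx
  have hzx : zz x ≤ x := by
    have h1 : ((zz x : ℕ) : ℝ) ≤ x := by
      refine (zz_le x).trans ?_
      have : (1 : ℝ) ≤ x := by exact_mod_cast hx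
      calc (x : ℝ) ^ ((1 : ℝ) / 5) ≤ (x : ℝ) ^ (1 : ℝ) :=
            Real.rpow_le_rpow_of_exponent_le this (by norm_num)
        _ = x := Real.rpow_one _
    exact_mod_cast h1
  have ht0 : 0 ≤ Real.log t := log_nonneg' t
  have h1 : ∑ p ∈ (Ioc x t).filter Nat.Prime, Real.log p ≤
      Real.log t * ∑ n ∈ Ioc x t, ww (zz x) n := by
    calc _ ≤ ∑ p ∈ (Ioc x t).filter Nat.Prime, Real.log t * ww (zz x) p := by
          refine Finset.sum_le_sum fun p hp => ?_
          have hp1 := Finset.mem_filter.1 hp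
          have hp2 := Finset.mem_Ioc.1 hp1.1
          rw [ww_prime hz hp1.2 (lt_of_le_of_lt hzx hp2.1), mul_one]
          exact Real.log_le_log (by exact_mod_cast hp1.2.pos) (by exact_mod_cast hp2.2)
      _ = Real.log t * ∑ p ∈ (Ioc x t).filter Nat.Prime, ww (zz x) p := by rw [Finset.mul_sum]
      _ ≤ _ := by
          apply mul_le_mul_of_nonneg_left _ ht0
          exact Finset.sum_le_sum_of_subset_of_nonneg (Finset.filter_subset _ _)
            fun n _ _ => ww_nonneg _ n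
  refine h1.trans (mul_le_mul_of_nonneg_left ?_ ht0)
  refine (sum_ww_Ioc hz hxt).trans ?_
  have hd : (0 : ℝ) ≤ (t : ℝ) - x := by
    have : (x : ℝ) ≤ t := by exact_mod_cast hxt
    linarith
  have h2 : ((t : ℝ) - x) / GG (zz x) ≤ 5 * ((t : ℝ) - x) / Real.log x := by
    have hlx : 0 < Real.log x := Real.log_pos (by exact_mod_cast hx2)
    rw [div_le_div_iff₀ (GG_pos hz) hlx]
    have h9 : Real.log x ≤ 5 * GG (zz x) := by
      have h9 : Real.log x ≤ Real.log (((zz x : ℝ) + 1) ^ 5) := by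
        apply Real.log_le_log (by exact_mod_cast hx)
        have : ((x : ℕ) : ℝ) ≤ (((zz x + 1) ^ 5 : ℕ) : ℝ) := by
          exact_mod_cast (le_trans (Nat.le_succ x) (lt_zz x))
        push_cast at this
        exact this
      rw [Real.log_pow] at h9
      have h10 := log_le_GG (zz x)
      push_cast at h9
      linarith
    nlinarith
  linarith

/-- Short intervals contain few primes. -/
lemma sum_log_short {δ : ℝ} (hδ : 0 < δ) (hδ1 : δ ≤ 1) : ∃ X₀ : ℕ, 2 ≤ X₀ ∧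
    ∀ x t : ℕ, X₀ ≤ x → x ≤ t → (t : ℝ) ≤ (1 + δ) * x →
      ∑ p ∈ (Ioc x t).filter Nat.Prime, Real.log p ≤ 11 * δ * x := by
  have h1 := (tendsto_small 1).eventually (Metric.ball_mem_nhds (0 : ℝ) (by positivity : 0 < δ / 64))
  obtain ⟨X₁, hX₁⟩ := Filter.eventually_atTop.1 h1
  refine ⟨max X₁ 2, le_max_right _ _, fun x t hx hxt ht => ?_⟩
  have hx2 : 2 ≤ x := (le_max_right _ _).trans hx
  have hxR : (2 : ℝ) ≤ x := by exact_mod_cast hx2
  have h2 := hX₁ x ((le_max_left _ _).trans hx)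
  have h2' := Metric.mem_ball.1 h2
  rw [Real.dist_eq, sub_zero] at h2'
  have h3 := (le_abs_self _).trans h2'.le
  rw [div_le_iff₀ (by linarith), mul_one] at h3
  have hlx : 0 < Real.log x := Real.log_pos (by linarith)
  have hlt : Real.log t ≤ 2 * Real.log x := by
    have h4 : (t : ℝ) ≤ (x : ℝ) ^ 2 := by nlinarith
    have h5 : (0 : ℝ) < t := by
      have : (x : ℝ) ≤ t := by exact_mod_cast hxt
      linarith
    have h6 := Real.log_le_log h5 h4
    rw [Real.log_pow] at h6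
    exact_mod_cast h6
  have hd : (0 : ℝ) ≤ (t : ℝ) - x := by
    have : (x : ℝ) ≤ t := by exact_mod_cast hxt
    linarith
  have hz : (0 : ℝ) ≤ (zz x : ℝ) ^ 4 := by positivity
  calc _ ≤ Real.log t * (5 * ((t : ℝ) - x) / Real.log x + 2 * (zz x : ℝ) ^ 4) :=
        sum_log_Ioc hx2 hxt
    _ ≤ (2 * Real.log x) * (5 * ((t : ℝ) - x) / Real.log x + 2 * (zz x : ℝ) ^ 4) := by
        apply mul_le_mul_of_nonneg_right hlt
        positivity
    _ = 10 * ((t : ℝ) - x) + 4 * (Real.log x * (zz x : ℝ) ^ 4) := by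
        field_simp
        ring
    _ ≤ 10 * (δ * x) + 4 * (δ / 64 * x) := by
        have : (t : ℝ) - x ≤ δ * x := by linarith
        linarith
    _ ≤ _ := by nlinarith

end Pool.Agent.Helper29.UT
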