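import Pool.Agent.Helper29.UT.High
import Pool.Agent.Helper29.UT.BT

/-!
# The number of exceptional twists at one scale
-/

set_option autoImplicit false

namespace Pool.Agent.Helper29.UT

open Finset Filter Topology Pool.Agent.Helper29.QT

open Classical in
/-- The squarefree integers between `-A` and `A`. -/
noncomputable def sqA (A : ℕ) : Finset ℤ := (Icc (-(A : ℤ)) A).filter Squarefree

open Classical in
lemma mem_sqA {A : ℕ} {a : ℤ} : a ∈ sqA A ↔ (-(A : ℤ) ≤ a ∧ a ≤ A) ∧ Squarefree a := by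
  unfold sqA
  rw [Finset.mem_filter, Finset.mem_Icc]

open Classical in
lemma card_sqA {A : ℕ} (hA : 1 ≤ A) : ((sqA A).card : ℝ) ≤ 3 * A := by
  have h1 : (sqA A).card ≤ 2 * A + 1 := by
    unfold sqA
    refine (Finset.card_filter_le _ _).trans ?_
    rw [Int.card_Icc]
    omega
  have h2 : ((sqA A).card : ℝ) ≤ 2 * A + 1 := by exact_mod_cast h1
  have h3 : (1 : ℝ) ≤ A := by exact_mod_cast hA
  linarith

lemma sqA_prod {A : ℕ} : ∀ a ∈ sqA A, ∀ b ∈ sqA A,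
    4 * ((a * b).natAbs : ℝ) ≤ 4 * (A : ℝ) ^ 2 := by
  intro a ha b hb
  have h1 := (mem_sqA.1 ha).1
  have h2 := (mem_sqA.1 hb).1
  have h3 : a.natAbs ≤ A := by omega
  have h4 : b.natAbs ≤ A := by omega
  have h5 : (a * b).natAbs ≤ A * A := by
    rw [Int.natAbs_mul]
    exact Nat.mul_le_mul h3 h4
  have h6 : ((a * b).natAbs : ℝ) ≤ A * A := by exact_mod_cast h5
  nlinarith

lemma nat_log_le {G : ℕ} (hG : 1 ≤ G) : (Nat.log 2 (G ^ 6) : ℝ) ≤ 9 * Real.log G := by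
  have h1 : 2 ^ Nat.log 2 (G ^ 6) ≤ G ^ 6 := Nat.pow_log_le_self 2 (by positivity)
  have h2 : ((2 : ℝ)) ^ Nat.log 2 (G ^ 6) ≤ (G : ℝ) ^ 6 := by exact_mod_cast h1
  have h3 := Real.log_le_log (by positivity) h2
  rw [Real.log_pow, Real.log_pow] at h3
  have h4 := Real.log_two_gt_d9
  have h5 := log_nonneg' G
  have h6 : (0 : ℝ) ≤ (Nat.log 2 (G ^ 6) : ℝ) := Nat.cast_nonneg _
  push_cast at h3
  nlinarith

lemma log_four_lt : Real.log 4 ≤ 1.3863 := by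
  have : (4 : ℝ) = 2 ^ 2 := by norm_num
  rw [this, Real.log_pow]
  have := Real.log_two_lt_d9
  push_cast
  linarith

open Classical in
lemma bad_low {c : ℕ → ℝ} {M : ℝ} (hc : ∀ p : ℕ, p.Prime → |c p| ≤ M) {ε : ℝ} (hε : 0 < ε)
    {A G : ℕ} (hG : 2 ≤ G) (hA1 : 1 ≤ A) (hA : A ≤ 4 * G ^ 2) :
    (((sqA A).filter fun a => ε * G < |SF c G a|).card : ℝ) ≤
      10 ^ 10 * (M / ε) ^ 12 * Real.log G ^ 12 := by
  have hG0 : (0 : ℝ) < G := by exact_mod_cast (by omega : 0 < G)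
  have hM : 0 ≤ M := (abs_nonneg _).trans (hc 2 Nat.prime_two)
  have hlG := log_nonneg' G
  have hl4 : 0 ≤ Real.log 4 := Real.log_nonneg (by norm_num)
  have h1 := high hc 6 (T := G) (sqA A) (fun a ha => (mem_sqA.1 ha).2) sqA_prod
  have h2 : (((sqA A).filter fun a => ε * G < |SF c G a|).card : ℝ) * (ε * G) ^ 12 ≤
      ∑ a ∈ sqA A, (SF c G a ^ 6) ^ 2 := by
    rw [← nsmul_eq_mul, ← Finset.sum_const]
    refine (Finset.sum_le_sum fun a ha => ?_).trans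
      (Finset.sum_le_sum_of_subset_of_nonneg (Finset.filter_subset _ _)
        fun _ _ _ => sq_nonneg _)
    have h3 := (Finset.mem_filter.1 ha).2
    have h4 : (SF c G a ^ 6) ^ 2 = |SF c G a| ^ 12 := by
      rw [← pow_mul, pow_abs, abs_of_nonneg (by positivity : 0 ≤ SF c G a ^ 12)]
    rw [h4]
    exact pow_le_pow_left₀ (by positivity) h3.le 12
  have h3 : (G : ℝ) ^ 6 + 4 * (A : ℝ) ^ 2 * (sqA A).card ≤ 769 * (G : ℝ) ^ 6 := by
    have e1 := card_sqA hA1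
    have e2 : (A : ℝ) ≤ 4 * (G : ℝ) ^ 2 := by exact_mod_cast hA
    have e3 : 4 * (A : ℝ) ^ 2 * (sqA A).card ≤ 4 * (A : ℝ) ^ 2 * (3 * A) :=
      mul_le_mul_of_nonneg_left e1 (by positivity)
    have e4 : (A : ℝ) ^ 3 ≤ (4 * (G : ℝ) ^ 2) ^ 3 := pow_le_pow_left₀ (by positivity) e2 3
    nlinarith
  have h4 : (Nat.log 2 (G ^ 6) : ℝ) ^ 6 ≤ (9 * Real.log G) ^ 6 :=
    pow_le_pow_left₀ (Nat.cast_nonneg _) (nat_log_le (by omega)) 6
  have h5 : (M ^ 2 * (Real.log G * (Real.log 4 * G))) ^ 6 ≤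
      (M ^ 2 * (Real.log G * (1.3863 * G))) ^ 6 := by
    apply pow_le_pow_left₀ (by positivity)
    apply mul_le_mul_of_nonneg_left _ (sq_nonneg M)
    apply mul_le_mul_of_nonneg_left _ hlG
    exact mul_le_mul_of_nonneg_right log_four_lt hG0.le
  have h6 : (((sqA A).filter fun a => ε * G < |SF c G a|).card : ℝ) * (ε * G) ^ 12 ≤
      (M ^ 2 * (Real.log G * (1.3863 * G))) ^ 6 * ((9 * Real.log G) ^ 6 * (769 * (G : ℝ) ^ 6)) := by
    refine h2.trans (h1.trans ?_)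
    apply mul_le_mul h5 _ (by positivity) (by positivity)
    exact mul_le_mul h4 h3 (by positivity) (by positivity)
  have h7 : (M ^ 2 * (Real.log G * (1.3863 * G))) ^ 6 *
      ((9 * Real.log G) ^ 6 * (769 * (G : ℝ) ^ 6)) ≤
      (10 ^ 10 * (M / ε) ^ 12 * Real.log G ^ 12) * (ε * G) ^ 12 := by
    have e1 : (10 ^ 10 * (M / ε) ^ 12 * Real.log G ^ 12) * (ε * G) ^ 12 =
        10 ^ 10 * (M ^ 12 * Real.log G ^ 12 * (G : ℝ) ^ 12) := by
      field_simp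
    have e2 : (M ^ 2 * (Real.log G * (1.3863 * G))) ^ 6 *
        ((9 * Real.log G) ^ 6 * (769 * (G : ℝ) ^ 6)) =
        (1.3863 ^ 6 * 9 ^ 6 * 769) * (M ^ 12 * Real.log G ^ 12 * (G : ℝ) ^ 12) := by ring
    rw [e1, e2]
    apply mul_le_mul_of_nonneg_right _ (by positivity)
    norm_num
  exact le_of_mul_le_mul_right (h6.trans h7) (by positivity)

lemma log_mul_le : ∀ᶠ G : ℕ in atTop,
    Real.log G * (26 * (G : ℝ) ^ ((79 : ℝ) / 80)) ≤ 1 / 1000 * G := by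
  have h1 : Tendsto (fun x : ℝ => Real.log x / x ^ ((1 : ℝ) / 80)) atTop (𝓝 0) :=
    (isLittleO_log_rpow_atTop (by norm_num : (0 : ℝ) < 1 / 80)).tendsto_div_nhds_zero
  have h2 := (h1.comp tendsto_natCast_atTop_atTop).eventually
    (Metric.ball_mem_nhds (0 : ℝ) (by norm_num : (0 : ℝ) < 1 / 26000))
  filter_upwards [h2, eventually_ge_atTop 1] with G hG hG1
  have hG0 : (0 : ℝ) < G := by exact_mod_cast hG1
  have h3 := Metric.mem_ball.1 hG
  rw [Real.dist_eq, sub_zero, Function.comp_apply] at h3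
  have h4 := (le_abs_self _).trans h3.le
  have h5 : 0 < (G : ℝ) ^ ((1 : ℝ) / 80) := Real.rpow_pos_of_pos hG0 _
  rw [div_le_iff₀ h5] at h4
  have h6 : 0 < (G : ℝ) ^ ((79 : ℝ) / 80) := Real.rpow_pos_of_pos hG0 _
  have h7 : (G : ℝ) = (G : ℝ) ^ ((1 : ℝ) / 80) * (G : ℝ) ^ ((79 : ℝ) / 80) := by
    rw [← Real.rpow_add hG0]; norm_num
  calc Real.log G * (26 * (G : ℝ) ^ ((79 : ℝ) / 80)) ≤
      (1 / 26000 * (G : ℝ) ^ ((1 : ℝ) / 80)) * (26 * (G : ℝ) ^ ((79 : ℝ) / 80)) :=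
        mul_le_mul_of_nonneg_right h4 (by positivity)
    _ = 1 / 1000 * ((G : ℝ) ^ ((1 : ℝ) / 80) * (G : ℝ) ^ ((79 : ℝ) / 80)) := by ring
    _ = _ := by rw [← h7]

lemma cube_le {A G : ℕ} (hG : 1 ≤ G) (h : A ^ 16 ≤ 2 * G) :
    (A : ℝ) ^ 3 ≤ 2 * (G : ℝ) ^ ((3 : ℝ) / 16) := by
  have hG0 : (0 : ℝ) < G := by exact_mod_cast hG
  have h1 : (A : ℝ) ^ 16 ≤ 2 * G := by exact_mod_cast h
  have h2 : (A : ℝ) ^ 3 = ((A : ℝ) ^ 16) ^ ((3 : ℝ) / 16) := by
    rw [← Real.rpow_natCast, ← Real.rpow_natCast, ← Real.rpow_mul (Nat.cast_nonneg A)]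
    norm_num
  rw [h2]
  calc ((A : ℝ) ^ 16) ^ ((3 : ℝ) / 16) ≤ (2 * (G : ℝ)) ^ ((3 : ℝ) / 16) :=
        Real.rpow_le_rpow (by positivity) h1 (by norm_num)
    _ = 2 ^ ((3 : ℝ) / 16) * (G : ℝ) ^ ((3 : ℝ) / 16) :=
        Real.mul_rpow (by norm_num) hG0.le
    _ ≤ 2 * (G : ℝ) ^ ((3 : ℝ) / 16) := by
        apply mul_le_mul_of_nonneg_right _ (Real.rpow_nonneg hG0.le _)
        calc (2 : ℝ) ^ ((3 : ℝ) / 16) ≤ 2 ^ (1 : ℝ) :=
              Real.rpow_le_rpow_of_exponent_le (by norm_num) (by norm_num)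
          _ = 2 := Real.rpow_one 2

open Classical in
/-- At a large scale the number of exceptional twists is bounded. -/
lemma bad_high (M : ℝ) {ε : ℝ} (hε : 0 < ε) :
    ∃ G₂ : ℕ, 2 ≤ G₂ ∧ ∀ c : ℕ → ℝ, (∀ p : ℕ, p.Prime → |c p| ≤ M) →
      ∀ G A : ℕ, G₂ ≤ G → A ^ 16 ≤ 2 * G →
      (((sqA A).filter fun a => ε * G < |SF c G a|).card : ℝ) * ε ^ 2 ≤ 7 * M ^ 2 := by
  have e2 : ∀ᶠ T : ℕ in atTop, |(M * Real.log 4) * (zz T : ℝ) / T| < ε / 500 := by
    have h1 := (tendsto_small' (M * Real.log 4)).eventually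
      (Metric.ball_mem_nhds (0 : ℝ) (by positivity : 0 < ε / 500))
    filter_upwards [h1] with T hT
    have hT' := Metric.mem_ball.1 hT
    rw [Real.dist_eq, sub_zero] at hT'
    exact hT'
  obtain ⟨G₂, hG₂⟩ := Filter.eventually_atTop.1 (e2.and log_mul_le)
  refine ⟨max G₂ 2, le_max_right _ _, fun c hc G A hG hA => ?_⟩
  obtain ⟨h2, h3⟩ := hG₂ G ((le_max_left _ _).trans hG)
  have hG2 : 2 ≤ G := (le_max_right _ _).trans hG
  have hG0 : (0 : ℝ) < G := by exact_mod_cast (by omega : 0 < G)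
  have hlG := log_nonneg' G
  rcases Nat.eq_zero_or_pos A with rfl | hA1
  · have : (sqA 0).filter (fun a => ε * G < |SF c G a|) = ∅ := by
      rw [Finset.filter_eq_empty_iff]
      intro a ha
      have h4 := mem_sqA.1 ha
      have h5 : a = 0 := by omega
      exact absurd h5 h4.2.ne_zero
    rw [this, Finset.card_empty, Nat.cast_zero, zero_mul]
    positivity
  have hb := bessel hc (one_le_zz (by omega : 1 ≤ G)) (lt_zz G) (sqA A)
    (fun a ha => (mem_sqA.1 ha).2) sqA_prod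
  have h4 : ∀ a ∈ (sqA A).filter (fun a => ε * G < |SF c G a|),
      (996 / 1000 * ε ^ 2) * (G : ℝ) ^ 2 ≤ SS c (zz G) G a ^ 2 := by
    intro a ha
    obtain ⟨ha1, ha2⟩ := Finset.mem_filter.1 ha
    have h6 := SF_sub hc (zz G) G a
    have h7 : M * (Real.log 4 * (zz G : ℝ)) ≤ ε / 500 * G := by
      have := (le_abs_self _).trans h2.le
      rw [div_le_iff₀ hG0] at this
      linarith
    have h8 : 998 / 1000 * ε * G ≤ |SS c (zz G) G a| := by
      have h9 : |SF c G a| ≤ |SF c G a - SS c (zz G) G a| + |SS c (zz G) G a| := by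
        have := abs_add_le (SF c G a - SS c (zz G) G a) (SS c (zz G) G a)
        rw [sub_add_cancel] at this
        exact this
      linarith
    rw [← sq_abs (SS c (zz G) G a)]
    refine le_trans ?_ (pow_le_pow_left₀ (by positivity) h8 2)
    have : 0 ≤ ε ^ 2 * (G : ℝ) ^ 2 := by positivity
    nlinarith
  have h5 : (((sqA A).filter fun a => ε * G < |SF c G a|).card : ℝ) *
      ((996 / 1000 * ε ^ 2) * (G : ℝ) ^ 2) ≤ ∑ a ∈ sqA A, SS c (zz G) G a ^ 2 := by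
    rw [← nsmul_eq_mul, ← Finset.sum_const]
    exact (Finset.sum_le_sum h4).trans
      (Finset.sum_le_sum_of_subset_of_nonneg (Finset.filter_subset _ _) fun _ _ _ => sq_nonneg _)
  have h6 : M ^ 2 * (Real.log 4 * G) * (5 * G + Real.log G * ((zz G : ℝ) ^ 4 *
      (1 + (sqA A).card * (4 * (A : ℝ) ^ 2)))) ≤ 6.94 * M ^ 2 * (G : ℝ) ^ 2 := by
    have h7 : Real.log G * ((zz G : ℝ) ^ 4 * (1 + (sqA A).card * (4 * (A : ℝ) ^ 2))) ≤
        1 / 1000 * G := by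
      refine le_trans ?_ h3
      apply mul_le_mul_of_nonneg_left _ hlG
      have e1 := card_sqA hA1
      have e2 : (1 : ℝ) ≤ A := by exact_mod_cast hA1
      have e3 : 1 + ((sqA A).card : ℝ) * (4 * (A : ℝ) ^ 2) ≤ 13 * (A : ℝ) ^ 3 := by
        have e4 : ((sqA A).card : ℝ) * (4 * (A : ℝ) ^ 2) ≤ 3 * A * (4 * (A : ℝ) ^ 2) :=
          mul_le_mul_of_nonneg_right e1 (by positivity)
        have e5 : (1 : ℝ) ≤ (A : ℝ) ^ 3 := one_le_pow₀ e2
        nlinarith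
      have e4 : 1 + ((sqA A).card : ℝ) * (4 * (A : ℝ) ^ 2) ≤
          26 * (G : ℝ) ^ ((3 : ℝ) / 16) := by
        have := cube_le (by omega : 1 ≤ G) hA
        linarith
      calc (zz G : ℝ) ^ 4 * (1 + ((sqA A).card : ℝ) * (4 * (A : ℝ) ^ 2)) ≤
          (G : ℝ) ^ ((4 : ℝ) / 5) * (26 * (G : ℝ) ^ ((3 : ℝ) / 16)) :=
            mul_le_mul (zz_pow_le G) e4 (by positivity) (Real.rpow_nonneg hG0.le _)
        _ = 26 * (G : ℝ) ^ ((79 : ℝ) / 80) := by
            have : (G : ℝ) ^ ((79 : ℝ) / 80) = (G : ℝ) ^ ((4 : ℝ) / 5) * (G : ℝ) ^ ((3 : ℝ) / 16) := by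
              rw [← Real.rpow_add hG0]; norm_num
            rw [this]; ring
    calc _ ≤ M ^ 2 * (Real.log 4 * G) * (5 * G + 1 / 1000 * G) := by
          apply mul_le_mul_of_nonneg_left _ (by positivity)
          linarith
      _ = (Real.log 4 * 5.001) * (M ^ 2 * (G : ℝ) ^ 2) := by ring
      _ ≤ 6.94 * (M ^ 2 * (G : ℝ) ^ 2) := by
          apply mul_le_mul_of_nonneg_right _ (by positivity)
          linarith [log_four_lt]
      _ = _ := by ring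
  have h7 := (h5.trans hb).trans h6
  have h8 : (((sqA A).filter fun a => ε * G < |SF c G a|).card : ℝ) * (996 / 1000 * ε ^ 2) ≤
      6.94 * M ^ 2 := by
    have h9 : (0 : ℝ) < (G : ℝ) ^ 2 := by positivity
    apply le_of_mul_le_mul_right _ h9
    linarith
  nlinarith [sq_nonneg M]

end Pool.Agent.Helper29.UT
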