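import Pool.Agent.Helper29.UT.Grid

/-!
# The number of exceptional twists in a range of scales above the square root of the height
-/

set_option autoImplicit false

namespace Pool.Agent.Helper29.UT

open Finset Filter Topology Pool.Agent.Helper29.QT

open Classical in
/-- The number of exceptional twists in a range of scales. -/
theorem count2 {M : ℝ} (hM : 0 ≤ M) {ε : ℝ} (hε : 0 < ε) :
    ∃ (C : ℝ) (S : ℕ), 0 < C ∧ 2 ≤ S ∧ ∀ c : ℕ → ℝ, (∀ p : ℕ, p.Prime → |c p| ≤ M) →
      ∀ A T₀ T₁ : ℕ, 1 ≤ A → S ≤ T₀ → T₀ ≤ T₁ →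
      (((sqA A).filter fun a => ∃ T : ℕ, T₀ ≤ T ∧ T ≤ T₁ ∧ A < T ^ 2 ∧
        ε * T < |SF c T a|).card : ℝ) ≤ C * (Real.log A ^ 13 + Real.log T₁) := by
  obtain ⟨δ, hδ, hδ1, hMδ⟩ := exists_delta hε hM
  obtain ⟨X₀, hX2, hX⟩ := sum_log_short hδ hδ1
  obtain ⟨G₂, hG2, hbad⟩ := bad_high M (half_pos hε)
  obtain ⟨l, hlD⟩ : ∃ l, l = Real.log (1 + δ) := ⟨_, rfl⟩
  have hl : 0 < l := by rw [hlD]; exact Real.log_pos (by linarith)
  obtain ⟨K, hK⟩ : ∃ K : ℝ, K = 28 * M ^ 2 / ε ^ 2 := ⟨_, rfl⟩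
  have hK0 : 0 ≤ K := by rw [hK]; positivity
  obtain ⟨D, hD⟩ : ∃ D : ℝ, D = 10 ^ 10 * (M / (ε / 2)) ^ 12 * 16 ^ 12 := ⟨_, rfl⟩
  have hD0 : 0 ≤ D := by rw [hD]; positivity
  refine ⟨K * (1 / l + 2) + D * (16 / l + 3) + 1, 2 * max X₀ G₂,
    by positivity, ?_, ?_⟩
  · have := le_max_left X₀ G₂
    omega
  intro c hc A T₀ T₁ hA1 hS hT
  have hT₀ : 1 ≤ T₀ := by
    have := le_max_left X₀ G₂
    omega
  have hlA := log_nonneg' A
  obtain ⟨J, hJ⟩ : ∃ J, J = (Icc 0 (ix δ T₁)).filter fun j =>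
    max X₀ G₂ ≤ gr δ j ∧ A ≤ 4 * gr δ j ^ 2 := ⟨_, rfl⟩
  have hsub : ((sqA A).filter fun a => ∃ T : ℕ, T₀ ≤ T ∧ T ≤ T₁ ∧ A < T ^ 2 ∧
      ε * T < |SF c T a|) ⊆
      J.biUnion fun j => (sqA A).filter fun a => ε / 2 * gr δ j < |SF c (gr δ j) a| := by
    intro a ha
    obtain ⟨ha1, T, h1, h2, h2', h3⟩ := Finset.mem_filter.1 ha
    rw [Finset.mem_biUnion]
    have hT1 : 1 ≤ T := hT₀.trans h1
    have h4 := le_gr_ix hδ hT1
    have h5 : (T : ℝ) ≤ 2 * gr δ (ix δ T) := by
      refine h4.trans (mul_le_mul_of_nonneg_right (by linarith) (Nat.cast_nonneg _))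
    have h6 : T ≤ 2 * gr δ (ix δ T) := by exact_mod_cast h5
    refine ⟨ix δ T, ?_, ?_⟩
    · rw [hJ, Finset.mem_filter, Finset.mem_Icc]
      refine ⟨⟨Nat.zero_le _, ix_mono hδ hT1 h2⟩, by omega, ?_⟩
      have h7 : T ^ 2 ≤ (2 * gr δ (ix δ T)) ^ 2 := Nat.pow_le_pow_left h6 2
      have h8 : (2 * gr δ (ix δ T)) ^ 2 = 4 * gr δ (ix δ T) ^ 2 := by ring
      omega
    · rw [Finset.mem_filter]
      refine ⟨ha1, to_grid hc hδ hMδ hX hT1 ?_ hε h3⟩
      have h7 := le_max_left X₀ G₂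
      omega
  have hj : ∀ j ∈ J,
      (((sqA A).filter fun a => ε / 2 * gr δ j < |SF c (gr δ j) a|).card : ℝ) ≤
        K + if gr δ j ≤ A ^ 16 then D * Real.log A ^ 12 else 0 := by
    intro j hj
    rw [hJ, Finset.mem_filter] at hj
    obtain ⟨_, hj1, hj2⟩ := hj
    have h8 := le_max_right X₀ G₂
    by_cases h : A ^ 16 ≤ 2 * gr δ j
    · have h9 := hbad c hc (gr δ j) A (by omega) h
      have h10 : (((sqA A).filter fun a => ε / 2 * gr δ j < |SF c (gr δ j) a|).card : ℝ) ≤ K := by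
        rw [hK, le_div_iff₀ (by positivity)]
        nlinarith
      have h11 : (0 : ℝ) ≤ if gr δ j ≤ A ^ 16 then D * Real.log A ^ 12 else 0 := by
        split_ifs
        · positivity
        · exact le_rfl
      linarith
    · rw [if_pos (by omega)]
      have h9 := bad_low hc (half_pos hε) (A := A) (G := gr δ j) (by omega) hA1 hj2
      have h10 : Real.log (gr δ j) ≤ 16 * Real.log A := by
        have e1 : ((gr δ j : ℕ) : ℝ) ≤ (A : ℝ) ^ 16 := by
          have : gr δ j ≤ A ^ 16 := by omega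
          exact_mod_cast this
        have e2 := Real.log_le_log (by exact_mod_cast (by omega : 0 < gr δ j)) e1
        rw [Real.log_pow] at e2
        exact_mod_cast e2
      have h11 : Real.log (gr δ j) ^ 12 ≤ (16 * Real.log A) ^ 12 :=
        pow_le_pow_left₀ (log_nonneg' _) h10 12
      have h12 : 10 ^ 10 * (M / (ε / 2)) ^ 12 * Real.log (gr δ j) ^ 12 ≤
          D * Real.log A ^ 12 := by
        rw [hD]
        calc _ ≤ 10 ^ 10 * (M / (ε / 2)) ^ 12 * (16 * Real.log A) ^ 12 :=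
              mul_le_mul_of_nonneg_left h11 (by positivity)
          _ = _ := by ring
      linarith
  have h1 : (((sqA A).filter fun a => ∃ T : ℕ, T₀ ≤ T ∧ T ≤ T₁ ∧ A < T ^ 2 ∧
      ε * T < |SF c T a|).card : ℝ) ≤
      ∑ j ∈ J, (K + if gr δ j ≤ A ^ 16 then D * Real.log A ^ 12 else 0) := by
    refine le_trans ?_ (Finset.sum_le_sum hj)
    exact_mod_cast (Finset.card_le_card hsub).trans Finset.card_biUnion_le
  have hcard : (J.card : ℝ) ≤ Real.log T₁ / l + 1 := by
    have e1 : J.card ≤ ix δ T₁ + 1 := by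
      rw [hJ]
      refine (Finset.card_filter_le _ _).trans ?_
      rw [Nat.card_Icc, Nat.sub_zero]
    have e2 : (ix δ T₁ : ℝ) ≤ Real.log T₁ / l := by
      rw [hlD]
      exact Nat.floor_le (div_nonneg (log_nonneg' _) (hlD ▸ hl).le)
    have e3 : (J.card : ℝ) ≤ (ix δ T₁ : ℝ) + 1 := by exact_mod_cast e1
    linarith
  have hcard2 : ((J.filter fun j => gr δ j ≤ A ^ 16).card : ℝ) ≤ 16 * Real.log A / l + 1 := by
    have e1 : J.filter (fun j => gr δ j ≤ A ^ 16) ⊆ range (⌊16 * Real.log A / l⌋₊ + 1) := by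
      intro j hj
      have h2 := (Finset.mem_filter.1 hj).2
      rw [Finset.mem_range, Nat.lt_succ_iff]
      apply Nat.le_floor
      rw [le_div_iff₀ hl]
      have h3 : (1 + δ) ^ j ≤ (A : ℝ) ^ 16 := by
        refine (le_gr δ j).trans ?_
        exact_mod_cast h2
      have h4 := Real.log_le_log (by positivity) h3
      rw [Real.log_pow, Real.log_pow, ← hlD] at h4
      exact_mod_cast h4
    have e2 := Finset.card_le_card e1
    rw [Finset.card_range] at e2
    have e3 : ((J.filter fun j => gr δ j ≤ A ^ 16).card : ℝ) ≤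
        (⌊16 * Real.log A / l⌋₊ : ℝ) + 1 := by exact_mod_cast e2
    have e4 : (⌊16 * Real.log A / l⌋₊ : ℝ) ≤ 16 * Real.log A / l :=
      Nat.floor_le (by positivity)
    linarith
  have h2 : ∑ j ∈ J, (K + if gr δ j ≤ A ^ 16 then D * Real.log A ^ 12 else 0) ≤
      (Real.log T₁ / l + 1) * K + (16 * Real.log A / l + 1) * (D * Real.log A ^ 12) := by
    rw [Finset.sum_add_distrib, Finset.sum_const, nsmul_eq_mul, ← Finset.sum_filter,
      Finset.sum_const, nsmul_eq_mul]
    exact add_le_add (mul_le_mul_of_nonneg_right hcard hK0)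
      (mul_le_mul_of_nonneg_right hcard2 (by positivity))
  refine h1.trans (h2.trans ?_)
  have hT1R : Real.log 2 ≤ Real.log T₁ := by
    apply Real.log_le_log (by norm_num)
    have : 2 ≤ T₁ := by
      have := le_max_left X₀ G₂
      omega
    exact_mod_cast this
  have hlog2 := Real.log_two_gt_d9
  have hlT : 0 ≤ Real.log T₁ := log_nonneg' T₁
  have h3 : (Real.log T₁ / l + 1) * K ≤ K * (1 / l + 2) * Real.log T₁ := by
    have : Real.log T₁ / l + 1 ≤ (1 / l + 2) * Real.log T₁ := by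
      have : Real.log T₁ / l = 1 / l * Real.log T₁ := by ring
      rw [this]
      linarith
    calc (Real.log T₁ / l + 1) * K ≤ ((1 / l + 2) * Real.log T₁) * K :=
          mul_le_mul_of_nonneg_right this hK0
      _ = _ := by ring
  have h4 : (16 * Real.log A / l + 1) * (D * Real.log A ^ 12) ≤
      D * (16 / l + 1) * Real.log A ^ 13 + D * 2 * Real.log T₁ := by
    have e0 : Real.log A ^ 12 ≤ Real.log A ^ 13 + 1 := by
      rcases le_total (Real.log A) 1 with h | h
      · have e1 : Real.log A ^ 12 ≤ 1 := pow_le_one₀ hlA h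
        have e2 : 0 ≤ Real.log A ^ 13 := by positivity
        linarith
      · have e1 : Real.log A ^ 12 ≤ Real.log A ^ 13 := pow_le_pow_right₀ h (by norm_num)
        linarith
    have e3 : (16 * Real.log A / l + 1) * (D * Real.log A ^ 12) =
        D * (16 / l) * Real.log A ^ 13 + D * Real.log A ^ 12 := by ring
    rw [e3]
    have e4 := mul_le_mul_of_nonneg_left e0 hD0
    have e5 : D * 1 ≤ D * (2 * Real.log T₁) := mul_le_mul_of_nonneg_left (by linarith) hD0
    have e6 : D * (16 / l + 1) * Real.log A ^ 13 =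
        D * (16 / l) * Real.log A ^ 13 + D * Real.log A ^ 13 := by ring
    rw [e6]
    linarith
  have hL : 0 ≤ Real.log A ^ 13 := by positivity
  have e5 : 0 ≤ K * (1 / l + 2) := by positivity
  have e6 : 0 ≤ D * (16 / l + 3) := by positivity
  have e7 : 0 ≤ K * (1 / l + 2) * Real.log A ^ 13 := mul_nonneg e5 hL
  have e8 : D * (16 / l + 1) * Real.log A ^ 13 + D * 2 * Real.log T₁ ≤
      D * (16 / l + 3) * (Real.log A ^ 13 + Real.log T₁) := by
    have f1 : D * (16 / l + 3) * (Real.log A ^ 13 + Real.log T₁) =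
        D * (16 / l + 1) * Real.log A ^ 13 + D * 2 * Real.log T₁ +
        (D * 2 * Real.log A ^ 13 + D * (16 / l + 1) * Real.log T₁) := by ring
    rw [f1]
    have f2 : 0 ≤ D * 2 * Real.log A ^ 13 := by positivity
    have f3 : 0 ≤ D * (16 / l + 1) * Real.log T₁ := mul_nonneg (by positivity) hlT
    linarith
  calc _ ≤ K * (1 / l + 2) * Real.log T₁ + (D * (16 / l + 1) * Real.log A ^ 13 +
        D * 2 * Real.log T₁) := add_le_add h3 h4
    _ ≤ _ := by
        have : (K * (1 / l + 2) + D * (16 / l + 3) + 1) *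
            (Real.log A ^ 13 + Real.log T₁) =
            K * (1 / l + 2) * Real.log A ^ 13 + K * (1 / l + 2) * Real.log T₁ +
            D * (16 / l + 3) * (Real.log A ^ 13 + Real.log T₁) +
            (Real.log A ^ 13 + Real.log T₁) := by ring
        rw [this]
        linarith

end Pool.Agent.Helper29.UT
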