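import Pool.Agent.Helper29.UT.Core

/-!
# The range of small scales
-/

set_option autoImplicit false

namespace Pool.Agent.Helper29.UT

open Finset Filter Topology Pool.Agent.Helper29.QT Pool.Agent.Helper29.TT

variable {t : ℕ → ℤ → ℝ} {c : ℕ → ℝ} {M W : ℝ}

/-- The constant. -/
noncomputable def KS : ℝ := ∑' i : ℕ, ((i : ℝ) + 1) ^ 4 * (1 / 2) ^ i

lemma summable_KS : Summable fun i : ℕ => ((i : ℝ) + 1) ^ 4 * (1 / 2 : ℝ) ^ i := by
  have h1 : Summable fun i : ℕ => ((i : ℝ)) ^ 4 * (1 / 2 : ℝ) ^ i :=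
    summable_pow_mul_geometric_of_norm_lt_one 4 (by norm_num)
  have h2 := (summable_nat_add_iff 1).2 h1
  have h3 := h2.mul_left 2
  refine h3.congr fun i => ?_
  push_cast
  rw [pow_succ]
  ring

lemma KS_nonneg : 0 ≤ KS := tsum_nonneg fun i => by positivity

lemma sum_levels (j₀ J : ℕ) :
    ∑ j ∈ Icc j₀ J, ((j : ℝ) + 2) ^ 4 * (1 / 2) ^ j ≤ KS * (((j₀ : ℝ) + 2) ^ 4 * (1 / 2) ^ j₀) := by
  have h1 : ∑ j ∈ Icc j₀ J, ((j : ℝ) + 2) ^ 4 * (1 / 2 : ℝ) ^ j ≤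
      ∑ i ∈ range (J + 1), (((j₀ : ℝ) + 2) ^ 4 * (1 / 2) ^ j₀) *
        (((i : ℝ) + 1) ^ 4 * (1 / 2) ^ i) := by
    have h2 : ∀ j ∈ Icc j₀ J, ((j : ℝ) + 2) ^ 4 * (1 / 2 : ℝ) ^ j ≤
        (((j₀ : ℝ) + 2) ^ 4 * (1 / 2) ^ j₀) *
        ((((j - j₀ : ℕ) : ℝ) + 1) ^ 4 * (1 / 2) ^ (j - j₀)) := by
      intro j hj
      obtain ⟨i, hi⟩ : ∃ i, j = j₀ + i := ⟨j - j₀, by
        have := (Finset.mem_Icc.1 hj).1; omega⟩
      subst hi
      rw [Nat.add_sub_cancel_left, pow_add]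
      have h3 : ((j₀ + i : ℕ) : ℝ) + 2 ≤ ((j₀ : ℝ) + 2) * ((i : ℝ) + 1) := by
        push_cast
        have h4 : (0 : ℝ) ≤ j₀ := Nat.cast_nonneg _
        have h5 : (0 : ℝ) ≤ i := Nat.cast_nonneg _
        nlinarith
      have h4 : (((j₀ + i : ℕ) : ℝ) + 2) ^ 4 ≤ (((j₀ : ℝ) + 2) * ((i : ℝ) + 1)) ^ 4 :=
        pow_le_pow_left₀ (by positivity) h3 4
      calc (((j₀ + i : ℕ) : ℝ) + 2) ^ 4 * ((1 / 2 : ℝ) ^ j₀ * (1 / 2) ^ i) ≤
          (((j₀ : ℝ) + 2) * ((i : ℝ) + 1)) ^ 4 * ((1 / 2 : ℝ) ^ j₀ * (1 / 2) ^ i) :=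
            mul_le_mul_of_nonneg_right h4 (by positivity)
        _ = _ := by ring
    refine (Finset.sum_le_sum h2).trans ?_
    have h5 : ∑ j ∈ Icc j₀ J, (((j₀ : ℝ) + 2) ^ 4 * (1 / 2) ^ j₀) *
        ((((j - j₀ : ℕ) : ℝ) + 1) ^ 4 * (1 / 2) ^ (j - j₀)) =
        ∑ i ∈ (Icc j₀ J).image (fun j => j - j₀), (((j₀ : ℝ) + 2) ^ 4 * (1 / 2) ^ j₀) *
        (((i : ℝ) + 1) ^ 4 * (1 / 2) ^ i) := by
      rw [Finset.sum_image]
      intro x hx y hy hxy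
      have h6 := (Finset.mem_Icc.1 (Finset.mem_coe.1 hx)).1
      have h7 := (Finset.mem_Icc.1 (Finset.mem_coe.1 hy)).1
      dsimp only at hxy
      omega
    rw [h5]
    apply Finset.sum_le_sum_of_subset_of_nonneg
    · intro i hi
      obtain ⟨j, hj, rfl⟩ := Finset.mem_image.1 hi
      have := (Finset.mem_Icc.1 hj).2
      rw [Finset.mem_range]
      omega
    · intro i _ _
      positivity
  refine h1.trans ?_
  rw [← Finset.mul_sum, mul_comm]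
  apply mul_le_mul_of_nonneg_right _ (by positivity)
  exact summable_KS.sum_le_tsum _ fun i _ => by positivity

open Classical in
/-- The range of small scales. -/
lemma Tw.small (hM : 0 ≤ M) (hW : 0 ≤ W) {ε : ℝ} (hε : 0 < ε) : ∃ C : ℝ, 0 < C ∧
    ∀ (t : ℕ → ℤ → ℝ) (c : ℕ → ℝ), Tw t c M W → ∀ A T₀ : ℕ, 1 ≤ A → 2 ≤ T₀ →
      (((sqA A).filter fun a => ∃ T : ℕ, T₀ ≤ T ∧ T ^ 2 ≤ A ∧ ε < |DD t a T|).card : ℝ) ≤
        C * (A * Real.log T₀ ^ 4 / T₀) := by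
  obtain ⟨Q, hQ⟩ : ∃ Q : ℝ, Q = (M + W) ^ 2 + 4 * (2 * W) ^ 2 := ⟨_, rfl⟩
  have hQ0 : 0 ≤ Q := by rw [hQ]; positivity
  have hKS := KS_nonneg
  have hl2 : 0 < Real.log 2 := Real.log_pos (by norm_num)
  refine ⟨48 * Q / ε ^ 2 * KS * (2 * (4 / Real.log 2) ^ 4) + 1, by positivity, ?_⟩
  intro t c h A T₀ hA hT₀
  obtain ⟨t', ht'⟩ : ∃ t' : ℕ → (Unit → ℤ) → ℝ, t' = fun p x => t p (x ()) := ⟨_, rfl⟩
  have hfam : Fam t' ((M + W) ^ 2) (2 * W) := by rw [ht']; exact h.fam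
  have hA0 : (1 : ℝ) ≤ A := by exact_mod_cast hA
  have hT0 : (0 : ℝ) < T₀ := by exact_mod_cast (by omega : 0 < T₀)
  have hlT : 0 < Real.log T₀ := Real.log_pos (by exact_mod_cast (by omega : 1 < T₀))
  obtain ⟨K, hK⟩ : ∃ K, K = Nat.sqrt A := ⟨_, rfl⟩
  have hK1 : 1 ≤ K := by rw [hK, Nat.le_sqrt']; omega
  have hKB : K ^ 2 ≤ A := by rw [hK]; exact Nat.sqrt_le' A
  -- one level
  have hlev : ∀ j : ℕ, (((boxJ Unit A).filter fun x =>
      ε ^ 2 * 4 ^ j < RM (xJ t' K x) (j + 1) 0).card : ℝ) ≤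
      48 * Q / ε ^ 2 * A * (((j : ℝ) + 2) ^ 4 * (1 / 2) ^ j) := by
    intro j
    have h1 := momentRM hfam K A hK1 hKB (j + 1)
    have h2 : (((boxJ Unit A).filter fun x =>
        ε ^ 2 * 4 ^ j < RM (xJ t' K x) (j + 1) 0).card : ℝ) * (ε ^ 2 * 4 ^ j) ≤
        ∑ x ∈ boxJ Unit A, RM (xJ t' K x) (j + 1) 0 := by
      rw [← nsmul_eq_mul, ← Finset.sum_const]
      refine (Finset.sum_le_sum fun a ha => (Finset.mem_filter.1 ha).2.le).trans ?_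
      exact Finset.sum_le_sum_of_subset_of_nonneg (Finset.filter_subset _ _)
        fun a _ _ => RM_nonneg _ _ _
    have h3 : SC Unit A ≤ 24 * A := by
      unfold SC
      rw [card_boxJ, Fintype.card_unit, pow_one, pow_one]
      linarith
    have h4 : (((j + 1 : ℕ) : ℝ) + 1) ^ 2 * (SC Unit A * (((M + W) ^ 2 + 4 * (2 * W) ^ 2) *
        (((j + 1 : ℕ) : ℝ) ^ 2 * 2 ^ (j + 1)))) ≤
        (48 * Q / ε ^ 2 * A * (((j : ℝ) + 2) ^ 4 * (1 / 2) ^ j)) * (ε ^ 2 * 4 ^ j) := by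
      rw [← hQ]
      push_cast
      have h5 : ((j : ℝ) + 1) ^ 2 ≤ ((j : ℝ) + 2) ^ 2 :=
        pow_le_pow_left₀ (by positivity) (by linarith) 2
      have h6 : (1 / 2 : ℝ) ^ j * 4 ^ j = 2 ^ j := by
        rw [← mul_pow]; norm_num
      calc ((j : ℝ) + 1 + 1) ^ 2 * (SC Unit A * (Q * (((j : ℝ) + 1) ^ 2 * 2 ^ (j + 1)))) ≤
          ((j : ℝ) + 1 + 1) ^ 2 * ((24 * A) * (Q * (((j : ℝ) + 2) ^ 2 * 2 ^ (j + 1)))) := by
            apply mul_le_mul_of_nonneg_left _ (by positivity)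
            apply mul_le_mul h3 _ (by positivity) (by positivity)
            apply mul_le_mul_of_nonneg_left _ hQ0
            exact mul_le_mul_of_nonneg_right h5 (by positivity)
        _ = 48 * Q * A * (((j : ℝ) + 2) ^ 4 * 2 ^ j) := by ring
        _ = 48 * Q * A * (((j : ℝ) + 2) ^ 4 * ((1 / 2 : ℝ) ^ j * 4 ^ j)) := by rw [h6]
        _ = _ := by field_simp
    exact le_of_mul_le_mul_right ((h2.trans h1).trans h4) (by positivity)
  -- the inclusion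
  have hsub : ((boxJ Unit A).filter fun x => ∃ T : ℕ, T₀ ≤ T ∧ T ^ 2 ≤ A ∧
      ε < |DD t (x ()) T|) ⊆ (Icc (Nat.log 2 T₀) (Nat.log 2 K)).biUnion fun j =>
        (boxJ Unit A).filter fun x => ε ^ 2 * 4 ^ j < RM (xJ t' K x) (j + 1) 0 := by
    intro x hx
    obtain ⟨hx1, T, h1, h2, h3⟩ := Finset.mem_filter.1 hx
    have hTK : T ≤ K := by rw [hK, Nat.le_sqrt']; exact h2
    rw [Finset.mem_biUnion]
    refine ⟨Nat.log 2 T, ?_, ?_⟩
    · rw [Finset.mem_Icc]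
      exact ⟨Nat.log_mono_right h1, Nat.log_mono_right hTK⟩
    · rw [Finset.mem_filter]
      refine ⟨hx1, ?_⟩
      have hT2 : 2 ≤ T := hT₀.trans h1
      have hT0' : (0 : ℝ) < T := by exact_mod_cast (by omega : 0 < T)
      have h4 : T + 1 ≤ 2 ^ (Nat.log 2 T + 1) := Nat.lt_pow_succ_log_self (by norm_num) T
      have h5 : 2 ^ Nat.log 2 T ≤ T := Nat.pow_log_le_self 2 (by omega)
      have h6 := IS_le_RM (xJ t' K x) (Nat.log 2 T + 1) 0 (T + 1) h4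
      rw [IS_xJ, PIK_eq hTK] at h6
      refine lt_of_lt_of_le ?_ h6
      unfold DD at h3
      rw [abs_div, abs_of_pos hT0', lt_div_iff₀ hT0'] at h3
      have h7 : ∑ p ∈ PRI T, Real.log p * t' p x = ∑ p ∈ PR T, Real.log p * t p (x ()) := by
        rw [ht']
        rfl
      rw [h7, ← sq_abs (∑ p ∈ PR T, Real.log p * t p (x ()))]
      have h8 : (ε * T) ^ 2 < |∑ p ∈ PR T, Real.log p * t p (x ())| ^ 2 :=
        pow_lt_pow_left₀ h3 (by positivity) (by norm_num)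
      refine lt_of_le_of_lt ?_ h8
      rw [mul_pow]
      apply mul_le_mul_of_nonneg_left _ (sq_nonneg ε)
      have h9 : ((2 : ℝ) ^ Nat.log 2 T) ≤ T := by exact_mod_cast h5
      calc (4 : ℝ) ^ Nat.log 2 T = ((2 : ℝ) ^ Nat.log 2 T) ^ 2 := by
            rw [← pow_mul, mul_comm, pow_mul]; norm_num
        _ ≤ (T : ℝ) ^ 2 := pow_le_pow_left₀ (by positivity) h9 2
  have hle : (((sqA A).filter fun a => ∃ T : ℕ, T₀ ≤ T ∧ T ^ 2 ≤ A ∧ ε < |DD t a T|).card : ℝ) ≤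
      (((boxJ Unit A).filter fun x => ∃ T : ℕ, T₀ ≤ T ∧ T ^ 2 ≤ A ∧
        ε < |DD t (x ()) T|).card : ℝ) := by
    have : ((sqA A).filter fun a => ∃ T : ℕ, T₀ ≤ T ∧ T ^ 2 ≤ A ∧ ε < |DD t a T|).card ≤
        ((boxJ Unit A).filter fun x => ∃ T : ℕ, T₀ ≤ T ∧ T ^ 2 ≤ A ∧
        ε < |DD t (x ()) T|).card := by
      apply Finset.card_le_card_of_injOn (fun a => fun _ => a)
      · intro a ha
        obtain ⟨ha1, h2⟩ := Finset.mem_filter.1 (Finset.mem_coe.1 ha)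
        rw [Finset.mem_coe, Finset.mem_filter]
        refine ⟨?_, h2⟩
        unfold boxJ
        rw [Fintype.mem_piFinset]
        intro _
        rw [Finset.mem_Icc]
        exact (mem_sqA.1 ha1).1
      · intro a _ b _ hab
        exact congrFun hab ()
    exact_mod_cast this
  have h1 : (((boxJ Unit A).filter fun x => ∃ T : ℕ, T₀ ≤ T ∧ T ^ 2 ≤ A ∧
      ε < |DD t (x ()) T|).card : ℝ) ≤
      ∑ j ∈ Icc (Nat.log 2 T₀) (Nat.log 2 K),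
        48 * Q / ε ^ 2 * A * (((j : ℝ) + 2) ^ 4 * (1 / 2) ^ j) := by
    refine le_trans ?_ (Finset.sum_le_sum fun j _ => hlev j)
    exact_mod_cast (Finset.card_le_card hsub).trans Finset.card_biUnion_le
  rw [← Finset.mul_sum] at h1
  refine (hle.trans h1).trans ?_
  have h2 := mul_le_mul_of_nonneg_left (sum_levels (Nat.log 2 T₀) (Nat.log 2 K))
    (by positivity : 0 ≤ 48 * Q / ε ^ 2 * A)
  refine h2.trans ?_
  have h3 : (((Nat.log 2 T₀ : ℕ) : ℝ) + 2) ^ 4 ≤ (4 / Real.log 2 * Real.log T₀) ^ 4 := by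
    apply pow_le_pow_left₀ (by positivity)
    have e1 : 2 ^ Nat.log 2 T₀ ≤ T₀ := Nat.pow_log_le_self 2 (by omega)
    have e2 : ((Nat.log 2 T₀ : ℕ) : ℝ) * Real.log 2 ≤ Real.log T₀ := by
      rw [← Real.log_pow]
      exact Real.log_le_log (by positivity) (by exact_mod_cast e1)
    have e3 : Real.log 2 ≤ Real.log T₀ :=
      Real.log_le_log (by norm_num) (by exact_mod_cast hT₀)
    rw [div_mul_eq_mul_div, le_div_iff₀ hl2]
    nlinarith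
  have h4 : ((1 / 2 : ℝ)) ^ Nat.log 2 T₀ ≤ 2 / T₀ := by
    have e1 : T₀ ≤ 2 ^ (Nat.log 2 T₀ + 1) := (Nat.lt_pow_succ_log_self (by norm_num) T₀).le
    have e2 : (T₀ : ℝ) ≤ 2 ^ (Nat.log 2 T₀ + 1) := by exact_mod_cast e1
    rw [le_div_iff₀ hT0, one_div, inv_pow, inv_mul_le_iff₀ (by positivity)]
    rw [pow_succ] at e2
    exact e2
  calc 48 * Q / ε ^ 2 * A * (KS * ((((Nat.log 2 T₀ : ℕ) : ℝ) + 2) ^ 4 *
        (1 / 2) ^ Nat.log 2 T₀)) ≤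
      48 * Q / ε ^ 2 * A * (KS * ((4 / Real.log 2 * Real.log T₀) ^ 4 * (2 / T₀))) := by
        apply mul_le_mul_of_nonneg_left _ (by positivity)
        apply mul_le_mul_of_nonneg_left _ hKS
        exact mul_le_mul h3 h4 (by positivity) (by positivity)
    _ = 48 * Q / ε ^ 2 * KS * (2 * (4 / Real.log 2) ^ 4) * (A * Real.log T₀ ^ 4 / T₀) := by
        ring
    _ ≤ _ := by
        apply mul_le_mul_of_nonneg_right _ (by positivity)
        linarith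

end Pool.Agent.Helper29.UT
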