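import Pool.Agent.Helper29.QT.Dens
import Pool.Agent.Helper29.UT.Count

/-!
# Weighted sums over finitely many twists
-/

set_option autoImplicit false

namespace Pool.Agent.Helper29.UT

open Finset Filter Topology Pool.Agent.Helper29.QT

/-- Weighted sums of finitely many twists are small for all large `T`. -/
theorem weighted {c : ℕ → ℝ} {M : ℝ} (hc : ∀ p : ℕ, p.Prime → |c p| ≤ M)
    {Δ : ℤ → ℕ → ℝ} (hΔ : ∀ a : ℤ, Squarefree a →
      Tendsto (fun T : ℕ => Δ a T - SF c T a / T) atTop (𝓝 0))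
    (S : Finset ℤ) (hS : ∀ a ∈ S, Squarefree a) (m : ℤ → ℝ) {δ : ℝ} (hδ : 0 < δ) :
    ∀ᶠ T : ℕ in atTop, |∑ a ∈ S, m a * Δ a T| ≤ M * Real.sqrt (7 * ∑ a ∈ S, m a ^ 2) + δ := by
  have hM : 0 ≤ M := (abs_nonneg _).trans (hc 2 Nat.prime_two)
  obtain ⟨Q, hQ⟩ : ∃ Q : ℝ, ∀ a ∈ S, ∀ b ∈ S, 4 * ((a * b).natAbs : ℝ) ≤ Q := by
    refine ⟨∑ a ∈ S, ∑ b ∈ S, 4 * ((a * b).natAbs : ℝ), fun a ha b hb => ?_⟩
    have h1 : 4 * ((a * b).natAbs : ℝ) ≤ ∑ b ∈ S, 4 * ((a * b).natAbs : ℝ) :=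
      Finset.single_le_sum (f := fun b => 4 * ((a * b).natAbs : ℝ)) (fun _ _ => by positivity) hb
    exact h1.trans (Finset.single_le_sum (f := fun a => ∑ b ∈ S, 4 * ((a * b).natAbs : ℝ))
      (fun _ _ => Finset.sum_nonneg fun _ _ => by positivity) ha)
  -- the error
  have e1 : Tendsto (fun T : ℕ => ∑ a ∈ S, m a * (Δ a T - SF c T a / T)) atTop (𝓝 0) := by
    have := tendsto_finsetSum S (f := fun a (T : ℕ) => m a * (Δ a T - SF c T a / T))
      (a := fun _ => (0 : ℝ)) fun a ha => by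
        have := (hΔ a (hS a ha)).const_mul (m a)
        rwa [mul_zero] at this
    rwa [Finset.sum_const_zero] at this
  have e1' : ∀ᶠ T : ℕ in atTop, |∑ a ∈ S, m a * (Δ a T - SF c T a / T)| < δ / 2 := by
    have h1 := e1.eventually (Metric.ball_mem_nhds (0 : ℝ) (half_pos hδ))
    filter_upwards [h1] with T hT
    have hT' := Metric.mem_ball.1 hT
    rwa [Real.dist_eq, sub_zero] at hT'
  obtain ⟨L, hL⟩ : ∃ L : ℝ, L = ∑ a ∈ S, |m a| := ⟨_, rfl⟩
  have hL0 : 0 ≤ L := by rw [hL]; exact Finset.sum_nonneg fun _ _ => abs_nonneg _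
  have e2 : ∀ᶠ T : ℕ in atTop, |(L * (M * Real.log 4)) * (zz T : ℝ) / T| < δ / 2 := by
    have h1 := (tendsto_small' (L * (M * Real.log 4))).eventually
      (Metric.ball_mem_nhds (0 : ℝ) (half_pos hδ))
    filter_upwards [h1] with T hT
    have hT' := Metric.mem_ball.1 hT
    rwa [Real.dist_eq, sub_zero] at hT'
  have e3 : ∀ᶠ T : ℕ in atTop,
      |Real.log T * ((zz T : ℝ) ^ 4 * (1 + S.card * Q)) / T| < 1 / 1000 := by
    have h1 := (tendsto_small (1 + S.card * Q)).eventually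
      (Metric.ball_mem_nhds (0 : ℝ) (by norm_num : (0 : ℝ) < 1 / 1000))
    filter_upwards [h1] with T hT
    have hT' := Metric.mem_ball.1 hT
    rwa [Real.dist_eq, sub_zero] at hT'
  filter_upwards [e1', e2, e3, eventually_ge_atTop 1] with T h1 h2 h3 hT
  have hT0 : (0 : ℝ) < T := by exact_mod_cast hT
  have hb := bessel hc (one_le_zz hT) (lt_zz T) S hS hQ
  have h6 : M ^ 2 * (Real.log 4 * T) * (5 * T + Real.log T * ((zz T : ℝ) ^ 4 *
      (1 + S.card * Q))) ≤ 7 * M ^ 2 * (T : ℝ) ^ 2 := by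
    have h7 : Real.log T * ((zz T : ℝ) ^ 4 * (1 + S.card * Q)) ≤ 1 / 1000 * T := by
      have h8 := (le_abs_self _).trans h3.le
      rw [div_le_iff₀ hT0] at h8
      exact h8
    have h10 : 0 ≤ Real.log 4 := Real.log_nonneg (by norm_num)
    calc _ ≤ M ^ 2 * (Real.log 4 * T) * (5 * T + 1 / 1000 * T) := by
          apply mul_le_mul_of_nonneg_left _ (by positivity)
          linarith
      _ = (Real.log 4 * 5.001) * (M ^ 2 * (T : ℝ) ^ 2) := by ring
      _ ≤ 7 * (M ^ 2 * (T : ℝ) ^ 2) := by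
          apply mul_le_mul_of_nonneg_right _ (by positivity)
          linarith [log_four_lt]
      _ = _ := by ring
  -- the main term
  have h4 : |∑ a ∈ S, m a * SS c (zz T) T a| ≤ M * Real.sqrt (7 * ∑ a ∈ S, m a ^ 2) * T := by
    have h5 : (∑ a ∈ S, m a * SS c (zz T) T a) ^ 2 ≤
        (M * Real.sqrt (7 * ∑ a ∈ S, m a ^ 2) * T) ^ 2 := by
      refine (Finset.sum_mul_sq_le_sq_mul_sq _ _ _).trans ?_
      have hm : 0 ≤ ∑ a ∈ S, m a ^ 2 := Finset.sum_nonneg fun _ _ => sq_nonneg _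
      rw [mul_pow, mul_pow, Real.sq_sqrt (by positivity)]
      calc (∑ a ∈ S, m a ^ 2) * ∑ a ∈ S, SS c (zz T) T a ^ 2 ≤
          (∑ a ∈ S, m a ^ 2) * (7 * M ^ 2 * (T : ℝ) ^ 2) :=
            mul_le_mul_of_nonneg_left (hb.trans h6) hm
        _ = _ := by ring
    exact abs_le_of_sq_le_sq h5 (by positivity)
  have h5 : |∑ a ∈ S, m a * (SF c T a - SS c (zz T) T a)| ≤ δ / 2 * T := by
    calc _ ≤ ∑ a ∈ S, |m a * (SF c T a - SS c (zz T) T a)| := Finset.abs_sum_le_sum_abs _ _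
      _ ≤ ∑ a ∈ S, |m a| * (M * (Real.log 4 * zz T)) := by
          refine Finset.sum_le_sum fun a _ => ?_
          rw [abs_mul]
          exact mul_le_mul_of_nonneg_left (SF_sub hc (zz T) T a) (abs_nonneg _)
      _ = L * (M * Real.log 4) * zz T := by rw [← Finset.sum_mul, ← hL]; ring
      _ ≤ _ := by
          have := (le_abs_self _).trans h2.le
          rwa [div_le_iff₀ hT0] at this
  have h7 : ∑ a ∈ S, m a * Δ a T = ∑ a ∈ S, m a * (Δ a T - SF c T a / T) +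
      (∑ a ∈ S, m a * (SF c T a - SS c (zz T) T a)) / T +
      (∑ a ∈ S, m a * SS c (zz T) T a) / T := by
    rw [Finset.sum_div, Finset.sum_div, ← Finset.sum_add_distrib, ← Finset.sum_add_distrib]
    refine Finset.sum_congr rfl fun a _ => ?_
    ring
  rw [h7]
  have h8 : |(∑ a ∈ S, m a * (SF c T a - SS c (zz T) T a)) / T| ≤ δ / 2 := by
    rw [abs_div, abs_of_pos hT0, div_le_iff₀ hT0]
    exact h5
  have h9 : |(∑ a ∈ S, m a * SS c (zz T) T a) / T| ≤ M * Real.sqrt (7 * ∑ a ∈ S, m a ^ 2) := by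
    rw [abs_div, abs_of_pos hT0, div_le_iff₀ hT0]
    exact h4
  have h10 := abs_add_le (∑ a ∈ S, m a * (Δ a T - SF c T a / T) +
      (∑ a ∈ S, m a * (SF c T a - SS c (zz T) T a)) / T)
      ((∑ a ∈ S, m a * SS c (zz T) T a) / T)
  have h11 := abs_add_le (∑ a ∈ S, m a * (Δ a T - SF c T a / T))
      ((∑ a ∈ S, m a * (SF c T a - SS c (zz T) T a)) / T)
  linarith

end Pool.Agent.Helper29.UT
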