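import Pool.Agent.Helper29.UT.Often
import Pool.Agent.Helper29.UT.Weighted
import Pool.Agent.Helper29.QT.Base

/-!
# The counting theorem for base change to quadratic extensions
-/

set_option autoImplicit false

namespace Pool.Agent.Helper29.UT

open Finset MvPolynomial Filter Topology Pool.Agent.Helper29.QT

variable {R : Type} [CommRing R] {d : ℕ}

open Classical in
/-- The number of square roots of `a` modulo `p`, as a real number. -/
noncomputable def nr (p : ℕ) (a : ℤ) : ℝ := (Nat.card {y : ZMod p // y ^ 2 = (a : ZMod p)} : ℝ)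

lemma nr_eq {p : ℕ} [Fact p.Prime] (a : ℤ) :
    nr p a = (((univ : Finset (ZMod p)).filter fun y => y ^ 2 = (a : ZMod p)).card : ℝ) := by
  unfold nr
  congr 1
  apply Nat.subtype_card
  intro y
  rw [Finset.mem_filter]
  simp

lemma sq_two : ∀ y : ZMod 2, y ^ 2 = y := by decide

lemma nr_dvd {p : ℕ} (hp : p.Prime) {a : ℤ} (ha : (p : ℤ) ∣ 2 * a) : nr p a = 1 := by
  have hpp : Fact p.Prime := ⟨hp⟩
  rcases eq_or_ne p 2 with rfl | hne
  · unfold nr
    have h2 : ∀ y : ZMod 2, y ^ 2 = (a : ZMod 2) ↔ y = (a : ZMod 2) := fun y => by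
      rw [sq_two]
    simp_rw [h2]
    rw [Nat.card_eq_fintype_card, Fintype.card_subtype_eq]
    norm_num
  · have h1 : (p : ℤ) ∣ a := by
      rcases (Nat.prime_iff_prime_int.1 hp).dvd_or_dvd ha with h5 | h5
      · exfalso
        have h6 : p ∣ 2 := by exact_mod_cast h5
        exact hne ((Nat.prime_dvd_prime_iff_eq hp Nat.prime_two).1 h6)
      · exact h5
    have h2 : (a : ZMod p) = 0 := (ZMod.intCast_zmod_eq_zero_iff_dvd a p).2 h1
    unfold nr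
    rw [h2]
    have h3 : ∀ y : ZMod p, y ^ 2 = 0 ↔ y = 0 := fun y => by
      rw [pow_eq_zero_iff (two_ne_zero)]
    simp_rw [h3]
    rw [Nat.card_eq_fintype_card, Fintype.card_subtype_eq]
    norm_num

/-- The terms of the difference of the averages. -/
noncomputable def tb (β : ∀ p : ℕ, (R →+* ZMod p) → ℝ) (p : ℕ) (a : ℤ) : ℝ :=
  (nr p a - 1) * cb β p

lemma DD_tb (b : Module.Basis (Fin d) ℤ R) (β : ∀ p : ℕ, (R →+* ZMod p) → ℝ) (a : ℤ) (T : ℕ) :
    avg T (baseChange a β) - avg T β = DD (tb β) a T := by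
  classical
  unfold avg DD
  rw [← sub_div]
  congr 1
  have h2 : (Icc 1 T).filter Nat.Prime = PR T := rfl
  rw [h2, ← Finset.sum_sub_distrib]
  refine Finset.sum_congr rfl fun p hp => ?_
  have hpp : Fact p.Prime := ⟨(Finset.mem_filter.1 hp).2⟩
  have hfin : Finite (R →+* ZMod p) := Pool.Agent.Helper29.LN.hom_finite b
  have hft := Fintype.ofFinite (R →+* ZMod p)
  rw [base_term b β a, ← nr_eq]
  have h4 : ∑ᶠ φ : R →+* ZMod p, β p φ * Real.log p / p =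
      cb β p * Real.log p := by
    unfold cb
    rw [finsum_eq_sum_of_fintype, finsum_eq_sum_of_fintype, Finset.sum_mul]
    exact Finset.sum_congr rfl fun φ _ => by ring
  rw [h4]
  unfold tb
  ring

lemma exists_Tw_base (b : Module.Basis (Fin d) ℤ R) (β : ∀ p : ℕ, (R →+* ZMod p) → ℝ) {M : ℝ}
    (hM : ∀ᶠ p : ℕ in atTop, p.Prime → ∀ φ : R →+* ZMod p, |β p φ| ≤ M * p) :
    ∃ M' W : ℝ, Tw (tb β) (cb β) M' W := by
  classical
  obtain ⟨P₀, hP₀⟩ := Filter.eventually_atTop.1 hM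
  refine ⟨d * |M| + ∑ p ∈ range P₀, |cb β p|, 0, le_rfl, ?_, ?_, ?_, ?_⟩
  · intro p hp
    have hdM : 0 ≤ (d : ℝ) * |M| := by positivity
    rcases Nat.lt_or_ge p P₀ with hlt | hge
    · have : |cb β p| ≤ ∑ p ∈ range P₀, |cb β p| :=
        Finset.single_le_sum (f := fun p => |cb β p|) (fun _ _ => abs_nonneg _)
          (Finset.mem_range.2 hlt)
      linarith
    · have h1 := abs_cb_le b (abs_nonneg M) hp fun φ => (hP₀ p hge hp φ).trans
        (mul_le_mul_of_nonneg_right (le_abs_self M) (Nat.cast_nonneg p))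
      have : 0 ≤ ∑ p ∈ range P₀, |cb β p| := Finset.sum_nonneg fun _ _ => abs_nonneg _
      linarith
  · intro p _ a a' haa
    unfold tb nr
    rw [haa]
  · intro p hp a ha
    have hpp : Fact p.Prime := ⟨hp⟩
    have hne : p ≠ 2 := by
      rintro rfl
      exact ha (Dvd.intro a rfl)
    unfold tb
    rw [nr_eq, card_roots hne a]
    ring
  · intro p hp a ha
    unfold tb
    rw [nr_dvd hp ha, sub_self, zero_mul, abs_zero]

/-- The theorem on quadratic extensions. -/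
theorem extensions (b : Module.Basis (Fin d) ℤ R) (β : ∀ p : ℕ, (R →+* ZMod p) → ℝ) {M : ℝ}
    (hM : ∀ᶠ p : ℕ in atTop, p.Prime → ∀ φ : R →+* ZMod p, |β p φ| ≤ M * p) {ε : ℝ}
    (hε : 0 < ε) :
    ∃ C : ℝ, 0 < C ∧
    (∀ A T₀ T₁ : ℕ, 1 ≤ A → 2 ≤ T₀ → T₀ ≤ T₁ →
      (Nat.card {a : ℤ // Squarefree a ∧ |a| ≤ A ∧ ∃ T : ℕ, T₀ ≤ T ∧ T ≤ T₁ ∧
        ε < |avg T (baseChange a β) - avg T β|} : ℝ) ≤ C *
        (A * Real.log T₀ ^ 4 / T₀ + Real.log A ^ 13 + Real.log T₁)) ∧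
    (∀ A T₀ T₁ : ℕ, 1 ≤ A → 2 ≤ T₀ → T₀ ≤ T₁ → A ^ 16 ≤ T₀ →
      (Nat.card {a : ℤ // Squarefree a ∧ |a| ≤ A ∧ ∃ T : ℕ, T₀ ≤ T ∧ T ≤ T₁ ∧
        ε < |avg T (baseChange a β) - avg T β|} : ℝ) ≤ C * (1 + Real.log (T₁ / T₀))) ∧
    (∀ K : ℕ, 1 ≤ K → ∃ E : Finset ℤ, (E.card : ℝ) ≤ C * (1 + Real.log K) ∧
      ∀ a : ℤ, Squarefree a → a ∉ E → ∃ᶠ X : ℕ in atTop,
        ∀ T : ℕ, X ≤ K * T → T ≤ X → |avg T (baseChange a β) - avg T β| ≤ ε) := by
  obtain ⟨M', W, hTw⟩ := exists_Tw_base b β hM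
  obtain ⟨C, hC, hmain⟩ := Tw.main hTw.M_nonneg hTw.W_nonneg hε
  exact ⟨C, hC, hmain _ _ hTw (fun a T => avg T (baseChange a β) - avg T β)
    (fun a T => DD_tb b β a T)⟩

/-- The theorem on products of quadratic base changes. -/
theorem extensions_weighted (b : Module.Basis (Fin d) ℤ R)
    (β : ∀ p : ℕ, (R →+* ZMod p) → ℝ) {M : ℝ} (hM0 : 0 ≤ M)
    (hM : ∀ᶠ p : ℕ in atTop, p.Prime → ∀ φ : R →+* ZMod p, |β p φ| ≤ M * p)
    (S : Finset ℤ) (hS : ∀ a ∈ S, Squarefree a) (m : ℤ → ℝ) {δ : ℝ} (hδ : 0 < δ) :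
    ∀ᶠ T : ℕ in atTop, |∑ a ∈ S, m a * (avg T (baseChange a β) - avg T β)| ≤
      d * M * Real.sqrt (7 * ∑ a ∈ S, m a ^ 2) + δ := by
  classical
  obtain ⟨P₀, hP₀⟩ := Filter.eventually_atTop.1 hM
  obtain ⟨c₁, hc₁⟩ : ∃ c₁ : ℕ → ℝ, c₁ = fun p => if P₀ ≤ p then cb β p else 0 := ⟨_, rfl⟩
  have hc : ∀ p : ℕ, p.Prime → |c₁ p| ≤ d * M := by
    intro p hp
    rw [hc₁]
    dsimp only
    split_ifs with h1
    · exact abs_cb_le b hM0 hp fun φ => hP₀ p h1 hp φ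
    · rw [abs_zero]; positivity
  have htend : ∀ a : ℤ, Squarefree a → Tendsto (fun T : ℕ =>
      (avg T (baseChange a β) - avg T β) - SF c₁ T a / T) atTop (𝓝 0) := by
    intro a ha
    have h1 := (base_delta b β ha.ne_zero).add (tendsto_cut (cb β) P₀ a)
    rw [add_zero] at h1
    rw [hc₁]
    refine h1.congr fun T => ?_
    ring
  exact weighted hc htend S hS m hδ

end Pool.Agent.Helper29.UT
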