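import Pool.Agent.Helper29.UT.Grid2
import Pool.Agent.Helper29.TT.Gen

/-!
# The number of exceptional twists for all scales
-/

set_option autoImplicit false

namespace Pool.Agent.Helper29.UT

open Finset Filter Topology Pool.Agent.Helper29.QT Pool.Agent.Helper29.TT

/-- The normalised sum. -/
noncomputable def DD (t : ℕ → ℤ → ℝ) (a : ℤ) (T : ℕ) : ℝ := (∑ p ∈ PR T, Real.log p * t p a) / T

/-- The terms are, up to a bounded error at the primes dividing `2 a`, those of a twist. -/
structure Tw (t : ℕ → ℤ → ℝ) (c : ℕ → ℝ) (M W : ℝ) : Prop where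
  W_nonneg : 0 ≤ W
  bound : ∀ p : ℕ, p.Prime → |c p| ≤ M
  per : ∀ (p : ℕ), p.Prime → ∀ a b : ℤ, (a : ZMod p) = (b : ZMod p) → t p a = t p b
  near : ∀ (p : ℕ), p.Prime → ∀ a : ℤ, ¬ (p : ℤ) ∣ 2 * a → t p a = ch a p * c p
  near' : ∀ (p : ℕ), p.Prime → ∀ a : ℤ, (p : ℤ) ∣ 2 * a → |t p a| ≤ W

variable {t : ℕ → ℤ → ℝ} {c : ℕ → ℝ} {M W : ℝ}

lemma Tw.M_nonneg (h : Tw t c M W) : 0 ≤ M := (abs_nonneg _).trans (h.bound 2 Nat.prime_two)

lemma ch_dvd {p : ℕ} (hp : p.Prime) {a : ℤ} (h : (p : ℤ) ∣ 2 * a) : ch a p = 0 := by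
  rcases hp.eq_two_or_odd' with rfl | hodd
  · unfold ch
    rw [if_neg (by decide)]
  · rw [ch_odd a hodd]
    have h1 : (p : ℤ) ∣ a := by
      have h2 : IsCoprime (p : ℤ) 2 := by
        rw [Int.isCoprime_iff_gcd_eq_one]
        have : Nat.Coprime p 2 := hodd.coprime_two_right
        exact_mod_cast this
      exact h2.dvd_of_dvd_mul_left h
    have h2 : jacobiSym a p = 0 := by
      apply (jacobiSym.eq_zero_iff (a := a) (b := p)).2
      refine ⟨hp.ne_zero, ?_⟩
      intro h3
      have h4 : (p : ℤ) ∣ (a.gcd p : ℤ) := Int.dvd_coe_gcd h1 (dvd_refl _)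
      rw [h3] at h4
      have h5 : (p : ℤ) ∣ 1 := by exact_mod_cast h4
      have h6 := Int.isUnit_iff.1 (isUnit_of_dvd_one h5)
      have := hp.two_le
      omega
    rw [h2]
    norm_num

lemma Tw.diff (h : Tw t c M W) {p : ℕ} (hp : p.Prime) (a : ℤ) :
    |t p a - ch a p * c p| ≤ if (p : ℤ) ∣ 2 * a then W else 0 := by
  split_ifs with h1
  · rw [ch_dvd hp h1, zero_mul, sub_zero]
    exact h.near' p hp a h1
  · rw [h.near p hp a h1, sub_self, abs_zero]

lemma Tw.abs_le (h : Tw t c M W) {p : ℕ} (hp : p.Prime) (a : ℤ) : |t p a| ≤ M + W := by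
  have hM := h.M_nonneg
  have hW := h.W_nonneg
  by_cases h1 : (p : ℤ) ∣ 2 * a
  · have := h.near' p hp a h1
    linarith
  · rw [h.near p hp a h1, abs_mul]
    have h2 := abs_ch_le a p
    have h3 := h.bound p hp
    have h4 : |ch a p| * |c p| ≤ 1 * M := mul_le_mul h2 h3 (abs_nonneg _) zero_le_one
    linarith

lemma sum_ch {p : ℕ} [hp : Fact p.Prime] (hp2 : p ≠ 2) :
    ∑ x : ZMod p, ch ((x.val : ℕ) : ℤ) p = 0 := by
  have hodd : Odd p := (hp.out.eq_two_or_odd').resolve_left hp2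
  have h1 : ∀ x : ZMod p, ch ((x.val : ℕ) : ℤ) p = ((quadraticChar (ZMod p) x : ℤ) : ℝ) := by
    intro x
    rw [ch_odd _ hodd, ← jacobiSym.legendreSym.to_jacobiSym]
    unfold legendreSym
    congr 3
    rw [Int.cast_natCast, ZMod.natCast_zmod_val]
  simp_rw [h1]
  have h2 := quadraticChar_sum_zero (F := ZMod p) (by rw [ZMod.ringChar_zmod_n]; exact hp2)
  exact_mod_cast h2

lemma Tw.fam (h : Tw t c M W) :
    Fam (fun (p : ℕ) (x : Unit → ℤ) => t p (x ())) ((M + W) ^ 2) (2 * W) := by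
  have hM := h.M_nonneg
  have hW := h.W_nonneg
  refine ⟨sq_nonneg _, by linarith, ?_⟩
  intro p hp
  have hp0 : (0 : ℝ) < p := by exact_mod_cast hp.out.pos
  refine ⟨fun u => t p (((u ()).val : ℕ) : ℤ), ?_, ?_, ?_⟩
  · intro a
    apply h.per p hp.out
    rw [Int.cast_natCast, ZMod.natCast_zmod_val]
  · calc ∑ u : Unit → ZMod p, t p (((u ()).val : ℕ) : ℤ) ^ 2 ≤
        ∑ u : Unit → ZMod p, (M + W) ^ 2 := by
          refine Finset.sum_le_sum fun u _ => ?_
          rw [← sq_abs]
          exact pow_le_pow_left₀ (abs_nonneg _) (h.abs_le hp.out _) 2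
      _ = _ := by
          rw [Finset.sum_const, Finset.card_univ, Fintype.card_fun, ZMod.card, nsmul_eq_mul]
          push_cast
          ring
  · have e0 : ∑ u : Unit → ZMod p, t p (((u ()).val : ℕ) : ℤ) =
        ∑ x : ZMod p, t p ((x.val : ℕ) : ℤ) :=
      Fintype.sum_equiv (Equiv.funUnique Unit (ZMod p)) _ _ fun u => rfl
    rw [e0, Fintype.card_unit, pow_one]
    have hs : 0 < Real.sqrt p := Real.sqrt_pos.2 hp0
    have e1 : (p : ℝ) / Real.sqrt p = Real.sqrt p := Real.div_sqrt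
    rw [e1]
    have hs1 : 1 ≤ Real.sqrt p := by
      rw [Real.one_le_sqrt]
      exact_mod_cast hp.out.one_le
    rcases eq_or_ne p 2 with rfl | hp2
    · calc |∑ x : ZMod 2, t 2 ((x.val : ℕ) : ℤ)| ≤ ∑ x : ZMod 2, |t 2 ((x.val : ℕ) : ℤ)| :=
            Finset.abs_sum_le_sum_abs _ _
        _ ≤ ∑ x : ZMod 2, W := Finset.sum_le_sum fun x _ =>
            h.near' 2 Nat.prime_two _ (Dvd.intro _ rfl)
        _ = 2 * W * 1 := by
            rw [Finset.sum_const, Finset.card_univ, ZMod.card, nsmul_eq_mul]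
            push_cast
            ring
        _ ≤ _ := mul_le_mul_of_nonneg_left hs1 (by linarith)
    · have e2 : ∑ x : ZMod p, t p ((x.val : ℕ) : ℤ) =
          ∑ x : ZMod p, (t p ((x.val : ℕ) : ℤ) - ch ((x.val : ℕ) : ℤ) p * c p) := by
        rw [Finset.sum_sub_distrib, ← Finset.sum_mul, sum_ch hp2, zero_mul, sub_zero]
      rw [e2]
      calc |∑ x : ZMod p, (t p ((x.val : ℕ) : ℤ) - ch ((x.val : ℕ) : ℤ) p * c p)| ≤
            ∑ x : ZMod p, |t p ((x.val : ℕ) : ℤ) - ch ((x.val : ℕ) : ℤ) p * c p| :=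
            Finset.abs_sum_le_sum_abs _ _
        _ ≤ ∑ x : ZMod p, (if x = 0 then W else 0) := by
            refine Finset.sum_le_sum fun x _ => ?_
            refine (h.diff hp.out _).trans ?_
            split_ifs with h1 h2 h2
            · exact le_rfl
            · exfalso
              apply h2
              have h3 : (p : ℤ) ∣ ((x.val : ℕ) : ℤ) := by
                have h4 : IsCoprime (p : ℤ) 2 := by
                  rw [Int.isCoprime_iff_gcd_eq_one]
                  have hodd : Odd p := (hp.out.eq_two_or_odd').resolve_left hp2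
                  have : Nat.Coprime p 2 := hodd.coprime_two_right
                  exact_mod_cast this
                exact h4.dvd_of_dvd_mul_left h1
              have h5 : p ∣ x.val := by exact_mod_cast h3
              have h6 : ((x.val : ℕ) : ZMod p) = 0 := (ZMod.natCast_eq_zero_iff _ _).2 h5
              rwa [ZMod.natCast_zmod_val] at h6
            · exact hW
            · exact le_rfl
        _ = W := by rw [Finset.sum_ite_eq' Finset.univ (0 : ZMod p) fun _ => W,
            if_pos (Finset.mem_univ _)]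
        _ ≤ 2 * W * 1 := by linarith
        _ ≤ _ := mul_le_mul_of_nonneg_left hs1 (by linarith)

end Pool.Agent.Helper29.UT
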