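import Pool.Agent.Helper29.UT.Small

/-!
# The main counting theorems
-/

set_option autoImplicit false

namespace Pool.Agent.Helper29.UT

open Finset Filter Topology Pool.Agent.Helper29.QT Pool.Agent.Helper29.TT

variable {t : ℕ → ℤ → ℝ} {c : ℕ → ℝ} {M W : ℝ}

/-- The primes dividing an integer. -/
lemma sum_log_dvd {n : ℕ} (hn : n ≠ 0) (T : ℕ) :
    ∑ p ∈ (PR T).filter (· ∣ n), Real.log p ≤ Real.log n := by
  have hn0 : (0 : ℝ) < n := by exact_mod_cast Nat.pos_of_ne_zero hn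
  have h1 : (PR T).filter (· ∣ n) ⊆ n.primeFactors := by
    intro p hp
    obtain ⟨h1, h2⟩ := Finset.mem_filter.1 hp
    rw [Nat.mem_primeFactors]
    exact ⟨(Finset.mem_filter.1 h1).2, h2, hn⟩
  calc ∑ p ∈ (PR T).filter (· ∣ n), Real.log p ≤ ∑ p ∈ n.primeFactors, Real.log p :=
        Finset.sum_le_sum_of_subset_of_nonneg h1 fun p _ _ => log_nonneg' p
    _ = Real.log ((∏ p ∈ n.primeFactors, p : ℕ) : ℝ) := by
        push_cast
        rw [Real.log_prod]
        intro p hp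
        exact_mod_cast (Nat.prime_of_mem_primeFactors hp).ne_zero
    _ ≤ Real.log n := by
        apply Real.log_le_log
        · have : 0 < ∏ p ∈ n.primeFactors, p :=
            Finset.prod_pos fun p hp => (Nat.prime_of_mem_primeFactors hp).pos
          exact_mod_cast this
        · exact_mod_cast Nat.le_of_dvd (Nat.pos_of_ne_zero hn) (Nat.prod_primeFactors_dvd n)

/-- The normalised sum is close to that of the twist. -/
lemma Tw.DD_sub (h : Tw t c M W) {a : ℤ} (ha : a ≠ 0) {A T : ℕ} (hA : |a| ≤ A) (hT : 1 ≤ T) :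
    |DD t a T * T - SF c T a| ≤ W * Real.log (2 * A) := by
  have hT0 : (0 : ℝ) < T := by exact_mod_cast hT
  have h1 : DD t a T * T - SF c T a =
      ∑ p ∈ PR T, Real.log p * (t p a - ch a p * c p) := by
    unfold DD SF
    rw [div_mul_cancel₀ _ hT0.ne', ← Finset.sum_sub_distrib]
    refine Finset.sum_congr rfl fun p _ => ?_
    ring
  rw [h1]
  have hn : (2 * a).natAbs ≠ 0 := by omega
  calc |∑ p ∈ PR T, Real.log p * (t p a - ch a p * c p)| ≤
        ∑ p ∈ PR T, |Real.log p * (t p a - ch a p * c p)| := Finset.abs_sum_le_sum_abs _ _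
    _ ≤ ∑ p ∈ PR T, (if p ∣ (2 * a).natAbs then Real.log p else 0) * W := by
        refine Finset.sum_le_sum fun p hp => ?_
        have hp1 := (Finset.mem_filter.1 hp).2
        rw [abs_mul, abs_of_nonneg (log_nonneg' p)]
        have h2 := h.diff hp1 a
        have h3 : ((p : ℤ) ∣ 2 * a) ↔ p ∣ (2 * a).natAbs := by
          rw [← Int.natCast_dvd]
        by_cases h4 : p ∣ (2 * a).natAbs
        · rw [if_pos (h3.2 h4)] at h2
          rw [if_pos h4]
          exact mul_le_mul_of_nonneg_left h2 (log_nonneg' p)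
        · rw [if_neg (fun h5 => h4 (h3.1 h5))] at h2
          rw [if_neg h4, zero_mul]
          have := mul_le_mul_of_nonneg_left h2 (log_nonneg' p)
          rwa [mul_zero] at this
    _ = (∑ p ∈ (PR T).filter (· ∣ (2 * a).natAbs), Real.log p) * W := by
        rw [← Finset.sum_mul, Finset.sum_filter]
    _ ≤ Real.log ((2 * a).natAbs : ℕ) * W :=
        mul_le_mul_of_nonneg_right (sum_log_dvd hn T) h.W_nonneg
    _ ≤ Real.log (2 * A) * W := by
        apply mul_le_mul_of_nonneg_right _ h.W_nonneg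
        apply Real.log_le_log
        · exact_mod_cast Nat.pos_of_ne_zero hn
        · have : (2 * a).natAbs ≤ 2 * A := by
            rw [_root_.abs_le] at hA
            omega
          exact_mod_cast this
    _ = _ := mul_comm _ _

/-- Transfer to the twisted sums. -/
lemma Tw.exists_scale (W : ℝ) {ε : ℝ} (hε : 0 < ε) : ∃ S : ℕ, 1 ≤ S ∧
    ∀ (t : ℕ → ℤ → ℝ) (c : ℕ → ℝ) (M : ℝ), Tw t c M W →
    ∀ A T : ℕ, S ≤ T → A ≤ T ^ 2 → ∀ a ∈ sqA A, ε < |DD t a T| →
      ε / 2 * T < |SF c T a| := by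
  have h1 : Tendsto (fun T : ℕ => 3 * W * (Real.log T / T)) atTop (𝓝 0) := by
    have e1 : Tendsto (fun x : ℝ => Real.log x / x ^ (1 : ℝ)) atTop (𝓝 0) :=
      (isLittleO_log_rpow_atTop one_pos).tendsto_div_nhds_zero
    have e2 := (e1.comp tendsto_natCast_atTop_atTop).const_mul (3 * W)
    rw [mul_zero] at e2
    refine e2.congr fun T => ?_
    rw [Function.comp_apply, Real.rpow_one]
  have h2 := h1.eventually (Metric.ball_mem_nhds (0 : ℝ) (half_pos hε))
  obtain ⟨S, hS⟩ := Filter.eventually_atTop.1 h2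
  refine ⟨max S 2, by omega, fun t c M h A T hST hAT a ha hlt => ?_⟩
  have hT2 : 2 ≤ T := (le_max_right _ _).trans hST
  have hT0 : (0 : ℝ) < T := by exact_mod_cast (by omega : 0 < T)
  have h3 := Metric.mem_ball.1 (hS T ((le_max_left _ _).trans hST))
  rw [Real.dist_eq, sub_zero] at h3
  have h4 := (le_abs_self _).trans h3.le
  obtain ⟨⟨ha1, ha2⟩, ha3⟩ := mem_sqA.1 ha
  have h5 := h.DD_sub ha3.ne_zero (A := A) (T := T) (_root_.abs_le.2 ⟨ha1, ha2⟩) (by omega)
  have hW := h.W_nonneg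
  have hA1 : 1 ≤ A := by
    rcases Nat.eq_zero_or_pos A with h6 | h6
    · exfalso
      apply ha3.ne_zero
      rw [h6] at ha1 ha2
      omega
    · exact h6
  have h6 : Real.log (2 * A) ≤ 3 * Real.log T := by
    have e1 : (2 * (A : ℝ)) ≤ (T : ℝ) ^ 3 := by
      have : 2 * A ≤ T ^ 3 := by
        calc 2 * A ≤ T * T ^ 2 := Nat.mul_le_mul hT2 hAT
          _ = T ^ 3 := by ring
      exact_mod_cast this
    have e2 : (0 : ℝ) < 2 * (A : ℝ) := by
      have : (0 : ℝ) < A := by exact_mod_cast hA1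
      linarith
    have e3 := Real.log_le_log e2 e1
    rw [Real.log_pow] at e3
    exact_mod_cast e3
  have h7 : W * Real.log (2 * A) ≤ ε / 2 * T := by
    have e1 : 3 * W * (Real.log T / T) * T = W * (3 * Real.log T) := by
      field_simp
    have e2 := mul_le_mul_of_nonneg_right h4 hT0.le
    rw [e1] at e2
    exact (mul_le_mul_of_nonneg_left h6 hW).trans e2
  have h8 : |DD t a T * T| ≤ |DD t a T * T - SF c T a| + |SF c T a| := by
    have := abs_add_le (DD t a T * T - SF c T a) (SF c T a)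
    rw [sub_add_cancel] at this
    exact this
  rw [abs_mul, abs_of_pos hT0] at h8
  have h9 : ε * T < |DD t a T| * T := mul_lt_mul_of_pos_right hlt hT0
  linarith

open Classical in
/-- **The counting theorem.** -/
theorem Tw.count (hM : 0 ≤ M) (hW : 0 ≤ W) {ε : ℝ} (hε : 0 < ε) : ∃ C : ℝ, 0 < C ∧
    ∀ (t : ℕ → ℤ → ℝ) (c : ℕ → ℝ), Tw t c M W →
    ∀ A T₀ T₁ : ℕ, 1 ≤ A → 2 ≤ T₀ → T₀ ≤ T₁ →
      (((sqA A).filter fun a => ∃ T : ℕ, T₀ ≤ T ∧ T ≤ T₁ ∧ ε < |DD t a T|).card : ℝ) ≤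
        C * (A * Real.log T₀ ^ 4 / T₀ + Real.log A ^ 13 + Real.log T₁) ∧
      (A ^ 16 ≤ T₀ →
        (((sqA A).filter fun a => ∃ T : ℕ, T₀ ≤ T ∧ T ≤ T₁ ∧ ε < |DD t a T|).card : ℝ) ≤
        C * (1 + Real.log (T₁ / T₀))) := by
  obtain ⟨S, hS1, hS⟩ := Tw.exists_scale W hε
  obtain ⟨C₁, hC₁, hsm⟩ := Tw.small hM hW hε
  obtain ⟨C₂, S₂, hC₂, hS₂, h2⟩ := count2 hM (half_pos hε)
  obtain ⟨C₃, S₃, hC₃, hS₃, h3⟩ := count1 hM (half_pos hε)
  obtain ⟨R, hR⟩ : ∃ R : ℕ, R = S + S₂ + S₃ := ⟨_, rfl⟩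
  have hl2 : 0 < Real.log 2 := Real.log_pos (by norm_num)
  have hR0 : (0 : ℝ) ≤ R := Nat.cast_nonneg R
  refine ⟨C₁ + C₂ + C₃ + 3 * R / Real.log 2 ^ 4 + 3 * R, by positivity, ?_⟩
  intro t c h A T₀ T₁ hA hT₀ hT
  have hA0 : (1 : ℝ) ≤ A := by exact_mod_cast hA
  have hlT : 0 < Real.log T₀ := Real.log_pos (by exact_mod_cast (by omega : 1 < T₀))
  have hT₀R : (0 : ℝ) < T₀ := by exact_mod_cast (by omega : 0 < T₀)
  have hTR : (T₀ : ℝ) ≤ T₁ := by exact_mod_cast hT
  have hlTT : Real.log T₀ ≤ Real.log T₁ := Real.log_le_log hT₀R hTR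
  have hA' : 0 ≤ A * Real.log T₀ ^ 4 / T₀ := by positivity
  have hlA : 0 ≤ Real.log A ^ 13 := pow_nonneg (log_nonneg' A) 13
  have hlT₁ : 0 ≤ Real.log T₁ := log_nonneg' T₁
  have hlog : Real.log (T₁ / T₀) = Real.log T₁ - Real.log T₀ :=
    Real.log_div (by linarith) hT₀R.ne'
  have hlog0 : 0 ≤ Real.log (T₁ / T₀) := by rw [hlog]; linarith
  obtain ⟨N, hN⟩ : ∃ N : ℝ, N = (((sqA A).filter fun a => ∃ T : ℕ, T₀ ≤ T ∧ T ≤ T₁ ∧
    ε < |DD t a T|).card : ℝ) := ⟨_, rfl⟩
  have hN3 : N ≤ 3 * A := by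
    rw [hN]
    refine le_trans ?_ (card_sqA hA)
    exact_mod_cast Finset.card_filter_le _ _
  rw [← hN]
  rcases Nat.lt_or_ge T₀ R with hlt | hge
  · -- small `T₀`: the trivial bound
    have hT₀R' : (T₀ : ℝ) ≤ R := by exact_mod_cast hlt.le
    have hl2T : Real.log 2 ≤ Real.log T₀ :=
      Real.log_le_log (by norm_num) (by exact_mod_cast hT₀)
    have hl4 : Real.log 2 ^ 4 ≤ Real.log T₀ ^ 4 := pow_le_pow_left₀ hl2.le hl2T 4
    constructor
    · calc N ≤ 3 * A := hN3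
        _ = 3 * T₀ / Real.log T₀ ^ 4 * (A * Real.log T₀ ^ 4 / T₀) := by field_simp
        _ ≤ 3 * R / Real.log 2 ^ 4 * (A * Real.log T₀ ^ 4 / T₀) := by
            apply mul_le_mul_of_nonneg_right _ hA'
            exact div_le_div₀ (by linarith) (by linarith) (by positivity) hl4
        _ ≤ (C₁ + C₂ + C₃ + 3 * R / Real.log 2 ^ 4 + 3 * R) * (A * Real.log T₀ ^ 4 / T₀) := by
            apply mul_le_mul_of_nonneg_right _ hA'
            linarith
        _ ≤ _ := by
            apply mul_le_mul_of_nonneg_left _ (by positivity)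
            linarith
    · intro hA16
      have e1 : A ≤ T₀ := by
        calc A ≤ A ^ 16 := Nat.le_self_pow (by norm_num) A
          _ ≤ T₀ := hA16
      have e2 : (A : ℝ) ≤ R := by exact_mod_cast e1.trans hlt.le
      calc N ≤ 3 * A := hN3
        _ ≤ 3 * R * 1 := by linarith
        _ ≤ (C₁ + C₂ + C₃ + 3 * R / Real.log 2 ^ 4 + 3 * R) * (1 + Real.log (T₁ / T₀)) := by
            apply mul_le_mul _ (by linarith) zero_le_one (by positivity)
            have : 0 ≤ 3 * R / Real.log 2 ^ 4 := by positivity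
            linarith
  · have hSR : S ≤ T₀ := by omega
    have hSR₂ : S₂ ≤ T₀ := by omega
    have hSR₃ : S₃ ≤ T₀ := by omega
    constructor
    · have e1 := hsm t c h A T₀ hA hT₀
      have e2 := h2 c h.bound A T₀ T₁ hA hSR₂ hT
      have e3 : N ≤ (((sqA A).filter fun a => ∃ T : ℕ, T₀ ≤ T ∧ T ^ 2 ≤ A ∧
          ε < |DD t a T|).card : ℝ) + (((sqA A).filter fun a => ∃ T : ℕ, T₀ ≤ T ∧ T ≤ T₁ ∧
          A < T ^ 2 ∧ ε / 2 * T < |SF c T a|).card : ℝ) := by
        rw [hN]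
        have : ((sqA A).filter fun a => ∃ T : ℕ, T₀ ≤ T ∧ T ≤ T₁ ∧ ε < |DD t a T|) ⊆
            ((sqA A).filter fun a => ∃ T : ℕ, T₀ ≤ T ∧ T ^ 2 ≤ A ∧ ε < |DD t a T|) ∪
            ((sqA A).filter fun a => ∃ T : ℕ, T₀ ≤ T ∧ T ≤ T₁ ∧ A < T ^ 2 ∧
              ε / 2 * T < |SF c T a|) := by
          intro a ha
          obtain ⟨ha1, T, f1, f2, f3⟩ := Finset.mem_filter.1 ha
          rw [Finset.mem_union, Finset.mem_filter, Finset.mem_filter]
          rcases Nat.lt_or_ge A (T ^ 2) with hlt2 | hge2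
          · exact Or.inr ⟨ha1, T, f1, f2, hlt2, hS t c M h A T (hSR.trans f1) hlt2.le a ha1 f3⟩
          · exact Or.inl ⟨ha1, T, f1, hge2, f3⟩
        exact_mod_cast (Finset.card_le_card this).trans (Finset.card_union_le _ _)
      have e6 : C₁ * (A * Real.log T₀ ^ 4 / T₀) ≤
          C₁ * (A * Real.log T₀ ^ 4 / T₀ + Real.log A ^ 13 + Real.log T₁) :=
        mul_le_mul_of_nonneg_left (by linarith) hC₁.le
      have e7 : C₂ * (Real.log A ^ 13 + Real.log T₁) ≤
          C₂ * (A * Real.log T₀ ^ 4 / T₀ + Real.log A ^ 13 + Real.log T₁) :=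
        mul_le_mul_of_nonneg_left (by linarith) hC₂.le
      have e8 : 0 ≤ (C₃ + 3 * R / Real.log 2 ^ 4 + 3 * R) *
          (A * Real.log T₀ ^ 4 / T₀ + Real.log A ^ 13 + Real.log T₁) := by
        positivity
      have e9 : (C₁ + C₂ + C₃ + 3 * R / Real.log 2 ^ 4 + 3 * R) *
          (A * Real.log T₀ ^ 4 / T₀ + Real.log A ^ 13 + Real.log T₁) =
          C₁ * (A * Real.log T₀ ^ 4 / T₀ + Real.log A ^ 13 + Real.log T₁) +
          C₂ * (A * Real.log T₀ ^ 4 / T₀ + Real.log A ^ 13 + Real.log T₁) +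
          (C₃ + 3 * R / Real.log 2 ^ 4 + 3 * R) *
          (A * Real.log T₀ ^ 4 / T₀ + Real.log A ^ 13 + Real.log T₁) := by ring
      rw [e9]
      linarith
    · intro hA16
      have e1 := h3 c h.bound A T₀ T₁ hSR₃ hT hA16
      have e2 : N ≤ (((sqA A).filter fun a => ∃ T : ℕ, T₀ ≤ T ∧ T ≤ T₁ ∧
          ε / 2 * T < |SF c T a|).card : ℝ) := by
        rw [hN]
        have : ((sqA A).filter fun a => ∃ T : ℕ, T₀ ≤ T ∧ T ≤ T₁ ∧ ε < |DD t a T|) ⊆
            ((sqA A).filter fun a => ∃ T : ℕ, T₀ ≤ T ∧ T ≤ T₁ ∧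
              ε / 2 * T < |SF c T a|) := by
          intro a ha
          obtain ⟨ha1, T, f1, f2, f3⟩ := Finset.mem_filter.1 ha
          rw [Finset.mem_filter]
          have f4 : A ≤ T ^ 2 := by
            calc A ≤ A ^ 16 := Nat.le_self_pow (by norm_num) A
              _ ≤ T₀ := hA16
              _ ≤ T := f1
              _ ≤ T ^ 2 := Nat.le_self_pow (by norm_num) T
          exact ⟨ha1, T, f1, f2, hS t c M h A T (hSR.trans f1) f4 a ha1 f3⟩
        exact_mod_cast Finset.card_le_card this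
      rw [hlog]
      have e3 : 0 ≤ 1 + (Real.log T₁ - Real.log T₀) := by linarith
      refine (e2.trans e1).trans (mul_le_mul_of_nonneg_right ?_ e3)
      have : 0 ≤ 3 * R / Real.log 2 ^ 4 := by positivity
      linarith

end Pool.Agent.Helper29.UT
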