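import Pool.Agent.Helper29.UT.Often
import Pool.Agent.Helper29.UT.Weighted
import Pool.Agent.Helper29.QT.Geo

/-!
# The counting theorem for quadratic twists of surfaces
-/

set_option autoImplicit false

namespace Pool.Agent.Helper29.UT

open Finset MvPolynomial Filter Topology Pool.Agent.Helper29.QT

variable {R : Type} [CommRing R] {d n c : ℕ}

/-- The normalised term of `W`. -/
noncomputable def bn (h : Fin c → MvPolynomial (Fin n) R) (p : ℕ) : ℝ :=
  ∑ᶠ φ : R →+* ZMod p, (points φ h - (p : ℝ) ^ 2 - 1) / p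

open Classical in
/-- The terms of the difference of the averages. -/
noncomputable def tg (h : Fin c → MvPolynomial (Fin n) R) (f : MvPolynomial (Fin n) R)
    (p : ℕ) (a : ℤ) : ℝ :=
  (if (p : ℤ) ∣ 2 * a then 0 else
    ∑ᶠ φ : R →+* ZMod p, (coverPoints φ h f a - (p : ℝ) ^ 2 - 1) / p) - bn h p

lemma tg_eq_dvd (h : Fin c → MvPolynomial (Fin n) R) (f : MvPolynomial (Fin n) R)
    {p : ℕ} {a : ℤ} (ha : (p : ℤ) ∣ 2 * a) : tg h f p a = -bn h p := by
  unfold tg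
  rw [if_pos ha, zero_sub]

lemma tg_eq (b : Module.Basis (Fin d) ℤ R) (h : Fin c → MvPolynomial (Fin n) R)
    (f : MvPolynomial (Fin n) R) {p : ℕ} (hp : p.Prime) {a : ℤ} (ha : ¬ (p : ℤ) ∣ 2 * a) :
    tg h f p a = ch a p * cc h f p := by
  have hpp : Fact p.Prime := ⟨hp⟩
  have hfin : Finite (R →+* ZMod p) := Pool.Agent.Helper29.LN.hom_finite b
  have hft := Fintype.ofFinite (R →+* ZMod p)
  have hne : p ≠ 2 := by
    rintro rfl
    exact ha (Dvd.intro a rfl)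
  have ha' : ((a : ℤ) : ZMod p) ≠ 0 := by
    intro h5
    rw [ZMod.intCast_zmod_eq_zero_iff_dvd] at h5
    exact ha (Dvd.dvd.mul_left h5 2)
  unfold tg cc bn
  rw [if_neg ha, finsum_eq_sum_of_fintype, finsum_eq_sum_of_fintype, finsum_eq_sum_of_fintype,
    Finset.mul_sum, ← Finset.sum_sub_distrib]
  refine Finset.sum_congr rfl fun φ _ => ?_
  have h5 := cover_sub φ h f hne ha'
  have h6 : coverPoints φ h f a = points φ h +
      ch a p * (coverPoints φ h f 1 - points φ h) := by rw [← h5]; ring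
  rw [h6]
  ring

lemma abs_bn_le (b : Module.Basis (Fin d) ℤ R) {h : Fin c → MvPolynomial (Fin n) R}
    {M : ℝ} (hM0 : 0 ≤ M) {p : ℕ} (hp : p.Prime)
    (hM : ∀ φ : R →+* ZMod p, |points φ h - (p : ℝ) ^ 2 - 1| ≤ M * p) :
    |bn h p| ≤ d * M := by
  have hF : Fact p.Prime := ⟨hp⟩
  have hfin : Finite (R →+* ZMod p) := Pool.Agent.Helper29.LN.hom_finite b
  have hft := Fintype.ofFinite (R →+* ZMod p)
  have hp0 : (0 : ℝ) < p := by exact_mod_cast hp.pos
  unfold bn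
  rw [finsum_eq_sum_of_fintype]
  calc _ ≤ ∑ φ : R →+* ZMod p, |(points φ h - (p : ℝ) ^ 2 - 1) / p| :=
        Finset.abs_sum_le_sum_abs _ _
    _ ≤ ∑ φ : R →+* ZMod p, M := by
        refine Finset.sum_le_sum fun φ _ => ?_
        rw [abs_div, abs_of_pos hp0, div_le_iff₀ hp0]
        exact hM φ
    _ = Fintype.card (R →+* ZMod p) * M := by
        rw [Finset.sum_const, Finset.card_univ, nsmul_eq_mul]
    _ ≤ d * M := mul_le_mul_of_nonneg_right
        (by exact_mod_cast Pool.Agent.Helper29.LN.card_hom_le b) hM0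

lemma DD_tg (b : Module.Basis (Fin d) ℤ R) (h : Fin c → MvPolynomial (Fin n) R)
    (f : MvPolynomial (Fin n) R) (a : ℤ) (T : ℕ) :
    twistAverage T h f a - average T h = DD (tg h f) a T := by
  classical
  unfold twistAverage average DD
  rw [← sub_div]
  congr 1
  have h1 : (Icc 1 T).filter (fun p : ℕ => p.Prime ∧ ¬ (p : ℤ) ∣ 2 * a) =
      (PR T).filter (fun p : ℕ => ¬ (p : ℤ) ∣ 2 * a) := by
    unfold PR
    rw [Finset.filter_filter]
  rw [h1, Finset.sum_filter]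
  have h2 : (Icc 1 T).filter Nat.Prime = PR T := rfl
  rw [h2, ← Finset.sum_sub_distrib]
  refine Finset.sum_congr rfl fun p hp => ?_
  have hpp : Fact p.Prime := ⟨(Finset.mem_filter.1 hp).2⟩
  have hfin : Finite (R →+* ZMod p) := Pool.Agent.Helper29.LN.hom_finite b
  have hft := Fintype.ofFinite (R →+* ZMod p)
  unfold tg bn
  rw [finsum_eq_sum_of_fintype, finsum_eq_sum_of_fintype, finsum_eq_sum_of_fintype,
    finsum_eq_sum_of_fintype]
  have e1 : ∑ φ : R →+* ZMod p, (points φ h - (p : ℝ) ^ 2 - 1) * Real.log p / p =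
      Real.log p * ∑ φ : R →+* ZMod p, (points φ h - (p : ℝ) ^ 2 - 1) / p := by
    rw [Finset.mul_sum]
    exact Finset.sum_congr rfl fun φ _ => by ring
  have e2 : ∑ φ : R →+* ZMod p, (coverPoints φ h f a - (p : ℝ) ^ 2 - 1) * Real.log p / p =
      Real.log p * ∑ φ : R →+* ZMod p, (coverPoints φ h f a - (p : ℝ) ^ 2 - 1) / p := by
    rw [Finset.mul_sum]
    exact Finset.sum_congr rfl fun φ _ => by ring
  rw [e1, e2]
  by_cases ha : (p : ℤ) ∣ 2 * a
  · rw [if_neg (not_not.2 ha), if_pos ha]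
    ring
  · rw [if_pos ha, if_neg ha]
    ring

lemma exists_Tw (b : Module.Basis (Fin d) ℤ R) (h : Fin c → MvPolynomial (Fin n) R)
    (f : MvPolynomial (Fin n) R) {M M₁ : ℝ}
    (hM : ∀ᶠ p : ℕ in atTop, p.Prime → ∀ φ : R →+* ZMod p,
      |coverPoints φ h f 1 - points φ h| ≤ M * p)
    (hM₁ : ∀ᶠ p : ℕ in atTop, p.Prime → ∀ φ : R →+* ZMod p,
      |points φ h - (p : ℝ) ^ 2 - 1| ≤ M₁ * p) :
    ∃ M' W : ℝ, Tw (tg h f) (cc h f) M' W := by
  classical
  obtain ⟨P₀, hP₀⟩ := Filter.eventually_atTop.1 (hM.and hM₁)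
  have hdM : 0 ≤ (d : ℝ) * |M| := by positivity
  have hdM₁ : 0 ≤ (d : ℝ) * |M₁| := by positivity
  refine ⟨d * |M| + ∑ p ∈ range P₀, |cc h f p|, d * |M₁| + ∑ p ∈ range P₀, |bn h p|,
    ?_, ?_, ?_, ?_, ?_⟩
  · have : 0 ≤ ∑ p ∈ range P₀, |bn h p| := Finset.sum_nonneg fun _ _ => abs_nonneg _
    linarith
  · intro p hp
    rcases Nat.lt_or_ge p P₀ with hlt | hge
    · have : |cc h f p| ≤ ∑ p ∈ range P₀, |cc h f p| :=
        Finset.single_le_sum (f := fun p => |cc h f p|) (fun _ _ => abs_nonneg _)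
          (Finset.mem_range.2 hlt)
      linarith
    · have h1 := abs_cc_le b (abs_nonneg M) hp fun φ => ((hP₀ p hge).1 hp φ).trans
        (mul_le_mul_of_nonneg_right (le_abs_self M) (Nat.cast_nonneg p))
      have : 0 ≤ ∑ p ∈ range P₀, |cc h f p| := Finset.sum_nonneg fun _ _ => abs_nonneg _
      linarith
  · intro p hp a a' haa
    have h1 : (p : ℤ) ∣ 2 * a ↔ (p : ℤ) ∣ 2 * a' := by
      rw [← ZMod.intCast_zmod_eq_zero_iff_dvd, ← ZMod.intCast_zmod_eq_zero_iff_dvd]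
      push_cast
      rw [haa]
    unfold tg
    have h2 : ∀ φ : R →+* ZMod p, coverPoints φ h f a = coverPoints φ h f a' := by
      intro φ
      unfold coverPoints
      rw [haa]
    simp_rw [h1, h2]
  · intro p hp a ha
    exact tg_eq b h f hp ha
  · intro p hp a ha
    rw [tg_eq_dvd h f ha, abs_neg]
    rcases Nat.lt_or_ge p P₀ with hlt | hge
    · have : |bn h p| ≤ ∑ p ∈ range P₀, |bn h p| :=
        Finset.single_le_sum (f := fun p => |bn h p|) (fun _ _ => abs_nonneg _)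
          (Finset.mem_range.2 hlt)
      linarith
    · have h1 := abs_bn_le b (abs_nonneg M₁) hp fun φ => ((hP₀ p hge).2 hp φ).trans
        (mul_le_mul_of_nonneg_right (le_abs_self M₁) (Nat.cast_nonneg p))
      have : 0 ≤ ∑ p ∈ range P₀, |bn h p| := Finset.sum_nonneg fun _ _ => abs_nonneg _
      linarith

/-- The theorem on quadratic twists. -/
theorem twists (b : Module.Basis (Fin d) ℤ R) (h : Fin c → MvPolynomial (Fin n) R)
    (f : MvPolynomial (Fin n) R) {M M₁ : ℝ}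
    (hM : ∀ᶠ p : ℕ in atTop, p.Prime → ∀ φ : R →+* ZMod p,
      |coverPoints φ h f 1 - points φ h| ≤ M * p)
    (hM₁ : ∀ᶠ p : ℕ in atTop, p.Prime → ∀ φ : R →+* ZMod p,
      |points φ h - (p : ℝ) ^ 2 - 1| ≤ M₁ * p) {ε : ℝ} (hε : 0 < ε) :
    ∃ C : ℝ, 0 < C ∧
    (∀ A T₀ T₁ : ℕ, 1 ≤ A → 2 ≤ T₀ → T₀ ≤ T₁ →
      (Nat.card {a : ℤ // Squarefree a ∧ |a| ≤ A ∧ ∃ T : ℕ, T₀ ≤ T ∧ T ≤ T₁ ∧
        ε < |twistAverage T h f a - average T h|} : ℝ) ≤ C *
        (A * Real.log T₀ ^ 4 / T₀ + Real.log A ^ 13 + Real.log T₁)) ∧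
    (∀ A T₀ T₁ : ℕ, 1 ≤ A → 2 ≤ T₀ → T₀ ≤ T₁ → A ^ 16 ≤ T₀ →
      (Nat.card {a : ℤ // Squarefree a ∧ |a| ≤ A ∧ ∃ T : ℕ, T₀ ≤ T ∧ T ≤ T₁ ∧
        ε < |twistAverage T h f a - average T h|} : ℝ) ≤ C * (1 + Real.log (T₁ / T₀))) ∧
    (∀ K : ℕ, 1 ≤ K → ∃ E : Finset ℤ, (E.card : ℝ) ≤ C * (1 + Real.log K) ∧
      ∀ a : ℤ, Squarefree a → a ∉ E → ∃ᶠ X : ℕ in atTop,
        ∀ T : ℕ, X ≤ K * T → T ≤ X → |twistAverage T h f a - average T h| ≤ ε) := by
  obtain ⟨M', W, hTw⟩ := exists_Tw b h f hM hM₁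
  obtain ⟨C, hC, hmain⟩ := Tw.main hTw.M_nonneg hTw.W_nonneg hε
  exact ⟨C, hC, hmain _ _ hTw (fun a T => twistAverage T h f a - average T h)
    (fun a T => DD_tg b h f a T)⟩

/-- The theorem on products of quadratic twists. -/
theorem twists_weighted (b : Module.Basis (Fin d) ℤ R) (h : Fin c → MvPolynomial (Fin n) R)
    (f : MvPolynomial (Fin n) R) {M : ℝ} (hM0 : 0 ≤ M)
    (hM : ∀ᶠ p : ℕ in atTop, p.Prime → ∀ φ : R →+* ZMod p,
      |coverPoints φ h f 1 - points φ h| ≤ M * p)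
    (S : Finset ℤ) (hS : ∀ a ∈ S, Squarefree a) (m : ℤ → ℝ) {δ : ℝ} (hδ : 0 < δ) :
    ∀ᶠ T : ℕ in atTop, |∑ a ∈ S, m a * (twistAverage T h f a - average T h)| ≤
      d * M * Real.sqrt (7 * ∑ a ∈ S, m a ^ 2) + δ := by
  classical
  obtain ⟨P₀, hP₀⟩ := Filter.eventually_atTop.1 hM
  obtain ⟨c₁, hc₁⟩ : ∃ c₁ : ℕ → ℝ, c₁ = fun p => if P₀ ≤ p then cc h f p else 0 := ⟨_, rfl⟩
  have hc : ∀ p : ℕ, p.Prime → |c₁ p| ≤ d * M := by
    intro p hp
    rw [hc₁]
    dsimp only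
    split_ifs with h1
    · exact abs_cc_le b hM0 hp fun φ => hP₀ p h1 hp φ
    · rw [abs_zero]; positivity
  have htend : ∀ a : ℤ, Squarefree a → Tendsto (fun T : ℕ =>
      (twistAverage T h f a - average T h) - SF c₁ T a / T) atTop (𝓝 0) := by
    intro a ha
    have h1 := (tendsto_delta b h f ha.ne_zero).add (tendsto_cut (cc h f) P₀ a)
    rw [add_zero] at h1
    rw [hc₁]
    refine h1.congr fun T => ?_
    ring
  exact weighted hc htend S hS m hδ

end Pool.Agent.Helper29.UT
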