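import Pool.Agent.Helper29.QT.GeoDefs

set_option autoImplicit false

namespace Pool.Agent.Helper29.UT

open MvPolynomial Pool.Agent.Helper29.QT

variable {R : Type} [CommRing R] {n c : ℕ}

/-- The average of the Tauberian Tate conjecture for the surface `W`, over the primes up to `T` of
a set `P` of primes of degree one, for example the primes of good reduction. The primes of degree
one over `p` are the kernels of the homomorphisms `φ` to the field with `p` elements; the trace of
Frobenius on the second cohomology group is the number of points minus `p ^ 2 + 1`. -/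
noncomputable def averageOn (P : ∀ p : ℕ, Set (R →+* ZMod p)) (T : ℕ)
    (h : Fin c → MvPolynomial (Fin n) R) : ℝ :=
  (∑ p ∈ (Finset.Icc 1 T).filter Nat.Prime, ∑ᶠ φ ∈ P p,
    (points φ h - (p : ℝ) ^ 2 - 1) * Real.log p / p) / T

/-- The average for the double cover `a y ^ 2 = f (x)`, over the primes up to `T` of the set `P`
which do not divide `2 a`. -/
noncomputable def twistAverageOn (P : ∀ p : ℕ, Set (R →+* ZMod p)) (T : ℕ)
    (h : Fin c → MvPolynomial (Fin n) R) (f : MvPolynomial (Fin n) R) (a : ℤ) : ℝ :=
  (∑ p ∈ (Finset.Icc 1 T).filter (fun p : ℕ => p.Prime ∧ ¬ (p : ℤ) ∣ 2 * a), ∑ᶠ φ ∈ P p,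
    (coverPoints φ h f a - (p : ℝ) ^ 2 - 1) * Real.log p / p) / T

end Pool.Agent.Helper29.UT
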