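import Pool.Agent.Helper29.UT.Often
import Pool.Agent.Helper29.UT.Weighted
import Pool.Agent.Helper29.UT.GeoPDefs
import Pool.Agent.Helper29.QT.Geo

/-!
# The counting theorem for quadratic twists of surfaces, uniform in the surface
-/

set_option autoImplicit false

namespace Pool.Agent.Helper29.UT

open Finset MvPolynomial Filter Topology Pool.Agent.Helper29.QT

variable {R : Type} [CommRing R] {d n c : ℕ}

lemma finsum_mem_eq' {p : ℕ} [Fintype (R →+* ZMod p)] (s : Set (R →+* ZMod p))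
    (g : (R →+* ZMod p) → ℝ) : ∑ᶠ φ ∈ s, g φ = ∑ φ, s.indicator g φ := by
  rw [finsum_mem_def, finsum_eq_sum_of_fintype]

/-- The normalised term of `W`. -/
noncomputable def bnP (P : ∀ p : ℕ, Set (R →+* ZMod p)) (h : Fin c → MvPolynomial (Fin n) R)
    (p : ℕ) : ℝ :=
  ∑ᶠ φ ∈ P p, (points φ h - (p : ℝ) ^ 2 - 1) / p

/-- The coefficients of the minus part. -/
noncomputable def ccP (P : ∀ p : ℕ, Set (R →+* ZMod p)) (h : Fin c → MvPolynomial (Fin n) R)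
    (f : MvPolynomial (Fin n) R) (p : ℕ) : ℝ :=
  ∑ᶠ φ ∈ P p, (coverPoints φ h f 1 - points φ h) / p

open Classical in
/-- The terms of the difference of the averages. -/
noncomputable def tgP (P : ∀ p : ℕ, Set (R →+* ZMod p)) (h : Fin c → MvPolynomial (Fin n) R)
    (f : MvPolynomial (Fin n) R) (p : ℕ) (a : ℤ) : ℝ :=
  (if (p : ℤ) ∣ 2 * a then 0 else
    ∑ᶠ φ ∈ P p, (coverPoints φ h f a - (p : ℝ) ^ 2 - 1) / p) - bnP P h p

lemma abs_sum_ind_le (b : Module.Basis (Fin d) ℤ R) {p : ℕ} (hp : p.Prime)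
    (s : Set (R →+* ZMod p)) (g : (R →+* ZMod p) → ℝ) {M : ℝ} (hM0 : 0 ≤ M)
    (hM : ∀ φ ∈ s, |g φ| ≤ M * p) : |∑ᶠ φ ∈ s, g φ / p| ≤ d * M := by
  have hF : Fact p.Prime := ⟨hp⟩
  have hfin : Finite (R →+* ZMod p) := Pool.Agent.Helper29.LN.hom_finite b
  have hft := Fintype.ofFinite (R →+* ZMod p)
  have hp0 : (0 : ℝ) < p := by exact_mod_cast hp.pos
  rw [finsum_mem_eq']
  calc _ ≤ ∑ φ : R →+* ZMod p, |s.indicator (fun φ => g φ / p) φ| :=
        Finset.abs_sum_le_sum_abs _ _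
    _ ≤ ∑ φ : R →+* ZMod p, M := by
        refine Finset.sum_le_sum fun φ _ => ?_
        by_cases hφ : φ ∈ s
        · rw [Set.indicator_of_mem hφ, abs_div, abs_of_pos hp0, div_le_iff₀ hp0]
          exact hM φ hφ
        · rw [Set.indicator_of_notMem hφ, abs_zero]
          exact hM0
    _ = Fintype.card (R →+* ZMod p) * M := by
        rw [Finset.sum_const, Finset.card_univ, nsmul_eq_mul]
    _ ≤ d * M := mul_le_mul_of_nonneg_right
        (by exact_mod_cast Pool.Agent.Helper29.LN.card_hom_le b) hM0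

lemma tgP_eq (b : Module.Basis (Fin d) ℤ R) (P : ∀ p : ℕ, Set (R →+* ZMod p))
    (h : Fin c → MvPolynomial (Fin n) R) (f : MvPolynomial (Fin n) R) {p : ℕ} (hp : p.Prime)
    {a : ℤ} (ha : ¬ (p : ℤ) ∣ 2 * a) : tgP P h f p a = ch a p * ccP P h f p := by
  have hpp : Fact p.Prime := ⟨hp⟩
  have hfin : Finite (R →+* ZMod p) := Pool.Agent.Helper29.LN.hom_finite b
  have hft := Fintype.ofFinite (R →+* ZMod p)
  have hne : p ≠ 2 := by
    rintro rfl
    exact ha (Dvd.intro a rfl)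
  have ha' : ((a : ℤ) : ZMod p) ≠ 0 := by
    intro h5
    rw [ZMod.intCast_zmod_eq_zero_iff_dvd] at h5
    exact ha (Dvd.dvd.mul_left h5 2)
  unfold tgP ccP bnP
  rw [if_neg ha, finsum_mem_eq', finsum_mem_eq', finsum_mem_eq',
    Finset.mul_sum, ← Finset.sum_sub_distrib]
  refine Finset.sum_congr rfl fun φ _ => ?_
  by_cases hφ : φ ∈ P p
  · rw [Set.indicator_of_mem hφ, Set.indicator_of_mem hφ, Set.indicator_of_mem hφ]
    have h5 := cover_sub φ h f hne ha'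
    have h6 : coverPoints φ h f a = points φ h +
        ch a p * (coverPoints φ h f 1 - points φ h) := by rw [← h5]; ring
    rw [h6]
    ring
  · rw [Set.indicator_of_notMem hφ, Set.indicator_of_notMem hφ, Set.indicator_of_notMem hφ]
    ring

lemma DD_tgP (b : Module.Basis (Fin d) ℤ R) (P : ∀ p : ℕ, Set (R →+* ZMod p))
    (h : Fin c → MvPolynomial (Fin n) R) (f : MvPolynomial (Fin n) R) (a : ℤ) (T : ℕ) :
    twistAverageOn P T h f a - averageOn P T h = DD (tgP P h f) a T := by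
  classical
  unfold twistAverageOn averageOn DD
  rw [← sub_div]
  congr 1
  have h1 : (Icc 1 T).filter (fun p : ℕ => p.Prime ∧ ¬ (p : ℤ) ∣ 2 * a) =
      (PR T).filter (fun p : ℕ => ¬ (p : ℤ) ∣ 2 * a) := by
    unfold PR
    rw [Finset.filter_filter]
  rw [h1, Finset.sum_filter]
  have h2 : (Icc 1 T).filter Nat.Prime = PR T := rfl
  rw [h2, ← Finset.sum_sub_distrib]
  refine Finset.sum_congr rfl fun p hp => ?_
  have hpp : Fact p.Prime := ⟨(Finset.mem_filter.1 hp).2⟩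
  have hfin : Finite (R →+* ZMod p) := Pool.Agent.Helper29.LN.hom_finite b
  have hft := Fintype.ofFinite (R →+* ZMod p)
  unfold tgP bnP
  have key : ∀ g : (R →+* ZMod p) → ℝ, ∑ᶠ φ ∈ P p, g φ * Real.log p / p =
      Real.log p * ∑ᶠ φ ∈ P p, g φ / p := by
    intro g
    rw [finsum_mem_eq', finsum_mem_eq', Finset.mul_sum]
    refine Finset.sum_congr rfl fun φ _ => ?_
    by_cases hφ : φ ∈ P p
    · rw [Set.indicator_of_mem hφ, Set.indicator_of_mem hφ]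
      ring
    · rw [Set.indicator_of_notMem hφ, Set.indicator_of_notMem hφ]
      ring
  rw [key, key]
  by_cases ha : (p : ℤ) ∣ 2 * a
  · rw [if_neg (not_not.2 ha), if_pos ha]
    ring
  · rw [if_pos ha, if_neg ha]
    ring

lemma TwP (b : Module.Basis (Fin d) ℤ R) (P : ∀ p : ℕ, Set (R →+* ZMod p))
    (h : Fin c → MvPolynomial (Fin n) R) (f : MvPolynomial (Fin n) R) {M M₁ : ℝ}
    (hM0 : 0 ≤ M) (hM₁0 : 0 ≤ M₁)
    (hM : ∀ p : ℕ, p.Prime → ∀ φ ∈ P p, |coverPoints φ h f 1 - points φ h| ≤ M * p ∧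
      |points φ h - (p : ℝ) ^ 2 - 1| ≤ M₁ * p) :
    Tw (tgP P h f) (ccP P h f) (d * M) (d * M₁) := by
  classical
  refine ⟨by positivity, ?_, ?_, ?_, ?_⟩
  · intro p hp
    exact abs_sum_ind_le b hp _ _ hM0 fun φ hφ => (hM p hp φ hφ).1
  · intro p hp a a' haa
    have h1 : (p : ℤ) ∣ 2 * a ↔ (p : ℤ) ∣ 2 * a' := by
      rw [← ZMod.intCast_zmod_eq_zero_iff_dvd, ← ZMod.intCast_zmod_eq_zero_iff_dvd]
      push_cast
      rw [haa]
    unfold tgP
    have h2 : ∀ φ : R →+* ZMod p, coverPoints φ h f a = coverPoints φ h f a' := by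
      intro φ
      unfold coverPoints
      rw [haa]
    simp_rw [h1, h2]
  · intro p hp a ha
    exact tgP_eq b P h f hp ha
  · intro p hp a ha
    have e : tgP P h f p a = -bnP P h p := by
      unfold tgP
      rw [if_pos ha, zero_sub]
    rw [e, abs_neg]
    exact abs_sum_ind_le b hp _ _ hM₁0 fun φ hφ => (hM p hp φ hφ).2

/-- The theorem on quadratic twists, uniform in the surface. -/
theorem twistsP (d : ℕ) {M M₁ : ℝ} (hM0 : 0 ≤ M) (hM₁0 : 0 ≤ M₁) {ε : ℝ} (hε : 0 < ε) :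
    ∃ C : ℝ, 0 < C ∧ ∀ (R : Type) [CommRing R] (_b : Module.Basis (Fin d) ℤ R)
      (P : ∀ p : ℕ, Set (R →+* ZMod p)) (n c : ℕ) (h : Fin c → MvPolynomial (Fin n) R)
      (f : MvPolynomial (Fin n) R),
    (∀ p : ℕ, p.Prime → ∀ φ ∈ P p, |coverPoints φ h f 1 - points φ h| ≤ M * p ∧
      |points φ h - (p : ℝ) ^ 2 - 1| ≤ M₁ * p) →
    (∀ A T₀ T₁ : ℕ, 1 ≤ A → 2 ≤ T₀ → T₀ ≤ T₁ →
      (Nat.card {a : ℤ // Squarefree a ∧ |a| ≤ A ∧ ∃ T : ℕ, T₀ ≤ T ∧ T ≤ T₁ ∧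
        ε < |twistAverageOn P T h f a - averageOn P T h|} : ℝ) ≤ C *
        (A * Real.log T₀ ^ 4 / T₀ + Real.log A ^ 13 + Real.log T₁)) ∧
    (∀ A T₀ T₁ : ℕ, 1 ≤ A → 2 ≤ T₀ → T₀ ≤ T₁ → A ^ 16 ≤ T₀ →
      (Nat.card {a : ℤ // Squarefree a ∧ |a| ≤ A ∧ ∃ T : ℕ, T₀ ≤ T ∧ T ≤ T₁ ∧
        ε < |twistAverageOn P T h f a - averageOn P T h|} : ℝ) ≤
        C * (1 + Real.log (T₁ / T₀))) ∧
    (∀ K : ℕ, 1 ≤ K → ∃ E : Finset ℤ, (E.card : ℝ) ≤ C * (1 + Real.log K) ∧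
      ∀ a : ℤ, Squarefree a → a ∉ E → ∃ᶠ X : ℕ in atTop,
        ∀ T : ℕ, X ≤ K * T → T ≤ X → |twistAverageOn P T h f a - averageOn P T h| ≤ ε) := by
  obtain ⟨C, hC, hmain⟩ := Tw.main (M := d * M) (W := d * M₁) (by positivity) (by positivity) hε
  refine ⟨C, hC, ?_⟩
  intro R _ b P n c h f hM
  exact hmain _ _ (TwP b P h f hM0 hM₁0 hM)
    (fun a T => twistAverageOn P T h f a - averageOn P T h) (fun a T => DD_tgP b P h f a T)

lemma Tw.tendsto {t : ℕ → ℤ → ℝ} {c : ℕ → ℝ} {M W : ℝ} (h : Tw t c M W) {a : ℤ} (ha : a ≠ 0) :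
    Tendsto (fun T : ℕ => DD t a T - SF c T a / T) atTop (𝓝 0) := by
  have h1 : Tendsto (fun T : ℕ => (W * Real.log (2 * (a.natAbs : ℝ))) / T) atTop (𝓝 0) :=
    tendsto_const_div_atTop_nhds_zero_nat _
  refine squeeze_zero_norm' ?_ h1
  filter_upwards [eventually_ge_atTop 1] with T hT
  have hT0 : (0 : ℝ) < T := by exact_mod_cast hT
  have h2 := h.DD_sub ha (A := a.natAbs) (T := T) (by rw [Int.natCast_natAbs]) hT
  have h3 : DD t a T - SF c T a / T = (DD t a T * T - SF c T a) / T := by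
    field_simp
  rw [h3, Real.norm_eq_abs, abs_div, abs_of_pos hT0]
  exact div_le_div_of_nonneg_right h2 hT0.le

/-- The theorem on products of quadratic twists. -/
theorem twistsP_weighted (b : Module.Basis (Fin d) ℤ R) (P : ∀ p : ℕ, Set (R →+* ZMod p))
    (h : Fin c → MvPolynomial (Fin n) R) (f : MvPolynomial (Fin n) R) {M M₁ : ℝ}
    (hM0 : 0 ≤ M) (hM₁0 : 0 ≤ M₁)
    (hM : ∀ p : ℕ, p.Prime → ∀ φ ∈ P p, |coverPoints φ h f 1 - points φ h| ≤ M * p ∧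
      |points φ h - (p : ℝ) ^ 2 - 1| ≤ M₁ * p)
    (S : Finset ℤ) (hS : ∀ a ∈ S, Squarefree a) (m : ℤ → ℝ) {δ : ℝ} (hδ : 0 < δ) :
    ∀ᶠ T : ℕ in atTop, |∑ a ∈ S, m a * (twistAverageOn P T h f a - averageOn P T h)| ≤
      d * M * Real.sqrt (7 * ∑ a ∈ S, m a ^ 2) + δ := by
  have hTw := TwP b P h f hM0 hM₁0 hM
  refine weighted hTw.bound (Δ := fun a T => twistAverageOn P T h f a - averageOn P T h)
    (fun a ha => ?_) S hS m hδ
  have h1 := hTw.tendsto ha.ne_zero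
  refine h1.congr fun T => ?_
  rw [DD_tgP b P h f a T]

end Pool.Agent.Helper29.UT
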