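import Pool.Agent.Helper29.UT.Own
import Pool.Agent.Helper29.UT.OwnDefs
import Pool.Agent.Helper29.UT.GeoP

/-!
# The theorems on quadratic twists of surfaces in the final form
-/

set_option autoImplicit false

namespace Pool.Agent.Helper29.UT

open Finset MvPolynomial Filter Topology Pool.Agent.Helper29.QT

/-- The window theorem for quadratic twists of surfaces. -/
theorem own (d : ℕ) {M M₁ : ℝ} (hM0 : 0 ≤ M) (hM₁0 : 0 ≤ M₁) (u v α γ : ℝ) : ∃ C c' : ℝ,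
    0 ≤ u → u < 1 / 2 → 1 / (1 - 2 * u) < α → 0 ≤ v → v ≤ 1 / 14 → 0 ≤ γ → γ + 3 * v < 1 →
    0 < c' ∧ ∀ (R : Type) [CommRing R] (_b : Module.Basis (Fin d) ℤ R)
      (P : ∀ p : ℕ, Set (R →+* ZMod p)) (n c : ℕ) (h : Fin c → MvPolynomial (Fin n) R)
      (f : MvPolynomial (Fin n) R), Bounds P h f M M₁ → ∀ A : ℕ, 1 ≤ A →
      (number A (fun a => ∃ T : ℕ,
        (Real.log |(a : ℝ)| ^ α ≤ T ∧ (T : ℝ) ^ 2 ≤ |(a : ℝ)| ∧ (T : ℝ) ^ (-u) < |dev P h f a T|) ∨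
        (|(a : ℝ)| ≤ (T : ℝ) ^ 2 ∧ (T : ℝ) ≤ Real.exp (|(a : ℝ)| ^ γ) ∧
          |(a : ℝ)| ^ (-v) < |dev P h f a T|)) : ℝ) ≤ C * (A : ℝ) ^ (1 - c') := by
  classical
  by_cases hh : 0 ≤ u ∧ u < 1 / 2 ∧ 1 / (1 - 2 * u) < α ∧ 0 ≤ v ∧ v ≤ 1 / 14 ∧ 0 ≤ γ ∧
      γ + 3 * v < 1
  · obtain ⟨h1, h2, h3, h4, h5, h6, h7⟩ := hh
    obtain ⟨C, c', hc', hown⟩ := Tw.own (M := d * M) (W := d * M₁) (by positivity)
      (by positivity) h1 h2 h3 h4 h5 h6 h7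
    refine ⟨C, c', fun _ _ _ _ _ _ _ => ⟨hc', ?_⟩⟩
    intro R _ b P n c h f hM A hA
    have h8 := hown _ _ (TwP b P h f hM0 hM₁0 hM) A hA
    unfold number
    rw [card_bad']
    have e : (fun a : ℤ => ∃ T : ℕ,
        (Real.log |(a : ℝ)| ^ α ≤ T ∧ (T : ℝ) ^ 2 ≤ |(a : ℝ)| ∧ (T : ℝ) ^ (-u) < |dev P h f a T|) ∨
        (|(a : ℝ)| ≤ (T : ℝ) ^ 2 ∧ (T : ℝ) ≤ Real.exp (|(a : ℝ)| ^ γ) ∧
          |(a : ℝ)| ^ (-v) < |dev P h f a T|)) =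
        fun a : ℤ => BadT u v α γ (fun T => DD (tgP P h f) a T) a := by
      funext a
      unfold BadT dev
      simp_rw [DD_tgP b P h f a]
    simp_rw [e]
    exact h8
  · exact ⟨0, 0, fun h1 h2 h3 h4 h5 h6 h7 => absurd ⟨h1, h2, h3, h4, h5, h6, h7⟩ hh⟩

/-- The counting theorem for quadratic twists of surfaces. -/
theorem counts (d : ℕ) {M M₁ : ℝ} (hM0 : 0 ≤ M) (hM₁0 : 0 ≤ M₁) (ε : ℝ) : ∃ C : ℝ, 0 < ε →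
    ∀ (R : Type) [CommRing R] (_b : Module.Basis (Fin d) ℤ R)
      (P : ∀ p : ℕ, Set (R →+* ZMod p)) (n c : ℕ) (h : Fin c → MvPolynomial (Fin n) R)
      (f : MvPolynomial (Fin n) R), Bounds P h f M M₁ →
    (∀ A T₀ T₁ : ℕ, 1 ≤ A → 2 ≤ T₀ → T₀ ≤ T₁ →
      (number A (fun a => ∃ T : ℕ, T₀ ≤ T ∧ T ≤ T₁ ∧ ε < |dev P h f a T|) : ℝ) ≤
        C * (A * Real.log T₀ ^ 4 / T₀ + Real.log A ^ 13 + Real.log T₁)) ∧
    (∀ K : ℕ, 1 ≤ K → ∃ E : Finset ℤ, (E.card : ℝ) ≤ C * (1 + Real.log K) ∧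
      ∀ a : ℤ, Squarefree a → a ∉ E → ∃ᶠ X : ℕ in atTop,
        ∀ T : ℕ, X ≤ K * T → T ≤ X → |dev P h f a T| ≤ ε) := by
  by_cases hε : 0 < ε
  · obtain ⟨C, _, hC⟩ := twistsP d hM0 hM₁0 hε
    refine ⟨C, fun _ R _ b P n c h f hM => ?_⟩
    obtain ⟨h1, -, h3⟩ := hC R b P n c h f hM
    exact ⟨h1, h3⟩
  · exact ⟨0, fun h => absurd h hε⟩

end Pool.Agent.Helper29.UT
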