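import Pool.Agent.Helper29.UT.Count

/-!
# The number of exceptional twists in a range of scales
-/

set_option autoImplicit false

namespace Pool.Agent.Helper29.UT

open Finset Filter Topology Pool.Agent.Helper29.QT

/-- The grid of scales. -/
noncomputable def gr (δ : ℝ) (j : ℕ) : ℕ := ⌈(1 + δ) ^ j⌉₊

/-- The index of a scale. -/
noncomputable def ix (δ : ℝ) (T : ℕ) : ℕ := ⌊Real.log T / Real.log (1 + δ)⌋₊

lemma gr_mono {δ : ℝ} (hδ : 0 < δ) {i j : ℕ} (h : i ≤ j) : gr δ i ≤ gr δ j := by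
  unfold gr
  apply Nat.ceil_le_ceil
  exact pow_le_pow_right₀ (by linarith) h

lemma le_gr (δ : ℝ) (j : ℕ) : (1 + δ) ^ j ≤ gr δ j := Nat.le_ceil _

lemma one_le_gr {δ : ℝ} (hδ : 0 < δ) (j : ℕ) : 1 ≤ gr δ j := by
  have h1 : (1 : ℝ) ≤ (1 + δ) ^ j := one_le_pow₀ (by linarith)
  have h2 := h1.trans (le_gr δ j)
  exact_mod_cast h2

lemma ix_mono {δ : ℝ} (hδ : 0 < δ) {S T : ℕ} (hS : 1 ≤ S) (h : S ≤ T) : ix δ S ≤ ix δ T := by
  unfold ix
  apply Nat.floor_le_floor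
  have hl : 0 < Real.log (1 + δ) := Real.log_pos (by linarith)
  apply div_le_div_of_nonneg_right _ hl.le
  exact Real.log_le_log (by exact_mod_cast hS) (by exact_mod_cast h)

lemma gr_ix_le {δ : ℝ} (hδ : 0 < δ) {T : ℕ} (hT : 1 ≤ T) : gr δ (ix δ T) ≤ T := by
  unfold gr
  apply Nat.ceil_le.2
  have hT0 : (0 : ℝ) < T := by exact_mod_cast hT
  have hl : 0 < Real.log (1 + δ) := Real.log_pos (by linarith)
  rw [← Real.log_le_log_iff (by positivity) hT0, Real.log_pow, ← le_div_iff₀ hl]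
  exact Nat.floor_le (div_nonneg (log_nonneg' T) hl.le)

lemma le_gr_ix {δ : ℝ} (hδ : 0 < δ) {T : ℕ} (hT : 1 ≤ T) :
    (T : ℝ) ≤ (1 + δ) * gr δ (ix δ T) := by
  have hT0 : (0 : ℝ) < T := by exact_mod_cast hT
  have hl : 0 < Real.log (1 + δ) := Real.log_pos (by linarith)
  have h1 : (T : ℝ) ≤ (1 + δ) ^ (ix δ T + 1) := by
    rw [← Real.log_le_log_iff hT0 (by positivity), Real.log_pow, ← div_le_iff₀ hl]
    push_cast
    exact (Nat.lt_floor_add_one _).le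
  refine h1.trans ?_
  rw [pow_succ, mul_comm]
  exact mul_le_mul_of_nonneg_left (le_gr δ _) (by linarith)

lemma SF_near {c : ℕ → ℝ} {M : ℝ} (hc : ∀ p : ℕ, p.Prime → |c p| ≤ M) {x t : ℕ} (h : x ≤ t)
    (a : ℤ) : |SF c t a - SF c x a| ≤ M * ∑ p ∈ (Ioc x t).filter Nat.Prime, Real.log p := by
  have h1 : SF c t a - SF c x a = ∑ p ∈ (Ioc x t).filter Nat.Prime, ch a p * (c p * Real.log p) := by
    unfold SF PR
    rw [Icc_split h Nat.Prime]
    ring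
  rw [h1]
  refine (Finset.abs_sum_le_sum_abs _ _).trans ?_
  rw [Finset.mul_sum]
  refine Finset.sum_le_sum fun p hp => ?_
  rw [abs_mul, abs_mul, abs_of_nonneg (log_nonneg' p)]
  have h2 := hc p (Finset.mem_filter.1 hp).2
  calc |ch a p| * (|c p| * Real.log p) ≤ 1 * (M * Real.log p) := by
        apply mul_le_mul (abs_ch_le a p) _ (mul_nonneg (abs_nonneg _) (log_nonneg' p)) zero_le_one
        exact mul_le_mul_of_nonneg_right h2 (log_nonneg' p)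
    _ = _ := one_mul _

/-- Reduction to the scales of the grid. -/
lemma to_grid {c : ℕ → ℝ} {M : ℝ} (hc : ∀ p : ℕ, p.Prime → |c p| ≤ M) {ε δ : ℝ}
    (hδ : 0 < δ) (hMδ : 11 * δ * M ≤ ε / 2) {X₀ : ℕ}
    (hX : ∀ x t : ℕ, X₀ ≤ x → x ≤ t → (t : ℝ) ≤ (1 + δ) * x →
      ∑ p ∈ (Ioc x t).filter Nat.Prime, Real.log p ≤ 11 * δ * x)
    {T : ℕ} (hT : 1 ≤ T) (hXT : X₀ ≤ gr δ (ix δ T)) (hε : 0 < ε) {a : ℤ}
    (h : ε * T < |SF c T a|) : ε / 2 * gr δ (ix δ T) < |SF c (gr δ (ix δ T)) a| := by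
  have hM : 0 ≤ M := (abs_nonneg _).trans (hc 2 Nat.prime_two)
  obtain ⟨G, hG⟩ : ∃ G, G = gr δ (ix δ T) := ⟨_, rfl⟩
  rw [← hG] at hXT ⊢
  have hGT : G ≤ T := by rw [hG]; exact gr_ix_le hδ hT
  have hTG : (T : ℝ) ≤ (1 + δ) * G := by rw [hG]; exact le_gr_ix hδ hT
  have h1 := SF_near hc hGT a
  have h2 := mul_le_mul_of_nonneg_left (hX G T hXT hGT hTG) hM
  have h3 : |SF c T a| ≤ |SF c T a - SF c G a| + |SF c G a| := by
    have := abs_add_le (SF c T a - SF c G a) (SF c G a)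
    rw [sub_add_cancel] at this
    exact this
  have h4 : (G : ℝ) ≤ T := by exact_mod_cast hGT
  have hG0 : (0 : ℝ) ≤ G := Nat.cast_nonneg G
  have h5 : M * (11 * δ * G) ≤ ε / 2 * G := by
    have := mul_le_mul_of_nonneg_right hMδ hG0
    linarith
  have h6 : ε * G ≤ ε * T := mul_le_mul_of_nonneg_left h4 hε.le
  linarith

lemma exists_delta {ε M : ℝ} (hε : 0 < ε) (hM : 0 ≤ M) :
    ∃ δ : ℝ, 0 < δ ∧ δ ≤ 1 ∧ 11 * δ * M ≤ ε / 2 := by
  refine ⟨min 1 (ε / (22 * (M + 1))), lt_min one_pos (by positivity), min_le_left _ _, ?_⟩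
  have h1 : min 1 (ε / (22 * (M + 1))) ≤ ε / (22 * (M + 1)) := min_le_right _ _
  calc 11 * min 1 (ε / (22 * (M + 1))) * M ≤ 11 * (ε / (22 * (M + 1))) * M := by
        apply mul_le_mul_of_nonneg_right _ hM
        linarith
    _ = ε / 2 * (M / (M + 1)) := by field_simp; ring
    _ ≤ ε / 2 * 1 := by
        apply mul_le_mul_of_nonneg_left _ (by linarith)
        rw [div_le_one (by linarith)]
        linarith
    _ = _ := mul_one _

open Classical in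
/-- The number of exceptional twists in a range of large scales. -/
theorem count1 {M : ℝ} (hM : 0 ≤ M) {ε : ℝ} (hε : 0 < ε) :
    ∃ (C : ℝ) (S : ℕ), 0 < C ∧ 2 ≤ S ∧ ∀ c : ℕ → ℝ, (∀ p : ℕ, p.Prime → |c p| ≤ M) →
      ∀ A T₀ T₁ : ℕ, S ≤ T₀ → T₀ ≤ T₁ → A ^ 16 ≤ T₀ →
      (((sqA A).filter fun a => ∃ T : ℕ, T₀ ≤ T ∧ T ≤ T₁ ∧ ε * T < |SF c T a|).card : ℝ) ≤
        C * (1 + (Real.log T₁ - Real.log T₀)) := by
  obtain ⟨δ, hδ, hδ1, hMδ⟩ := exists_delta hε hM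
  obtain ⟨X₀, hX2, hX⟩ := sum_log_short hδ hδ1
  obtain ⟨G₂, hG2, hbad⟩ := bad_high M (half_pos hε)
  have hl : 0 < Real.log (1 + δ) := Real.log_pos (by linarith)
  obtain ⟨K, hK⟩ : ∃ K : ℝ, K = 28 * M ^ 2 / ε ^ 2 := ⟨_, rfl⟩
  have hK0 : 0 ≤ K := by rw [hK]; positivity
  refine ⟨(K + 1) * (1 / Real.log (1 + δ) + 2), 2 * max X₀ G₂, by positivity, ?_, ?_⟩
  · have := le_max_left X₀ G₂
    omega
  intro c hc A T₀ T₁ hS hT hA
  have hT₀ : 1 ≤ T₀ := by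
    have := le_max_left X₀ G₂
    omega
  have hsub : ((sqA A).filter fun a => ∃ T : ℕ, T₀ ≤ T ∧ T ≤ T₁ ∧ ε * T < |SF c T a|) ⊆
      (Icc (ix δ T₀) (ix δ T₁)).biUnion fun j =>
        (sqA A).filter fun a => ε / 2 * gr δ j < |SF c (gr δ j) a| := by
    intro a ha
    obtain ⟨ha1, T, h1, h2, h3⟩ := Finset.mem_filter.1 ha
    rw [Finset.mem_biUnion]
    have hT1 : 1 ≤ T := hT₀.trans h1
    refine ⟨ix δ T, Finset.mem_Icc.2 ⟨ix_mono hδ hT₀ h1, ix_mono hδ hT1 h2⟩, ?_⟩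
    rw [Finset.mem_filter]
    refine ⟨ha1, to_grid hc hδ hMδ hX hT1 ?_ hε h3⟩
    have h4 := le_gr_ix hδ hT1
    have h5 : (T : ℝ) ≤ 2 * gr δ (ix δ T) := by
      refine h4.trans (mul_le_mul_of_nonneg_right (by linarith) (Nat.cast_nonneg _))
    have h6 : T ≤ 2 * gr δ (ix δ T) := by exact_mod_cast h5
    have h7 := le_max_left X₀ G₂
    omega
  have hj : ∀ j ∈ Icc (ix δ T₀) (ix δ T₁),
      (((sqA A).filter fun a => ε / 2 * gr δ j < |SF c (gr δ j) a|).card : ℝ) ≤ K := by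
    intro j hj
    have h4 := le_gr_ix hδ hT₀
    have h5 : (T₀ : ℝ) ≤ 2 * gr δ (ix δ T₀) := by
      refine h4.trans (mul_le_mul_of_nonneg_right (by linarith) (Nat.cast_nonneg _))
    have h6 : T₀ ≤ 2 * gr δ (ix δ T₀) := by exact_mod_cast h5
    have h7 := gr_mono hδ (Finset.mem_Icc.1 hj).1
    have h8 := le_max_right X₀ G₂
    have h9 := hbad c hc (gr δ j) A (by omega) (by omega)
    rw [hK, le_div_iff₀ (by positivity)]
    nlinarith
  have h1 : (((sqA A).filter fun a => ∃ T : ℕ, T₀ ≤ T ∧ T ≤ T₁ ∧ ε * T < |SF c T a|).card : ℝ) ≤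
      ∑ j ∈ Icc (ix δ T₀) (ix δ T₁), K := by
    refine le_trans ?_ (Finset.sum_le_sum hj)
    exact_mod_cast (Finset.card_le_card hsub).trans Finset.card_biUnion_le
  rw [Finset.sum_const, nsmul_eq_mul, Nat.card_Icc] at h1
  have h2 : ((ix δ T₁ + 1 - ix δ T₀ : ℕ) : ℝ) ≤
      (1 / Real.log (1 + δ) + 2) * (1 + (Real.log T₁ - Real.log T₀)) := by
    have hm := ix_mono hδ hT₀ hT
    rw [Nat.cast_sub (by omega)]
    push_cast
    have e1 : (ix δ T₁ : ℝ) ≤ Real.log T₁ / Real.log (1 + δ) :=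
      Nat.floor_le (div_nonneg (log_nonneg' _) hl.le)
    have e2 : Real.log T₀ / Real.log (1 + δ) < ix δ T₀ + 1 := Nat.lt_floor_add_one _
    have e3 : Real.log T₀ ≤ Real.log T₁ :=
      Real.log_le_log (by exact_mod_cast hT₀) (by exact_mod_cast hT)
    have e4 : 0 < 1 / Real.log (1 + δ) := by positivity
    have e5 : Real.log T₁ / Real.log (1 + δ) = 1 / Real.log (1 + δ) * Real.log T₁ := by ring
    have e6 : Real.log T₀ / Real.log (1 + δ) = 1 / Real.log (1 + δ) * Real.log T₀ := by ring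
    rw [e5] at e1
    rw [e6] at e2
    nlinarith
  refine h1.trans ?_
  have h3 : (0 : ℝ) ≤ ((ix δ T₁ + 1 - ix δ T₀ : ℕ) : ℝ) := Nat.cast_nonneg _
  calc ((ix δ T₁ + 1 - ix δ T₀ : ℕ) : ℝ) * K ≤ ((ix δ T₁ + 1 - ix δ T₀ : ℕ) : ℝ) * (K + 1) :=
        mul_le_mul_of_nonneg_left (by linarith) h3
    _ ≤ ((1 / Real.log (1 + δ) + 2) * (1 + (Real.log T₁ - Real.log T₀))) * (K + 1) :=
        mul_le_mul_of_nonneg_right h2 (by linarith)
    _ = _ := by ring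

end Pool.Agent.Helper29.UT
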