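import Pool.Agent.Helper29.QT.Dens

/-!
# High moments of sums of quadratic characters over primes
-/

set_option autoImplicit false

namespace Pool.Agent.Helper29.UT

open Finset Pool.Agent.Helper29.QT

/-- The quadratic character as a homomorphism. -/
noncomputable def chHom (a : ℤ) : ℕ →* ℝ where
  toFun := ch a
  map_one' := by
    rw [ch_odd a odd_one, jacobiSym.one_right]
    norm_num
  map_mul' n m := ch_mul_right a n m

lemma chHom_apply (a : ℤ) (n : ℕ) : chHom a n = ch a n := rfl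

/-- The tuples of primes. -/
def tup (k T : ℕ) : Finset (Fin k → ℕ) := Fintype.piFinset fun _ => PR T

lemma card_primeFactors_le {n : ℕ} (hn : n ≠ 0) : n.primeFactors.card ≤ Nat.log 2 n := by
  apply Nat.le_log_of_pow_le (by norm_num)
  calc 2 ^ n.primeFactors.card ≤ ∏ p ∈ n.primeFactors, p := by
        apply Finset.pow_card_le_prod
        intro p hp
        exact (Nat.prime_of_mem_primeFactors hp).two_le
    _ ≤ n := Nat.le_of_dvd (Nat.pos_of_ne_zero hn) (Nat.prod_primeFactors_dvd n)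

lemma fibre_le {k T n : ℕ} (hn : n ≠ 0) :
    ((tup k T).filter fun v => ∏ i, v i = n).card ≤ (Nat.log 2 n) ^ k := by
  classical
  have h1 : (tup k T).filter (fun v => ∏ i, v i = n) ⊆
      Fintype.piFinset fun _ : Fin k => n.primeFactors := by
    intro v hv
    obtain ⟨h1, h2⟩ := Finset.mem_filter.1 hv
    rw [Fintype.mem_piFinset]
    intro i
    have h3 := Finset.mem_filter.1 ((Fintype.mem_piFinset.1 h1) i)
    rw [Nat.mem_primeFactors]
    exact ⟨h3.2, h2 ▸ Finset.dvd_prod_of_mem v (Finset.mem_univ i), hn⟩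
  refine (Finset.card_le_card h1).trans ?_
  rw [Fintype.card_piFinset, Finset.prod_const, Finset.card_univ, Fintype.card_fin]
  exact Nat.pow_le_pow_left (card_primeFactors_le hn) k

lemma prod_mem {k T : ℕ} {v : Fin k → ℕ} (hv : v ∈ tup k T) : ∏ i, v i ∈ Icc 1 (T ^ k) := by
  have h : ∀ i, 1 ≤ v i ∧ v i ≤ T := fun i =>
    Finset.mem_Icc.1 (Finset.mem_filter.1 ((Fintype.mem_piFinset.1 hv) i)).1
  rw [Finset.mem_Icc]
  constructor
  · exact Nat.one_le_iff_ne_zero.2 (Finset.prod_ne_zero_iff.2 fun i _ => by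
      have := (h i).1; omega)
  · calc ∏ i, v i ≤ ∏ _i : Fin k, T := Finset.prod_le_prod' fun i _ => (h i).2
      _ = T ^ k := by rw [Finset.prod_const, Finset.card_univ, Fintype.card_fin]

lemma SF_pow (c : ℕ → ℝ) (T k : ℕ) (a : ℤ) :
    SF c T a ^ k = ∑ v ∈ tup k T, ch a (∏ i, v i) * ∏ i, (c (v i) * Real.log (v i)) := by
  classical
  have h1 : SF c T a ^ k = ∏ _i : Fin k, ∑ p ∈ PR T, ch a p * (c p * Real.log p) := by
    rw [Finset.prod_const, Finset.card_univ, Fintype.card_fin]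
    rfl
  rw [h1, Finset.prod_univ_sum]
  refine Finset.sum_congr rfl fun v _ => ?_
  rw [Finset.prod_mul_distrib]
  congr 1
  rw [← chHom_apply, map_prod]
  rfl

lemma sum_sq_le {c : ℕ → ℝ} {M : ℝ} (hc : ∀ p : ℕ, p.Prime → |c p| ≤ M) (T : ℕ) :
    ∑ p ∈ PR T, (c p * Real.log p) ^ 2 ≤ M ^ 2 * (Real.log T * (Real.log 4 * T)) := by
  calc _ ≤ ∑ p ∈ PR T, M ^ 2 * (Real.log T * Real.log p) := by
        refine Finset.sum_le_sum fun p hp => ?_
        have h1 := Finset.mem_filter.1 hp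
        have h2 := Finset.mem_Icc.1 h1.1
        have h3 := hc p h1.2
        rw [mul_pow]
        have h4 : c p ^ 2 ≤ M ^ 2 := by
          rw [← sq_abs (c p)]
          exact pow_le_pow_left₀ (abs_nonneg _) h3 2
        have h5 : Real.log p ≤ Real.log T :=
          Real.log_le_log (by exact_mod_cast h2.1) (by exact_mod_cast h2.2)
        have h6 := log_nonneg' p
        have h7 : Real.log p ^ 2 ≤ Real.log T * Real.log p := by
          rw [sq]; exact mul_le_mul_of_nonneg_right h5 h6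
        exact mul_le_mul h4 h7 (sq_nonneg _) (sq_nonneg _)
    _ = M ^ 2 * (Real.log T * ∑ p ∈ PR T, Real.log p) := by
        rw [Finset.mul_sum, Finset.mul_sum]
    _ ≤ _ := by
        apply mul_le_mul_of_nonneg_left _ (sq_nonneg M)
        exact mul_le_mul_of_nonneg_left (sum_log_PR T) (log_nonneg' T)

/-- The sum of a nontrivial character over the first integers. -/
lemma sum_Icc_le {m : ℤ} (hm : m ≠ 0) {n₀ : ℕ} (hn₀ : ch m n₀ = -1) (N : ℕ) :
    |∑ n ∈ Icc 1 N, ch m n| ≤ 4 * m.natAbs := by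
  have h1 := sum_dvd_le hm hn₀ N 1 le_rfl
  have h2 : (Icc 1 N).filter (1 ∣ ·) = Icc 1 N := by
    apply Finset.filter_true_of_mem
    intro n _
    exact one_dvd n
  rwa [h2] at h1

/-- The bound for high moments. -/
theorem high {c : ℕ → ℝ} {M : ℝ} (hc : ∀ p : ℕ, p.Prime → |c p| ≤ M) (k : ℕ) {T : ℕ}
    (A : Finset ℤ) (hA : ∀ a ∈ A, Squarefree a)
    {Q : ℝ} (hQ : ∀ a ∈ A, ∀ b ∈ A, 4 * ((a * b).natAbs : ℝ) ≤ Q) :
    ∑ a ∈ A, (SF c T a ^ k) ^ 2 ≤
      (M ^ 2 * (Real.log T * (Real.log 4 * T))) ^ k * ((Nat.log 2 (T ^ k) : ℝ) ^ k *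
        ((T : ℝ) ^ k + Q * A.card)) := by
  classical
  obtain ⟨X, hX⟩ : ∃ X, X = ∑ a ∈ A, (SF c T a ^ k) ^ 2 := ⟨_, rfl⟩
  have hX0 : 0 ≤ X := by rw [hX]; exact Finset.sum_nonneg fun _ _ => sq_nonneg _
  rw [← hX]
  obtain ⟨F, hF⟩ : ∃ F : ℕ → ℝ, F = fun n => ∑ a ∈ A, SF c T a ^ k * ch a n := ⟨_, rfl⟩
  obtain ⟨w, hw⟩ : ∃ w : (Fin k → ℕ) → ℝ, w = fun v => ∏ i, (c (v i) * Real.log (v i)) :=
    ⟨_, rfl⟩
  have h1 : X = ∑ v ∈ tup k T, w v * F (∏ i, v i) := by
    rw [hX]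
    have h2 : ∀ a ∈ A, (SF c T a ^ k) ^ 2 =
        ∑ v ∈ tup k T, SF c T a ^ k * (ch a (∏ i, v i) * w v) := by
      intro a _
      rw [← Finset.mul_sum, sq, hw]
      congr 1
      exact SF_pow c T k a
    rw [Finset.sum_congr rfl h2, Finset.sum_comm]
    refine Finset.sum_congr rfl fun v _ => ?_
    rw [hF, Finset.mul_sum]
    exact Finset.sum_congr rfl fun a _ => by ring
  have h2 : X ^ 2 ≤ (∑ v ∈ tup k T, w v ^ 2) * (∑ v ∈ tup k T, F (∏ i, v i) ^ 2) := by
    rw [h1]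
    exact Finset.sum_mul_sq_le_sq_mul_sq _ _ _
  have h3 : ∑ v ∈ tup k T, w v ^ 2 ≤ (M ^ 2 * (Real.log T * (Real.log 4 * T))) ^ k := by
    have e1 : ∑ v ∈ tup k T, w v ^ 2 = (∑ p ∈ PR T, (c p * Real.log p) ^ 2) ^ k := by
      have e2 : (∑ p ∈ PR T, (c p * Real.log p) ^ 2) ^ k =
          ∏ _i : Fin k, ∑ p ∈ PR T, (c p * Real.log p) ^ 2 := by
        rw [Finset.prod_const, Finset.card_univ, Fintype.card_fin]
      rw [e2, Finset.prod_univ_sum]
      refine Finset.sum_congr rfl fun v _ => ?_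
      rw [hw]
      exact (Finset.prod_pow _ _ _).symm
    rw [e1]
    exact pow_le_pow_left₀ (Finset.sum_nonneg fun _ _ => sq_nonneg _) (sum_sq_le hc T) k
  have h4 : ∑ v ∈ tup k T, F (∏ i, v i) ^ 2 ≤
      (Nat.log 2 (T ^ k) : ℝ) ^ k * ∑ n ∈ Icc 1 (T ^ k), F n ^ 2 := by
    rw [← Finset.sum_fiberwise_of_maps_to (fun v hv => prod_mem hv), Finset.mul_sum]
    refine Finset.sum_le_sum fun n hn => ?_
    have hn1 := Finset.mem_Icc.1 hn
    have e1 : ∑ v ∈ (tup k T).filter (fun v => ∏ i, v i = n), F (∏ i, v i) ^ 2 =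
        ((tup k T).filter (fun v => ∏ i, v i = n)).card * F n ^ 2 := by
      rw [← nsmul_eq_mul, ← Finset.sum_const]
      refine Finset.sum_congr rfl fun v hv => ?_
      rw [(Finset.mem_filter.1 hv).2]
    rw [e1]
    apply mul_le_mul_of_nonneg_right _ (sq_nonneg _)
    have e2 := fibre_le (k := k) (T := T) (n := n) (by omega)
    have e3 : (Nat.log 2 n) ^ k ≤ (Nat.log 2 (T ^ k)) ^ k :=
      Nat.pow_le_pow_left (Nat.log_mono_right hn1.2) k
    exact_mod_cast e2.trans e3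
  have h5 : ∑ n ∈ Icc 1 (T ^ k), F n ^ 2 = ∑ a ∈ A, ∑ b ∈ A,
      SF c T a ^ k * SF c T b ^ k * ∑ n ∈ Icc 1 (T ^ k), ch (a * b) n := by
    have h6 : ∀ n ∈ Icc 1 (T ^ k), F n ^ 2 = ∑ a ∈ A, ∑ b ∈ A,
        SF c T a ^ k * SF c T b ^ k * ch (a * b) n := by
      intro n _
      rw [hF, sq, Finset.sum_mul_sum]
      refine Finset.sum_congr rfl fun a _ => ?_
      refine Finset.sum_congr rfl fun b _ => ?_
      rw [ch_mul_left]
      ring
    rw [Finset.sum_congr rfl h6, Finset.sum_comm]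
    refine Finset.sum_congr rfl fun a _ => ?_
    rw [Finset.sum_comm]
    refine Finset.sum_congr rfl fun b _ => ?_
    rw [Finset.mul_sum]
  have hQ0 : ∀ a ∈ A, ∀ b ∈ A, (0 : ℝ) ≤ Q := by
    intro a ha b hb
    have := hQ a ha b hb
    have h0 : (0 : ℝ) ≤ 4 * ((a * b).natAbs : ℝ) := by positivity
    exact h0.trans this
  have h6 : ∑ n ∈ Icc 1 (T ^ k), F n ^ 2 ≤ X * (T : ℝ) ^ k + Q * (A.card * X) := by
    rw [h5]
    have h7 : ∀ a ∈ A, ∀ b ∈ A,
        SF c T a ^ k * SF c T b ^ k * ∑ n ∈ Icc 1 (T ^ k), ch (a * b) n ≤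
        (if a = b then (SF c T a ^ k) ^ 2 * (T : ℝ) ^ k else 0) +
          Q * (|SF c T a ^ k| * |SF c T b ^ k|) := by
      intro a ha b hb
      have h0 := mul_nonneg (hQ0 a ha b hb) (mul_nonneg (abs_nonneg (SF c T a ^ k))
        (abs_nonneg (SF c T b ^ k)))
      split_ifs with hab
      · subst hab
        have hd : ∑ n ∈ Icc 1 (T ^ k), ch (a * a) n ≤ (T : ℝ) ^ k := by
          calc ∑ n ∈ Icc 1 (T ^ k), ch (a * a) n ≤ ∑ n ∈ Icc 1 (T ^ k), (1 : ℝ) :=
                Finset.sum_le_sum fun n _ => (le_abs_self _).trans (abs_ch_le _ _)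
            _ = _ := by
                rw [Finset.sum_const, Nat.card_Icc, nsmul_eq_mul, mul_one,
                  Nat.add_sub_cancel]
                push_cast
                rfl
        have h8 := mul_le_mul_of_nonneg_left hd (sq_nonneg (SF c T a ^ k))
        rw [← sq]
        linarith
      · have h8 := le_abs_self (SF c T a ^ k * SF c T b ^ k *
          ∑ n ∈ Icc 1 (T ^ k), ch (a * b) n)
        rw [abs_mul, abs_mul] at h8
        obtain ⟨n₀, hn₀⟩ := exists_neg (hA a ha) (hA b hb) hab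
        have hab0 : a * b ≠ 0 := mul_ne_zero (hA a ha).ne_zero (hA b hb).ne_zero
        have h9 := mul_le_mul_of_nonneg_left ((sum_Icc_le hab0 hn₀ (T ^ k)).trans (hQ a ha b hb))
          (mul_nonneg (abs_nonneg (SF c T a ^ k)) (abs_nonneg (SF c T b ^ k)))
        linarith
    refine (Finset.sum_le_sum fun a ha => Finset.sum_le_sum fun b hb => h7 a ha b hb).trans ?_
    simp_rw [Finset.sum_add_distrib, ← Finset.mul_sum]
    have h8 : ∑ a ∈ A, ∑ b ∈ A, (if a = b then (SF c T a ^ k) ^ 2 * (T : ℝ) ^ k else 0) =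
        X * (T : ℝ) ^ k := by
      rw [hX, Finset.sum_mul]
      refine Finset.sum_congr rfl fun a ha => ?_
      rw [Finset.sum_ite_eq, if_pos ha]
    rw [h8, ← Finset.sum_mul]
    have h9 : (∑ a ∈ A, |SF c T a ^ k|) * ∑ a ∈ A, |SF c T a ^ k| ≤ A.card * X := by
      rw [← sq, hX]
      refine (sq_sum_le_card_mul_sum_sq).trans (le_of_eq ?_)
      simp_rw [sq_abs]
    rcases A.eq_empty_or_nonempty with rfl | ⟨a, ha⟩
    · simp
    · have := mul_le_mul_of_nonneg_left h9 (hQ0 a ha a ha)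
      linarith
  have hL : 0 ≤ (M ^ 2 * (Real.log T * (Real.log 4 * T))) ^ k := by
    apply pow_nonneg
    exact mul_nonneg (sq_nonneg M) (mul_nonneg (log_nonneg' T)
      (mul_nonneg (Real.log_nonneg (by norm_num)) (Nat.cast_nonneg T)))
  have hD : (0 : ℝ) ≤ (Nat.log 2 (T ^ k) : ℝ) ^ k := by positivity
  have h8 : X ^ 2 ≤ X * ((M ^ 2 * (Real.log T * (Real.log 4 * T))) ^ k *
      ((Nat.log 2 (T ^ k) : ℝ) ^ k * ((T : ℝ) ^ k + Q * A.card))) := by
    calc X ^ 2 ≤ _ := h2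
      _ ≤ (M ^ 2 * (Real.log T * (Real.log 4 * T))) ^ k * ((Nat.log 2 (T ^ k) : ℝ) ^ k *
          (X * (T : ℝ) ^ k + Q * (A.card * X))) := by
          apply mul_le_mul h3 _ (Finset.sum_nonneg fun _ _ => sq_nonneg _) hL
          exact h4.trans (mul_le_mul_of_nonneg_left h6 hD)
      _ = _ := by ring
  rcases hX0.eq_or_lt with h9 | h9
  · rw [← h9]
    apply mul_nonneg hL
    apply mul_nonneg hD
    rcases A.eq_empty_or_nonempty with rfl | ⟨a, ha⟩
    · simp only [Finset.card_empty, Nat.cast_zero, mul_zero, add_zero]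
      positivity
    · have h10 := hQ0 a ha a ha
      positivity
  · rw [sq] at h8
    exact le_of_mul_le_mul_left h8 h9

end Pool.Agent.Helper29.UT
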