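import Pool.Agent.Helper29.UT.Final

/-!
# The main counting theorems in the final form
-/

set_option autoImplicit false

namespace Pool.Agent.Helper29.UT

open Finset Filter Topology Pool.Agent.Helper29.QT Pool.Agent.Helper29.TT

variable {t : ℕ → ℤ → ℝ} {c : ℕ → ℝ} {M W : ℝ}

open Classical in
lemma card_bad (D : ℤ → ℕ → ℝ) (ε : ℝ) (A T₀ T₁ : ℕ) :
    Nat.card {a : ℤ // Squarefree a ∧ |a| ≤ A ∧ ∃ T : ℕ, T₀ ≤ T ∧ T ≤ T₁ ∧ ε < |D a T|} =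
      ((sqA A).filter fun a => ∃ T : ℕ, T₀ ≤ T ∧ T ≤ T₁ ∧ ε < |D a T|).card := by
  apply Nat.subtype_card
  intro a
  rw [Finset.mem_filter, mem_sqA, _root_.abs_le]
  tauto

/-- **The counting theorem**, final form. -/
theorem Tw.main (hM : 0 ≤ M) (hW : 0 ≤ W) {ε : ℝ} (hε : 0 < ε) : ∃ C : ℝ, 0 < C ∧
    ∀ (t : ℕ → ℤ → ℝ) (c : ℕ → ℝ), Tw t c M W →
    ∀ D : ℤ → ℕ → ℝ, (∀ a T, D a T = DD t a T) →
    (∀ A T₀ T₁ : ℕ, 1 ≤ A → 2 ≤ T₀ → T₀ ≤ T₁ →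
      (Nat.card {a : ℤ // Squarefree a ∧ |a| ≤ A ∧
        ∃ T : ℕ, T₀ ≤ T ∧ T ≤ T₁ ∧ ε < |D a T|} : ℝ) ≤ C *
        (A * Real.log T₀ ^ 4 / T₀ + Real.log A ^ 13 + Real.log T₁)) ∧
    (∀ A T₀ T₁ : ℕ, 1 ≤ A → 2 ≤ T₀ → T₀ ≤ T₁ → A ^ 16 ≤ T₀ →
      (Nat.card {a : ℤ // Squarefree a ∧ |a| ≤ A ∧
        ∃ T : ℕ, T₀ ≤ T ∧ T ≤ T₁ ∧ ε < |D a T|} : ℝ) ≤ C * (1 + Real.log (T₁ / T₀))) ∧
    (∀ K : ℕ, 1 ≤ K → ∃ E : Finset ℤ, (E.card : ℝ) ≤ C * (1 + Real.log K) ∧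
      ∀ a : ℤ, Squarefree a → a ∉ E → ∃ᶠ X : ℕ in atTop,
        ∀ T : ℕ, X ≤ K * T → T ≤ X → |D a T| ≤ ε) := by
  classical
  obtain ⟨C, hC, hcount'⟩ := Tw.count hM hW hε
  refine ⟨C, hC, fun t c h D hD => ?_⟩
  have hcount := hcount' t c h
  have e : D = fun a T => DD t a T := by
    funext a T
    exact hD a T
  subst e
  refine ⟨?_, ?_, ?_⟩
  · intro A T₀ T₁ hA hT₀ hT
    rw [card_bad]
    exact (hcount A T₀ T₁ hA hT₀ hT).1
  · intro A T₀ T₁ hA hT₀ hT h16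
    rw [card_bad]
    exact (hcount A T₀ T₁ hA hT₀ hT).2 h16
  · intro K hK
    have hK0 : (1 : ℝ) ≤ K := by exact_mod_cast hK
    have hlK : 0 ≤ Real.log K := log_nonneg' K
    obtain ⟨B, hB⟩ : ∃ B : Set ℤ, B = {a : ℤ | Squarefree a ∧ ∀ᶠ X : ℕ in atTop,
      ∃ T : ℕ, X ≤ K * T ∧ T ≤ X ∧ ε < |DD t a T|} := ⟨_, rfl⟩
    have key : ∀ F : Finset ℤ, (F : Set ℤ) ⊆ B → (F.card : ℝ) ≤ C * (1 + Real.log K) := by
      intro F hF
      have hF' : ∀ a ∈ F, Squarefree a ∧ ∀ᶠ X : ℕ in atTop,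
          ∃ T : ℕ, X ≤ K * T ∧ T ≤ X ∧ ε < |DD t a T| := by
        intro a ha
        have := hF (Finset.mem_coe.2 ha)
        rw [hB] at this
        exact this
      obtain ⟨A, hA⟩ : ∃ A : ℕ, A = 1 + ∑ a ∈ F, a.natAbs := ⟨_, rfl⟩
      have hFA : ∀ a ∈ F, a.natAbs ≤ A := by
        intro a ha
        have : a.natAbs ≤ ∑ a ∈ F, a.natAbs :=
          Finset.single_le_sum (f := fun a : ℤ => a.natAbs) (fun _ _ => Nat.zero_le _) ha
        omega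
      have hall : ∀ᶠ X : ℕ in atTop, ∀ a ∈ F, ∃ T : ℕ, X ≤ K * T ∧ T ≤ X ∧ ε < |DD t a T| := by
        rw [Filter.eventually_all_finset]
        exact fun a ha => (hF' a ha).2
      obtain ⟨X₀, hX₀⟩ := Filter.eventually_atTop.1 hall
      obtain ⟨T₀, hT₀⟩ : ∃ T₀ : ℕ, T₀ = X₀ + A ^ 16 + 2 := ⟨_, rfl⟩
      have hX := hX₀ (K * T₀) (by
        have : T₀ ≤ K * T₀ := Nat.le_mul_of_pos_left T₀ hK
        omega)
      have h1 := (hcount A T₀ (K * T₀) (by omega) (by omega)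
        (Nat.le_mul_of_pos_left T₀ hK)).2 (by omega)
      have h2 : (F.card : ℝ) ≤ (((sqA A).filter fun a => ∃ T : ℕ, T₀ ≤ T ∧ T ≤ K * T₀ ∧
          ε < |DD t a T|).card : ℝ) := by
        have : F ⊆ (sqA A).filter fun a => ∃ T : ℕ, T₀ ≤ T ∧ T ≤ K * T₀ ∧ ε < |DD t a T| := by
          intro a ha
          rw [Finset.mem_filter, mem_sqA]
          have h3 := hFA a ha
          obtain ⟨T, h4, h5, h6⟩ := hX a ha
          exact ⟨⟨by omega, (hF' a ha).1⟩, T, Nat.le_of_mul_le_mul_left h4 hK, h5, h6⟩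
        exact_mod_cast Finset.card_le_card this
      refine (h2.trans h1).trans (le_of_eq ?_)
      congr 2
      have hT₀' : (0 : ℝ) < T₀ := by exact_mod_cast (by omega : 0 < T₀)
      push_cast
      rw [mul_div_assoc, div_self hT₀'.ne', mul_one]
    have hfin : B.Finite := by
      by_contra hinf
      obtain ⟨n, hn⟩ := exists_nat_gt (C * (1 + Real.log K))
      obtain ⟨F, hF, hFc⟩ := Set.Infinite.exists_subset_card_eq hinf n
      have := key F hF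
      rw [hFc] at this
      linarith
    refine ⟨hfin.toFinset, ?_, ?_⟩
    · exact key _ (by rw [Set.Finite.coe_toFinset])
    · intro a ha haE
      rw [Set.Finite.mem_toFinset, hB, Set.mem_ofPred_eq, not_and] at haE
      have h3 := haE ha
      rw [Filter.not_eventually] at h3
      refine h3.mono fun X hX T hT1 hT2 => ?_
      push Not at hX
      exact hX T hT1 hT2

end Pool.Agent.Helper29.UT
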