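import Pool.Agent.Helper29.UT.Unif
import Pool.Agent.Helper29.LP.Small
import Pool.Agent.Helper29.LP.Mid

/-!
# Windows in terms of the height of the twist
-/

set_option autoImplicit false

namespace Pool.Agent.Helper29.UT

open Finset Filter Topology Pool.Agent.Helper29.QT Pool.Agent.Helper29.TT

/-- The deviation is large for some `T` in the window of `a`. -/
def BadT (u v α γ : ℝ) (D : ℕ → ℝ) (a : ℤ) : Prop :=
  ∃ T : ℕ, (Real.log |(a : ℝ)| ^ α ≤ T ∧ (T : ℝ) ^ 2 ≤ |(a : ℝ)| ∧ (T : ℝ) ^ (-u) < |D T|) ∨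
    (|(a : ℝ)| ≤ (T : ℝ) ^ 2 ∧ (T : ℝ) ≤ Real.exp (|(a : ℝ)| ^ γ) ∧ |(a : ℝ)| ^ (-v) < |D T|)

open Classical in
lemma card_bad' (P : ℤ → Prop) (A : ℕ) :
    Nat.card {a : ℤ // Squarefree a ∧ |a| ≤ A ∧ P a} = ((sqA A).filter fun a => P a).card := by
  apply Nat.subtype_card
  intro a
  rw [Finset.mem_filter, mem_sqA, _root_.abs_le]
  tauto

open Classical in
/-- Transfer from the integers to the vectors with one coordinate. -/
lemma card_unit (A : ℕ) (P : ℤ → Prop) (Q : (Unit → ℤ) → Prop) (h : ∀ x : Unit → ℤ, P (x ()) → Q x) :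
    (((sqA A).filter fun a => P a).card : ℝ) ≤ (((boxJ Unit A).filter fun x => Q x).card : ℝ) := by
  have : ((sqA A).filter fun a => P a).card ≤ ((boxJ Unit A).filter fun x => Q x).card := by
    apply Finset.card_le_card_of_injOn (fun a => fun _ => a)
    · intro a ha
      obtain ⟨ha1, h2⟩ := Finset.mem_filter.1 (Finset.mem_coe.1 ha)
      rw [Finset.mem_coe, Finset.mem_filter]
      refine ⟨?_, h (fun _ => a) h2⟩
      unfold boxJ
      rw [Fintype.mem_piFinset]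
      intro _
      rw [Finset.mem_Icc]
      exact (mem_sqA.1 ha1).1
    · intro a _ b _ hab
      exact congrFun hab ()
  exact_mod_cast this

lemma card_boxUnit {A : ℕ} (hA : 1 ≤ A) : ((boxJ Unit A).card : ℝ) ≤ 3 * A := by
  rw [card_boxJ, Fintype.card_unit, pow_one]
  have : (1 : ℝ) ≤ A := by exact_mod_cast hA
  linarith

open Classical in
/-- **The window theorem.** -/
theorem Tw.own {M W : ℝ} (hM : 0 ≤ M) (hW : 0 ≤ W) {u v α γ : ℝ} (hu0 : 0 ≤ u) (hu : u < 1 / 2)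
    (hα : 1 / (1 - 2 * u) < α) (hv0 : 0 ≤ v) (hv : v ≤ 1 / 14) (hγ0 : 0 ≤ γ)
    (hγ : γ + 3 * v < 1) : ∃ C c' : ℝ, 0 < c' ∧
    ∀ (t : ℕ → ℤ → ℝ) (c : ℕ → ℝ), Tw t c M W → ∀ A : ℕ, 1 ≤ A →
      (((sqA A).filter fun a => BadT u v α γ (fun T => DD t a T) a).card : ℝ) ≤
        C * (A : ℝ) ^ (1 - c') := by
  have he0 : 0 < 1 - 2 * u := by linarith
  obtain ⟨β, hβ1, hβ2⟩ := exists_between hα
  have hβ0 : 0 < β := lt_trans (by positivity) hβ1
  have hα0 : 0 < α := hβ0.trans hβ2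
  obtain ⟨η, C1, c1, hη, hc1, hC1, h1⟩ :=
    LP.small 1 ((M + W) ^ 2) (2 * W) (M + W) (κ := u) (α := β) hu hβ1
  obtain ⟨C2, hC2, h2⟩ := LP.mid 1 ((M + W) ^ 2) (2 * W) hu0 hu
  obtain ⟨C3, hC3, h3⟩ := LP.mid 1 ((M + W) ^ 2) (2 * W) (κ := 2 * v) (by linarith) (by linarith)
  obtain ⟨C4, A4, hC4, h4⟩ := Tw.far hM hW
  obtain ⟨L0, hL0⟩ : ∃ L0 : ℝ, L0 = (2 : ℝ) ^ (α / (α - β)) := ⟨_, rfl⟩
  have hL00 : 0 < L0 := by rw [hL0]; positivity
  have hlow : ∀ L : ℝ, L0 ≤ L → L ^ β ≤ (L / 2) ^ α := by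
    intro L hL
    have hLp : 0 < L := lt_of_lt_of_le hL00 hL
    rw [Real.div_rpow hLp.le (by norm_num), le_div_iff₀ (by positivity)]
    have h2 : (2 : ℝ) ^ α ≤ L ^ (α - β) := by
      calc (2 : ℝ) ^ α = L0 ^ (α - β) := by
            rw [hL0, ← Real.rpow_mul (by norm_num), div_mul_cancel₀ _ (by linarith)]
        _ ≤ L ^ (α - β) := Real.rpow_le_rpow hL00.le hL (by linarith)
    calc L ^ β * 2 ^ α ≤ L ^ β * L ^ (α - β) :=
          mul_le_mul_of_nonneg_left h2 (Real.rpow_nonneg hLp.le _)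
      _ = L ^ α := by
          rw [← Real.rpow_add hLp]
          congr 1
          ring
  obtain ⟨A₀, hA₀⟩ : ∃ A₀ : ℕ, A₀ = max A4 (⌈Real.exp L0⌉₊ + 2) := ⟨_, rfl⟩
  -- the exponent
  obtain ⟨c', hc', b1, b2, b3, b4, b5, b6⟩ : ∃ c' : ℝ, 0 < c' ∧ c' ≤ c1 ∧
      c' ≤ η * ((1 - 2 * u) / 2) ∧ c' ≤ (1 / 4) * ((1 - 2 * (2 * v)) / 2) ∧ c' ≤ 1 / 28 ∧
      c' ≤ 1 - γ - 3 * v ∧ c' ≤ 1 / 2 := by
    refine ⟨min c1 (min (η * ((1 - 2 * u) / 2)) (min ((1 / 4) * ((1 - 2 * (2 * v)) / 2))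
      (min (1 / 28) (1 - γ - 3 * v)))), ?_, min_le_left _ _, ?_, ?_, ?_, ?_, ?_⟩
    · apply lt_min hc1
      apply lt_min (by positivity)
      apply lt_min
      · have : 0 < 1 - 2 * (2 * v) := by linarith
        positivity
      · exact lt_min (by norm_num) (by linarith)
    · exact (min_le_right _ _).trans (min_le_left _ _)
    · exact (min_le_right _ _).trans ((min_le_right _ _).trans (min_le_left _ _))
    · exact (min_le_right _ _).trans ((min_le_right _ _).trans ((min_le_right _ _).trans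
        (min_le_left _ _)))
    · exact (min_le_right _ _).trans ((min_le_right _ _).trans ((min_le_right _ _).trans
        (min_le_right _ _)))
    · refine ((min_le_right _ _).trans ((min_le_right _ _).trans ((min_le_right _ _).trans
        (min_le_left _ _)))).trans (by norm_num)
  refine ⟨3 * C1 + 3 * C2 + 3 * C3 + C4 * (364 ^ 13 + 2) + 3 + 3 * (A₀ : ℝ) ^ c', c', hc', ?_⟩
  intro t c h A hA
  have hAR : (1 : ℝ) ≤ A := by exact_mod_cast hA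
  have hA0 : (0 : ℝ) < A := by linarith
  have hP : 0 < (A : ℝ) ^ (1 - c') := Real.rpow_pos_of_pos hA0 _
  -- small `A`
  rcases Nat.lt_or_ge A A₀ with hlt | hge
  · have e1 : (((sqA A).filter fun a => BadT u v α γ (fun T => DD t a T) a).card : ℝ) ≤ 3 * A := by
      refine le_trans ?_ (card_sqA hA)
      exact_mod_cast Finset.card_filter_le _ _
    refine e1.trans ?_
    have e2 : (A : ℝ) = (A : ℝ) ^ c' * (A : ℝ) ^ (1 - c') := by
      rw [← Real.rpow_add hA0]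
      rw [show c' + (1 - c') = 1 by ring, Real.rpow_one]
    have e3 : (A : ℝ) ^ c' ≤ (A₀ : ℝ) ^ c' :=
      Real.rpow_le_rpow hA0.le (by exact_mod_cast hlt.le) hc'.le
    have e4 : 0 ≤ (3 * C1 + 3 * C2 + 3 * C3 + C4 * (364 ^ 13 + 2) + 3) * (A : ℝ) ^ (1 - c') := by
      positivity
    have e5 : (A : ℝ) ^ c' * (A : ℝ) ^ (1 - c') ≤ (A₀ : ℝ) ^ c' * (A : ℝ) ^ (1 - c') :=
      mul_le_mul_of_nonneg_right e3 hP.le
    rw [← e2] at e5
    linarith
  have hA4 : A4 ≤ A := le_trans (by rw [hA₀]; exact le_max_left _ _) hge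
  have hA5 : ⌈Real.exp L0⌉₊ + 2 ≤ A := le_trans (by rw [hA₀]; exact le_max_right _ _) hge
  have hA2 : 2 ≤ A := by omega
  have hlA : L0 ≤ Real.log A := by
    rw [Real.le_log_iff_exp_le hA0]
    have e1 : Real.exp L0 ≤ (⌈Real.exp L0⌉₊ : ℝ) := Nat.le_ceil _
    have e2 : (⌈Real.exp L0⌉₊ : ℝ) ≤ A := by exact_mod_cast (by omega : ⌈Real.exp L0⌉₊ ≤ A)
    linarith
  have hA1' : (1 : ℝ) < A := by exact_mod_cast (by omega : 1 < A)
  have hfam := h.fam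
  have hab : ∀ p, p.Prime → ∀ a : Unit → ℤ, |t p (a ())| ≤ M + W := fun p hp a => h.abs_le hp _
  obtain ⟨T₀, hT₀⟩ : ∃ T₀ : ℕ, T₀ = ⌈(A : ℝ) ^ η⌉₊ := ⟨_, rfl⟩
  obtain ⟨T₀', hT₀'⟩ : ∃ T₀' : ℕ, T₀' = ⌈(A : ℝ) ^ ((1 : ℝ) / 4)⌉₊ := ⟨_, rfl⟩
  have htwo : ∀ {x : ℝ}, 0 < x → 2 ≤ ⌈(A : ℝ) ^ x⌉₊ := by
    intro x hx
    have : (1 : ℝ) < (A : ℝ) ^ x := Real.one_lt_rpow hA1' hx
    exact Nat.lt_ceil.2 (by exact_mod_cast this)
  have hT₀2 : 2 ≤ T₀ := by rw [hT₀]; exact htwo hη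
  have hT₀2' : 2 ≤ T₀' := by rw [hT₀']; exact htwo (by norm_num)
  obtain ⟨T₁, hT₁⟩ : ∃ T₁ : ℕ, T₁ = ⌊Real.exp ((A : ℝ) ^ γ)⌋₊ := ⟨_, rfl⟩
  -- the inclusion
  have hsub : ((sqA A).filter fun a => BadT u v α γ (fun T => DD t a T) a) ⊆
      ((sqA A).filter fun a => ∃ T : ℕ, Real.log A ^ β ≤ T ∧ (T : ℝ) ≤ (A : ℝ) ^ η ∧
        (T : ℝ) ^ (-u) < |DD t a T|) ∪
      ((sqA A).filter fun a => ∃ T : ℕ, T₀ ≤ T ∧ T ^ 2 ≤ A ∧ (T : ℝ) ^ (-u) < |DD t a T|) ∪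
      ((sqA A).filter fun a => ∃ T : ℕ, T₀' ≤ T ∧ T ^ 2 ≤ A ∧
        (T : ℝ) ^ (-(2 * v)) < |DD t a T|) ∪
      ((sqA A).filter fun a => ∃ T : ℕ, A ≤ T ^ 2 ∧ T ≤ T₁ ∧ (A : ℝ) ^ (-v) < |DD t a T|) ∪
      sqA (Nat.sqrt A) := by
    intro a ha
    obtain ⟨ha1, T, hT⟩ := Finset.mem_filter.1 ha
    obtain ⟨⟨ha2, ha3⟩, ha4⟩ := mem_sqA.1 ha1
    simp only [Finset.mem_union]
    by_cases hs : a.natAbs ≤ Nat.sqrt A
    · right
      rw [mem_sqA]
      exact ⟨by omega, ha4⟩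
    left
    have habs : |(a : ℝ)| = (a.natAbs : ℝ) := by
      rw [Nat.cast_natAbs]
      push_cast
      rfl
    have haA : |(a : ℝ)| ≤ A := by
      rw [habs]
      exact_mod_cast (by omega : a.natAbs ≤ A)
    have ha0 : 0 < |(a : ℝ)| := by
      rw [habs]
      exact_mod_cast (by omega : 0 < a.natAbs)
    have hsq : (A : ℝ) ≤ |(a : ℝ)| ^ 2 := by
      rw [habs]
      have e1 : A < (Nat.sqrt A + 1) * (Nat.sqrt A + 1) := Nat.lt_succ_sqrt A
      have e2 : Nat.sqrt A + 1 ≤ a.natAbs := by omega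
      have e3 : A ≤ a.natAbs ^ 2 := by
        calc A ≤ (Nat.sqrt A + 1) * (Nat.sqrt A + 1) := e1.le
          _ ≤ a.natAbs * a.natAbs := Nat.mul_le_mul e2 e2
          _ = _ := (sq _).symm
      exact_mod_cast e3
    rcases hT with ⟨g1, g2, g3⟩ | ⟨g1, g2, g3⟩
    · left; left
      have hTA : T ^ 2 ≤ A := by
        have := g2.trans haA
        exact_mod_cast this
      by_cases hTη : (T : ℝ) ≤ (A : ℝ) ^ η
      · left
        refine Finset.mem_filter.2 ⟨ha1, T, ?_, hTη, g3⟩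
        refine (hlow _ hlA).trans (le_trans ?_ g1)
        have e1 : Real.log A / 2 ≤ Real.log |(a : ℝ)| := by
          have e2 := Real.log_le_log hA0 hsq
          rw [Real.log_pow] at e2
          push_cast at e2
          linarith
        exact Real.rpow_le_rpow (by linarith) e1 hα0.le
      · right
        push Not at hTη
        refine Finset.mem_filter.2 ⟨ha1, T, ?_, hTA, g3⟩
        rw [hT₀]
        exact Nat.ceil_le.2 hTη.le
    · by_cases hTA : T ^ 2 ≤ A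
      · left; right
        refine Finset.mem_filter.2 ⟨ha1, T, ?_, hTA, lt_of_le_of_lt ?_ g3⟩
        · rw [hT₀']
          apply Nat.ceil_le.2
          have e1 : (A : ℝ) ≤ ((T : ℝ) ^ 2) ^ 2 := hsq.trans (pow_le_pow_left₀ ha0.le g1 2)
          have e2 : (A : ℝ) ^ ((1 : ℝ) / 4) ≤ (((T : ℝ) ^ 2) ^ 2) ^ ((1 : ℝ) / 4) :=
            Real.rpow_le_rpow hA0.le e1 (by norm_num)
          have e3 : (((T : ℝ) ^ 2) ^ 2) ^ ((1 : ℝ) / 4) = T := by
            rw [← pow_mul, ← Real.rpow_natCast, ← Real.rpow_mul (Nat.cast_nonneg T)]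
            norm_num
          rwa [e3] at e2
        · have e1 : ((T : ℝ) ^ 2) ^ (-v) ≤ |(a : ℝ)| ^ (-v) :=
            Real.rpow_le_rpow_of_nonpos ha0 g1 (by linarith)
          refine le_trans (le_of_eq ?_) e1
          rw [← Real.rpow_natCast, ← Real.rpow_mul (Nat.cast_nonneg T)]
          congr 1
          push_cast
          ring
      · right
        refine Finset.mem_filter.2 ⟨ha1, T, by omega, ?_, lt_of_le_of_lt ?_ g3⟩
        · rw [hT₁]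
          apply Nat.le_floor
          refine g2.trans (Real.exp_le_exp.2 ?_)
          exact Real.rpow_le_rpow ha0.le haA hγ0
        · exact Real.rpow_le_rpow_of_nonpos ha0 haA (by linarith)
  have hcard := (Finset.card_le_card hsub).trans ((Finset.card_union_le _ _).trans
    (Nat.add_le_add_right ((Finset.card_union_le _ _).trans (Nat.add_le_add_right
    ((Finset.card_union_le _ _).trans (Nat.add_le_add_right (Finset.card_union_le _ _) _)) _)) _))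
  have hcardR := (Nat.cast_le (α := ℝ)).2 hcard
  push_cast at hcardR
  refine hcardR.trans ?_
  -- powers
  have hpw : ∀ {x : ℝ}, x ≤ 1 - c' → (A : ℝ) ^ x ≤ (A : ℝ) ^ (1 - c') := fun hx =>
    Real.rpow_le_rpow_of_exponent_le hAR hx
  have hbox := card_boxUnit hA
  have hmulA : ∀ x : ℝ, (A : ℝ) ^ (-x) * (3 * A) = 3 * (A : ℝ) ^ (1 - x) := by
    intro x
    have : (A : ℝ) ^ (1 - x) = (A : ℝ) ^ (-x) * A := by
      conv_rhs => rw [← Real.rpow_one (A : ℝ)]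
      rw [← Real.rpow_mul hA0.le, ← Real.rpow_add hA0]
      congr 1
      ring
    rw [this]
    ring
  have k1 : (((sqA A).filter fun a => ∃ T : ℕ, Real.log A ^ β ≤ T ∧ (T : ℝ) ≤ (A : ℝ) ^ η ∧
        (T : ℝ) ^ (-u) < |DD t a T|).card : ℝ) ≤ 3 * C1 * (A : ℝ) ^ (1 - c') := by
    refine (card_unit A _ (fun x => ∃ T : ℕ, Real.log A ^ β ≤ T ∧ (T : ℝ) ≤ (A : ℝ) ^ η ∧
        (T : ℝ) ^ (-u) < |(∑ p ∈ PRI T, Real.log p * t p (x ())) / T|) fun x hx => hx).trans ?_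
    refine (h1 Unit Fintype.card_unit _ hfam hab A hA).trans ?_
    calc C1 * (A : ℝ) ^ (-c1) * (boxJ Unit A).card ≤ C1 * (A : ℝ) ^ (-c1) * (3 * A) :=
          mul_le_mul_of_nonneg_left hbox (by positivity)
      _ = C1 * ((A : ℝ) ^ (-c1) * (3 * A)) := by ring
      _ = 3 * C1 * (A : ℝ) ^ (1 - c1) := by rw [hmulA]; ring
      _ ≤ _ := mul_le_mul_of_nonneg_left (hpw (by linarith)) (by positivity)
  have hmid : ∀ {x κ Cm : ℝ} {S : ℕ}, 0 ≤ Cm → 0 < x → κ < 1 / 2 → S = ⌈(A : ℝ) ^ x⌉₊ →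
      c' ≤ x * ((1 - 2 * κ) / 2) →
      Cm * (S : ℝ) ^ (-((1 - 2 * κ) / 2)) * (boxJ Unit A).card ≤
        3 * Cm * (A : ℝ) ^ (1 - c') := by
    intro x κ Cm S hCm hx hκ hS hcx
    have e1 : (A : ℝ) ^ x ≤ S := by rw [hS]; exact Nat.le_ceil _
    have e2 : (S : ℝ) ^ (-((1 - 2 * κ) / 2)) ≤ ((A : ℝ) ^ x) ^ (-((1 - 2 * κ) / 2)) :=
      Real.rpow_le_rpow_of_nonpos (Real.rpow_pos_of_pos hA0 _) e1 (by linarith)
    rw [← Real.rpow_mul hA0.le] at e2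
    calc Cm * (S : ℝ) ^ (-((1 - 2 * κ) / 2)) * (boxJ Unit A).card ≤
          Cm * (A : ℝ) ^ (x * -((1 - 2 * κ) / 2)) * (3 * A) := by
          apply mul_le_mul _ hbox (Nat.cast_nonneg _) (by positivity)
          exact mul_le_mul_of_nonneg_left e2 hCm
      _ = Cm * ((A : ℝ) ^ (-(x * ((1 - 2 * κ) / 2))) * (3 * A)) := by
          rw [mul_neg]; ring
      _ = 3 * Cm * (A : ℝ) ^ (1 - x * ((1 - 2 * κ) / 2)) := by rw [hmulA]; ring
      _ ≤ _ := mul_le_mul_of_nonneg_left (hpw (by linarith)) (by positivity)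
  have k2 : (((sqA A).filter fun a => ∃ T : ℕ, T₀ ≤ T ∧ T ^ 2 ≤ A ∧
      (T : ℝ) ^ (-u) < |DD t a T|).card : ℝ) ≤ 3 * C2 * (A : ℝ) ^ (1 - c') := by
    refine (card_unit A _ (fun x => ∃ T : ℕ, T₀ ≤ T ∧ T ^ 2 ≤ A ∧
        (T : ℝ) ^ (-u) < |(∑ p ∈ PRI T, Real.log p * t p (x ())) / T|) fun x hx => hx).trans ?_
    refine (h2 Unit Fintype.card_unit _ hfam T₀ A hT₀2).trans ?_
    exact hmid hC2 hη hu hT₀ b2
  have k3 : (((sqA A).filter fun a => ∃ T : ℕ, T₀' ≤ T ∧ T ^ 2 ≤ A ∧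
      (T : ℝ) ^ (-(2 * v)) < |DD t a T|).card : ℝ) ≤ 3 * C3 * (A : ℝ) ^ (1 - c') := by
    refine (card_unit A _ (fun x => ∃ T : ℕ, T₀' ≤ T ∧ T ^ 2 ≤ A ∧
        (T : ℝ) ^ (-(2 * v)) < |(∑ p ∈ PRI T, Real.log p * t p (x ())) / T|)
        fun x hx => hx).trans ?_
    refine (h3 Unit Fintype.card_unit _ hfam T₀' A hT₀2').trans ?_
    exact hmid hC3 (by norm_num) (by linarith) hT₀' b3
  have k4 : (((sqA A).filter fun a => ∃ T : ℕ, A ≤ T ^ 2 ∧ T ≤ T₁ ∧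
      (A : ℝ) ^ (-v) < |DD t a T|).card : ℝ) ≤ C4 * (364 ^ 13 + 2) * (A : ℝ) ^ (1 - c') := by
    have hε1 : (A : ℝ) ^ (-v) ≤ 1 := Real.rpow_le_one_of_one_le_of_nonpos hAR (by linarith)
    have hε2 : (A : ℝ) ^ (-((1 : ℝ) / 14)) ≤ (A : ℝ) ^ (-v) :=
      Real.rpow_le_rpow_of_exponent_le hAR (by linarith)
    refine (h4 t c h A hA4 _ hε2 hε1 T₁).trans ?_
    rw [mul_assoc]
    apply mul_le_mul_of_nonneg_left _ hC4
    have hlA0 : 0 ≤ Real.log A := log_nonneg' A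
    have e1 : Real.log A ≤ 364 * (A : ℝ) ^ ((1 : ℝ) / 364) := by
      have := Real.log_le_rpow_div hA0.le (by norm_num : (0 : ℝ) < 1 / 364)
      linarith
    have e2 : Real.log A ^ 13 ≤ 364 ^ 13 * (A : ℝ) ^ ((1 : ℝ) / 28) := by
      calc Real.log A ^ 13 ≤ (364 * (A : ℝ) ^ ((1 : ℝ) / 364)) ^ 13 :=
            pow_le_pow_left₀ hlA0 e1 13
        _ = 364 ^ 13 * (A : ℝ) ^ ((1 : ℝ) / 28) := by
            rw [mul_pow, ← Real.rpow_natCast ((A : ℝ) ^ ((1 : ℝ) / 364)) 13,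
              ← Real.rpow_mul hA0.le]
            congr 2
            norm_num
    have e3 : Real.log A ^ 13 / ((A : ℝ) ^ (-v)) ^ 13 ≤ 364 ^ 13 * (A : ℝ) ^ (1 - c') := by
      have f1 : Real.log A ^ 13 / ((A : ℝ) ^ (-v)) ^ 13 = Real.log A ^ 13 * (A : ℝ) ^ (13 * v) := by
        rw [← Real.rpow_natCast ((A : ℝ) ^ (-v)) 13, ← Real.rpow_mul hA0.le, div_eq_mul_inv,
          ← Real.rpow_neg hA0.le]
        congr 2
        push_cast
        ring
      rw [f1]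
      calc Real.log A ^ 13 * (A : ℝ) ^ (13 * v) ≤
            (364 ^ 13 * (A : ℝ) ^ ((1 : ℝ) / 28)) * (A : ℝ) ^ (13 * v) :=
            mul_le_mul_of_nonneg_right e2 (by positivity)
        _ = 364 ^ 13 * (A : ℝ) ^ (1 / 28 + 13 * v) := by
            rw [Real.rpow_add hA0]; ring
        _ ≤ _ := mul_le_mul_of_nonneg_left (hpw (by linarith)) (by positivity)
    have e4 : (1 + Real.log T₁) / ((A : ℝ) ^ (-v)) ^ 3 ≤ 2 * (A : ℝ) ^ (1 - c') := by
      have f1 : (1 + Real.log T₁) / ((A : ℝ) ^ (-v)) ^ 3 =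
          (1 + Real.log T₁) * (A : ℝ) ^ (3 * v) := by
        rw [← Real.rpow_natCast ((A : ℝ) ^ (-v)) 3, ← Real.rpow_mul hA0.le, div_eq_mul_inv,
          ← Real.rpow_neg hA0.le]
        congr 2
        push_cast
        ring
      have f2 : Real.log T₁ ≤ (A : ℝ) ^ γ := by
        rcases Nat.eq_zero_or_pos T₁ with h0 | h0
        · rw [h0, Nat.cast_zero, Real.log_zero]
          positivity
        · rw [← Real.log_exp ((A : ℝ) ^ γ)]
          apply Real.log_le_log (by exact_mod_cast h0)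
          rw [hT₁]
          exact Nat.floor_le (Real.exp_pos _).le
      have f3 : (1 : ℝ) ≤ (A : ℝ) ^ γ := Real.one_le_rpow hAR hγ0
      rw [f1]
      calc (1 + Real.log T₁) * (A : ℝ) ^ (3 * v) ≤ (2 * (A : ℝ) ^ γ) * (A : ℝ) ^ (3 * v) :=
            mul_le_mul_of_nonneg_right (by linarith) (by positivity)
        _ = 2 * (A : ℝ) ^ (γ + 3 * v) := by
            rw [Real.rpow_add hA0]; ring
        _ ≤ _ := mul_le_mul_of_nonneg_left (hpw (by linarith)) (by positivity)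
    calc _ ≤ 364 ^ 13 * (A : ℝ) ^ (1 - c') + 2 * (A : ℝ) ^ (1 - c') := add_le_add e3 e4
      _ = _ := by ring
  have k5 : ((sqA (Nat.sqrt A)).card : ℝ) ≤ 3 * (A : ℝ) ^ (1 - c') := by
    have hs1 : 1 ≤ Nat.sqrt A := by rw [Nat.le_sqrt']; omega
    refine (card_sqA hs1).trans ?_
    apply mul_le_mul_of_nonneg_left _ (by norm_num)
    have e1 : (Nat.sqrt A : ℝ) ≤ Real.sqrt A := by
      apply Real.le_sqrt_of_sq_le
      have := Nat.sqrt_le' A
      exact_mod_cast this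
    refine e1.trans ?_
    rw [Real.sqrt_eq_rpow]
    exact hpw (by linarith)
  have k6 : 0 ≤ 3 * (A₀ : ℝ) ^ c' * (A : ℝ) ^ (1 - c') := by positivity
  have k7 : (3 * C1 + 3 * C2 + 3 * C3 + C4 * (364 ^ 13 + 2) + 3 + 3 * (A₀ : ℝ) ^ c') *
      (A : ℝ) ^ (1 - c') = 3 * C1 * (A : ℝ) ^ (1 - c') + 3 * C2 * (A : ℝ) ^ (1 - c') +
      3 * C3 * (A : ℝ) ^ (1 - c') + C4 * (364 ^ 13 + 2) * (A : ℝ) ^ (1 - c') +
      3 * (A : ℝ) ^ (1 - c') + 3 * (A₀ : ℝ) ^ c' * (A : ℝ) ^ (1 - c') := by ring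
  rw [k7]
  linarith

end Pool.Agent.Helper29.UT
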