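import Pool.Agent.Helper29.UT.GeoOwn

/-!
# The sum of the squares over all twists of small height
-/

set_option autoImplicit false

namespace Pool.Agent.Helper29.UT

open Finset Filter Topology MvPolynomial Pool.Agent.Helper29.QT

/-- The size of the error. -/
noncomputable def EE (M W : ℝ) (T : ℕ) : ℝ :=
  (2 * W * Real.log T + M * Real.log 4 * (T : ℝ) ^ ((1 : ℝ) / 5)) / T

lemma tendsto_EE (M W : ℝ) : Tendsto (fun T : ℕ => (T : ℝ) ^ ((1 : ℝ) / 16) * EE M W T) atTop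
    (𝓝 0) := by
  have h1 : Tendsto (fun x : ℝ => Real.log x / x ^ ((15 : ℝ) / 16)) atTop (𝓝 0) :=
    (isLittleO_log_rpow_atTop (by norm_num : (0 : ℝ) < 15 / 16)).tendsto_div_nhds_zero
  have h2 : Tendsto (fun x : ℝ => x ^ (-((59 : ℝ) / 80))) atTop (𝓝 0) :=
    tendsto_rpow_neg_atTop (by norm_num)
  have h3 := ((h1.comp tendsto_natCast_atTop_atTop).const_mul (2 * W)).add
    ((h2.comp tendsto_natCast_atTop_atTop).const_mul (M * Real.log 4))
  rw [mul_zero, mul_zero, add_zero] at h3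
  refine h3.congr' ?_
  filter_upwards [eventually_ge_atTop 1] with T hT
  have hT0 : (0 : ℝ) < T := by exact_mod_cast hT
  rw [Function.comp_apply, Function.comp_apply]
  unfold EE
  have e1 : (T : ℝ) = (T : ℝ) ^ ((15 : ℝ) / 16) * (T : ℝ) ^ ((1 : ℝ) / 16) := by
    rw [← Real.rpow_add hT0]; norm_num
  have e2 : (T : ℝ) ^ ((1 : ℝ) / 16) * (T : ℝ) ^ ((1 : ℝ) / 5) / T =
      (T : ℝ) ^ (-((59 : ℝ) / 80)) := by
    rw [← Real.rpow_add hT0]
    conv_lhs => rw [← Real.rpow_one (T : ℝ)]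
    rw [← Real.rpow_mul hT0.le, ← Real.rpow_sub hT0]
    norm_num
  have e3 : (T : ℝ) ^ ((1 : ℝ) / 16) / T = 1 / (T : ℝ) ^ ((15 : ℝ) / 16) := by
    have h5 : 0 < (T : ℝ) ^ ((15 : ℝ) / 16) := Real.rpow_pos_of_pos hT0 _
    have h6 : 0 < (T : ℝ) ^ ((1 : ℝ) / 16) := Real.rpow_pos_of_pos hT0 _
    rw [div_eq_div_iff hT0.ne' h5.ne', one_mul]
    conv_rhs => rw [e1]
    ring
  have e4 : (T : ℝ) ^ ((1 : ℝ) / 16) * ((2 * W * Real.log T + M * Real.log 4 *
      (T : ℝ) ^ ((1 : ℝ) / 5)) / T) = 2 * W * (Real.log T * ((T : ℝ) ^ ((1 : ℝ) / 16) / T)) +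
      M * Real.log 4 * ((T : ℝ) ^ ((1 : ℝ) / 16) * (T : ℝ) ^ ((1 : ℝ) / 5) / T) := by
    ring
  rw [e4, e2, e3]
  ring

/-- **The sum of the squares over all twists of height at most `T ^ (1 / 16)`.** -/
theorem Tw.squares {M W : ℝ} (hM : 0 ≤ M) (hW : 0 ≤ W) {δ : ℝ} (hδ : 0 < δ) : ∃ T₀ : ℕ,
    ∀ (t : ℕ → ℤ → ℝ) (c : ℕ → ℝ), Tw t c M W → ∀ T : ℕ, T₀ ≤ T →
    ∀ S : Finset ℤ, (∀ a ∈ S, Squarefree a ∧ a.natAbs ^ 16 ≤ T) →
      ∑ a ∈ S, DD t a T ^ 2 ≤ 7 * M ^ 2 + δ := by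
  have hl4 : 0 ≤ Real.log 4 := Real.log_nonneg (by norm_num)
  obtain ⟨η, hη0, hη⟩ : ∃ η : ℝ, 0 < η ∧ 3 * η * (2 * (M * Real.log 4) + 1) ≤ δ := by
    refine ⟨δ / (3 * (2 * (M * Real.log 4) + 1)), by positivity, ?_⟩
    apply le_of_eq
    field_simp
  obtain ⟨θ, hθ, hθ1, hθη⟩ : ∃ θ : ℝ, 0 < θ ∧ θ ≤ 1 ∧ θ ≤ η :=
    ⟨min 1 η, lt_min one_pos hη0, min_le_left _ _, min_le_right _ _⟩
  have h1 := (tendsto_EE M W).eventually (Metric.ball_mem_nhds (0 : ℝ) hθ)
  obtain ⟨T₀, hT₀⟩ := Filter.eventually_atTop.1 (h1.and log_mul_le)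
  refine ⟨max T₀ 2, fun t c h T hT S hS => ?_⟩
  obtain ⟨g1, g2⟩ := hT₀ T ((le_max_left _ _).trans hT)
  have hT2 : 2 ≤ T := (le_max_right _ _).trans hT
  have hT0 : (0 : ℝ) < T := by exact_mod_cast (by omega : 0 < T)
  have hT1 : (1 : ℝ) ≤ T := by exact_mod_cast (by omega : 1 ≤ T)
  have g3 := Metric.mem_ball.1 g1
  rw [Real.dist_eq, sub_zero] at g3
  have g4 := (le_abs_self _).trans g3.le
  have hlT := log_nonneg' T
  have hE0 : 0 ≤ EE M W T := by unfold EE; positivity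
  have hP1 : 1 ≤ (T : ℝ) ^ ((1 : ℝ) / 16) := Real.one_le_rpow hT1 (by norm_num)
  have hE1 : EE M W T ≤ 1 := by
    have : 1 * EE M W T ≤ (T : ℝ) ^ ((1 : ℝ) / 16) * EE M W T :=
      mul_le_mul_of_nonneg_right hP1 hE0
    linarith
  obtain ⟨N, hN⟩ : ∃ N : ℕ, N = ⌊(T : ℝ) ^ ((1 : ℝ) / 16)⌋₊ := ⟨_, rfl⟩
  have hN1 : 1 ≤ N := by
    rw [hN]
    exact Nat.le_floor (by exact_mod_cast hP1)
  have hNT : (N : ℝ) ≤ (T : ℝ) ^ ((1 : ℝ) / 16) := by
    rw [hN]; exact Nat.floor_le (by positivity)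
  have hN16 : N ^ 16 ≤ T := by
    have e1 : (N : ℝ) ^ 16 ≤ ((T : ℝ) ^ ((1 : ℝ) / 16)) ^ 16 :=
      pow_le_pow_left₀ (Nat.cast_nonneg _) hNT 16
    rw [← Real.rpow_natCast ((T : ℝ) ^ ((1 : ℝ) / 16)) 16, ← Real.rpow_mul hT0.le] at e1
    norm_num at e1
    exact_mod_cast e1
  have hSN : S ⊆ sqA N := by
    intro a ha
    obtain ⟨h2, h3⟩ := hS a ha
    have h4 : (a.natAbs : ℝ) ≤ (T : ℝ) ^ ((1 : ℝ) / 16) := by
      have e1 : (a.natAbs : ℝ) = ((a.natAbs : ℝ) ^ 16) ^ ((1 : ℝ) / 16) := by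
        rw [← Real.rpow_natCast, ← Real.rpow_mul (Nat.cast_nonneg _)]
        norm_num
      rw [e1]
      exact Real.rpow_le_rpow (by positivity) (by exact_mod_cast h3) (by norm_num)
    have h5 : a.natAbs ≤ N := by rw [hN]; exact Nat.le_floor h4
    rw [mem_sqA]
    exact ⟨by omega, h2⟩
  refine (Finset.sum_le_sum_of_subset_of_nonneg hSN fun _ _ _ => sq_nonneg _).trans ?_
  have hc := h.bound
  have hb := bessel hc (one_le_zz (by omega : 1 ≤ T)) (lt_zz T) (sqA N)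
    (fun a ha => (mem_sqA.1 ha).2) sqA_prod
  have h6 : M ^ 2 * (Real.log 4 * T) * (5 * T + Real.log T * ((zz T : ℝ) ^ 4 *
      (1 + (sqA N).card * (4 * (N : ℝ) ^ 2)))) ≤ 7 * M ^ 2 * (T : ℝ) ^ 2 := by
    have h7 : Real.log T * ((zz T : ℝ) ^ 4 * (1 + (sqA N).card * (4 * (N : ℝ) ^ 2))) ≤
        1 / 1000 * T := by
      refine le_trans ?_ g2
      apply mul_le_mul_of_nonneg_left _ hlT
      have e1 := card_sqA hN1
      have e2 : (1 : ℝ) ≤ N := by exact_mod_cast hN1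
      have e3 : 1 + ((sqA N).card : ℝ) * (4 * (N : ℝ) ^ 2) ≤ 13 * (N : ℝ) ^ 3 := by
        have e4 : ((sqA N).card : ℝ) * (4 * (N : ℝ) ^ 2) ≤ 3 * N * (4 * (N : ℝ) ^ 2) :=
          mul_le_mul_of_nonneg_right e1 (by positivity)
        have e5 : (1 : ℝ) ≤ (N : ℝ) ^ 3 := one_le_pow₀ e2
        nlinarith
      have e4 : 1 + ((sqA N).card : ℝ) * (4 * (N : ℝ) ^ 2) ≤
          26 * (T : ℝ) ^ ((3 : ℝ) / 16) := by
        have := cube_le (by omega : 1 ≤ T) (by omega : N ^ 16 ≤ 2 * T)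
        linarith
      calc (zz T : ℝ) ^ 4 * (1 + ((sqA N).card : ℝ) * (4 * (N : ℝ) ^ 2)) ≤
          (T : ℝ) ^ ((4 : ℝ) / 5) * (26 * (T : ℝ) ^ ((3 : ℝ) / 16)) :=
            mul_le_mul (zz_pow_le T) e4 (by positivity) (Real.rpow_nonneg hT0.le _)
        _ = 26 * (T : ℝ) ^ ((79 : ℝ) / 80) := by
            have : (T : ℝ) ^ ((79 : ℝ) / 80) = (T : ℝ) ^ ((4 : ℝ) / 5) * (T : ℝ) ^ ((3 : ℝ) / 16) := by
              rw [← Real.rpow_add hT0]; norm_num
            rw [this]; ring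
    calc _ ≤ M ^ 2 * (Real.log 4 * T) * (5 * T + 1 / 1000 * T) := by
          apply mul_le_mul_of_nonneg_left _ (by positivity)
          linarith
      _ = (Real.log 4 * 5.001) * (M ^ 2 * (T : ℝ) ^ 2) := by ring
      _ ≤ 7 * (M ^ 2 * (T : ℝ) ^ 2) := by
          apply mul_le_mul_of_nonneg_right _ (by positivity)
          linarith [log_four_lt]
      _ = _ := by ring
  have h7 : ∑ a ∈ sqA N, (SS c (zz T) T a / T) ^ 2 ≤ 7 * M ^ 2 := by
    have h5 : ∑ a ∈ sqA N, (SS c (zz T) T a / T) ^ 2 =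
        (∑ a ∈ sqA N, SS c (zz T) T a ^ 2) / (T : ℝ) ^ 2 := by
      rw [Finset.sum_div]
      exact Finset.sum_congr rfl fun a _ => div_pow _ _ _
    rw [h5, div_le_iff₀ (by positivity)]
    exact hb.trans h6
  -- one twist
  have h8 : ∀ a ∈ sqA N, DD t a T ^ 2 ≤ (SS c (zz T) T a / T) ^ 2 +
      EE M W T * (2 * (M * Real.log 4) + 1) := by
    intro a ha
    obtain ⟨⟨ha1, ha2⟩, ha3⟩ := mem_sqA.1 ha
    have hsub := h.DD_sub ha3.ne_zero (A := T) (T := T) (_root_.abs_le.2 ⟨by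
      have : N ≤ T := (Nat.le_self_pow (by norm_num) N).trans hN16
      omega, by
      have : N ≤ T := (Nat.le_self_pow (by norm_num) N).trans hN16
      omega⟩) (by omega)
    have k1 : Real.log (2 * T) ≤ 2 * Real.log T := by
      have e1 : (2 * (T : ℝ)) ≤ (T : ℝ) ^ 2 := by
        have : (2 : ℝ) ≤ T := by exact_mod_cast hT2
        nlinarith
      have e3 := Real.log_le_log (by positivity) e1
      rw [Real.log_pow] at e3
      exact_mod_cast e3
    have k2 := SF_sub hc (zz T) T a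
    have k3 : |DD t a T - SS c (zz T) T a / T| ≤ EE M W T := by
      have e1 : DD t a T - SS c (zz T) T a / T =
          ((DD t a T * T - SF c T a) + (SF c T a - SS c (zz T) T a)) / T := by
        field_simp
        ring
      rw [e1, abs_div, abs_of_pos hT0]
      unfold EE
      apply div_le_div_of_nonneg_right _ hT0.le
      refine (abs_add_le _ _).trans (add_le_add ?_ ?_)
      · refine hsub.trans ?_
        have := mul_le_mul_of_nonneg_left k1 hW
        linarith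
      · refine k2.trans ?_
        rw [← mul_assoc]
        exact mul_le_mul_of_nonneg_left (zz_le T) (by positivity)
    have k4 : |SS c (zz T) T a / T| ≤ M * Real.log 4 := by
      rw [abs_div, abs_of_pos hT0, div_le_iff₀ hT0]
      unfold SS
      calc _ ≤ ∑ p ∈ PRz (zz T) T, |ch a p * (c p * Real.log p)| :=
            Finset.abs_sum_le_sum_abs _ _
        _ ≤ ∑ p ∈ PRz (zz T) T, M * Real.log p := by
            refine Finset.sum_le_sum fun p hp => ?_
            have hp1 : p.Prime := by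
              unfold PRz at hp
              exact (Finset.mem_filter.1 (Finset.mem_filter.1 hp).1).2
            rw [abs_mul, abs_mul, abs_of_nonneg (log_nonneg' p)]
            calc |ch a p| * (|c p| * Real.log p) ≤ 1 * (M * Real.log p) := by
                  apply mul_le_mul (abs_ch_le a p) _
                    (mul_nonneg (abs_nonneg _) (log_nonneg' p)) zero_le_one
                  exact mul_le_mul_of_nonneg_right (hc p hp1) (log_nonneg' p)
              _ = _ := one_mul _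
        _ ≤ ∑ p ∈ PR T, M * Real.log p := by
            apply Finset.sum_le_sum_of_subset_of_nonneg
            · unfold PRz
              exact Finset.filter_subset _ _
            · intro p _ _
              exact mul_nonneg hM (log_nonneg' p)
        _ = M * ∑ p ∈ PR T, Real.log p := by rw [Finset.mul_sum]
        _ ≤ M * (Real.log 4 * T) := mul_le_mul_of_nonneg_left (sum_log_PR T) hM
        _ = _ := by ring
    obtain ⟨x, hx⟩ : ∃ x, x = DD t a T - SS c (zz T) T a / T := ⟨_, rfl⟩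
    obtain ⟨y, hy⟩ : ∃ y, y = SS c (zz T) T a / T := ⟨_, rfl⟩
    have e1 : DD t a T = x + y := by rw [hx, hy]; ring
    rw [← hx] at k3
    rw [← hy] at k4 ⊢
    rw [e1]
    have e2 : (x + y) ^ 2 = y ^ 2 + x * (x + 2 * y) := by ring
    rw [e2]
    have e3 : x * (x + 2 * y) ≤ |x| * (|x| + 2 * |y|) := by
      refine (le_abs_self _).trans ?_
      rw [abs_mul]
      apply mul_le_mul_of_nonneg_left _ (abs_nonneg _)
      refine (abs_add_le _ _).trans ?_
      rw [abs_mul, abs_two]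
    have e4 : |x| * (|x| + 2 * |y|) ≤ EE M W T * (2 * (M * Real.log 4) + 1) := by
      apply mul_le_mul k3 _ (by positivity) hE0
      linarith
    linarith
  have h9 : ∑ a ∈ sqA N, DD t a T ^ 2 ≤ ∑ a ∈ sqA N, ((SS c (zz T) T a / T) ^ 2 +
      EE M W T * (2 * (M * Real.log 4) + 1)) := Finset.sum_le_sum h8
  rw [Finset.sum_add_distrib, Finset.sum_const, nsmul_eq_mul] at h9
  have h10 : ((sqA N).card : ℝ) * (EE M W T * (2 * (M * Real.log 4) + 1)) ≤ δ := by
    have e1 := card_sqA hN1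
    have e2 : 0 ≤ EE M W T * (2 * (M * Real.log 4) + 1) := by positivity
    calc ((sqA N).card : ℝ) * (EE M W T * (2 * (M * Real.log 4) + 1)) ≤
        (3 * (T : ℝ) ^ ((1 : ℝ) / 16)) * (EE M W T * (2 * (M * Real.log 4) + 1)) :=
          mul_le_mul_of_nonneg_right (by linarith) e2
      _ = 3 * ((T : ℝ) ^ ((1 : ℝ) / 16) * EE M W T) * (2 * (M * Real.log 4) + 1) := by ring
      _ ≤ 3 * η * (2 * (M * Real.log 4) + 1) := by
          apply mul_le_mul_of_nonneg_right _ (by positivity)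
          linarith
      _ ≤ δ := hη
  linarith

/-- The theorem on sums of squares over quadratic twists of a surface. -/
theorem squares (d : ℕ) {M M₁ : ℝ} (hM0 : 0 ≤ M) (hM₁0 : 0 ≤ M₁) (δ : ℝ) : ∃ T₀ : ℕ, 0 < δ →
    ∀ (R : Type) [CommRing R] (_b : Module.Basis (Fin d) ℤ R)
      (P : ∀ p : ℕ, Set (R →+* ZMod p)) (n c : ℕ) (h : Fin c → MvPolynomial (Fin n) R)
      (f : MvPolynomial (Fin n) R), Bounds P h f M M₁ → ∀ T : ℕ, T₀ ≤ T →
      ∀ S : Finset ℤ, (∀ a ∈ S, Squarefree a ∧ |a| ^ 16 ≤ T) →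
        ∑ a ∈ S, dev P h f a T ^ 2 ≤ 7 * (d * M) ^ 2 + δ := by
  by_cases hδ : 0 < δ
  · obtain ⟨T₀, hT₀⟩ := Tw.squares (M := d * M) (W := d * M₁) (by positivity) (by positivity) hδ
    refine ⟨T₀, fun _ R _ b P n c h f hM T hT S hS => ?_⟩
    have h1 := hT₀ _ _ (TwP b P h f hM0 hM₁0 hM) T hT S fun a ha => ⟨(hS a ha).1, by
      have h2 := (hS a ha).2
      rw [Int.abs_eq_natAbs] at h2
      exact_mod_cast h2⟩
    refine le_trans (le_of_eq ?_) h1
    refine Finset.sum_congr rfl fun a _ => ?_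
    unfold dev
    rw [DD_tgP b P h f a T]
  · exact ⟨0, fun h => absurd h hδ⟩

end Pool.Agent.Helper29.UT
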