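import Pool.Agent.Helper29.QT.BaseDefs

set_option autoImplicit false

namespace Pool.Agent.Helper29.UT

/-- The average up to `T` of the traces `β p φ` twisted by the quadratic character `(a / p)` (the
Jacobi symbol), over the primes of degree one above the odd primes `p`. -/
noncomputable def twistAvg {R : Type} [CommRing R] (T : ℕ) (a : ℤ)
    (β : ∀ p : ℕ, (R →+* ZMod p) → ℝ) : ℝ :=
  (∑ p ∈ (Finset.Icc 1 T).filter (fun p : ℕ => p.Prime ∧ p ≠ 2),
    ∑ᶠ φ : R →+* ZMod p, (jacobiSym a p : ℝ) * β p φ * Real.log p / p) / T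

end Pool.Agent.Helper29.UT
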