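import Pool.Agent.Helper29.UT.Base
import Pool.Agent.Helper29.UT.TrDefs

/-!
# The counting theorem for twisted traces
-/

set_option autoImplicit false

namespace Pool.Agent.Helper29.UT

open Finset MvPolynomial Filter Topology Pool.Agent.Helper29.QT

variable {R : Type} [CommRing R] {d : ℕ}

/-- The terms of the twisted average. -/
noncomputable def tt (β : ∀ p : ℕ, (R →+* ZMod p) → ℝ) (p : ℕ) (a : ℤ) : ℝ :=
  ch a p * cb β p

lemma ch_congr {p : ℕ} (hp : p.Prime) {a a' : ℤ} (h : (a : ZMod p) = (a' : ZMod p)) :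
    ch a p = ch a' p := by
  by_cases hodd : Odd p
  · have hpp : Fact p.Prime := ⟨hp⟩
    rw [ch_odd a hodd, ch_odd a' hodd, ← jacobiSym.legendreSym.to_jacobiSym,
      ← jacobiSym.legendreSym.to_jacobiSym]
    unfold legendreSym
    rw [h]
  · unfold ch
    rw [if_neg hodd, if_neg hodd]

lemma DD_tt (b : Module.Basis (Fin d) ℤ R) (β : ∀ p : ℕ, (R →+* ZMod p) → ℝ) (a : ℤ) (T : ℕ) :
    twistAvg T a β = DD (tt β) a T := by
  classical
  unfold twistAvg DD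
  congr 1
  have h1 : (Icc 1 T).filter (fun p : ℕ => p.Prime ∧ p ≠ 2) =
      (PR T).filter (fun p : ℕ => p ≠ 2) := by
    unfold PR
    rw [Finset.filter_filter]
  rw [h1, Finset.sum_filter]
  refine Finset.sum_congr rfl fun p hp => ?_
  have hp1 : p.Prime := (Finset.mem_filter.1 hp).2
  have hpp : Fact p.Prime := ⟨hp1⟩
  have hfin : Finite (R →+* ZMod p) := Pool.Agent.Helper29.LN.hom_finite b
  have hft := Fintype.ofFinite (R →+* ZMod p)
  unfold tt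
  split_ifs with h2
  · rw [ch_odd a (hp1.odd_of_ne_two h2)]
    unfold cb
    rw [finsum_eq_sum_of_fintype, finsum_eq_sum_of_fintype, Finset.mul_sum, Finset.mul_sum]
    refine Finset.sum_congr rfl fun φ _ => ?_
    ring
  · have h3 : p = 2 := not_not.1 h2
    have h4 : ch a p = 0 := by
      unfold ch
      rw [if_neg]
      rw [h3]
      decide
    rw [h4]
    ring

/-- Base change is a twist. -/
lemma avg_baseChange (b : Module.Basis (Fin d) ℤ R) (β : ∀ p : ℕ, (R →+* ZMod p) → ℝ) (a : ℤ)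
    (T : ℕ) : avg T (baseChange a β) = avg T β + twistAvg T a β := by
  have h1 := DD_tb b β a T
  rw [DD_tt b]
  have h2 : DD (tb β) a T = DD (tt β) a T := by
    unfold DD
    congr 1
    refine Finset.sum_congr rfl fun p hp => ?_
    have hp1 : p.Prime := (Finset.mem_filter.1 hp).2
    have hpp : Fact p.Prime := ⟨hp1⟩
    congr 1
    unfold tb tt
    by_cases ha : (p : ℤ) ∣ 2 * a
    · rw [nr_dvd hp1 ha, ch_dvd hp1 ha]
      ring
    · have hne : p ≠ 2 := by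
        rintro rfl
        exact ha (Dvd.intro a rfl)
      rw [nr_eq, card_roots hne a]
      ring
  rw [← h2, ← h1]
  ring

lemma Tw_tt (b : Module.Basis (Fin d) ℤ R) (β : ∀ p : ℕ, (R →+* ZMod p) → ℝ) {M : ℝ}
    (hM0 : 0 ≤ M) (hM : ∀ p : ℕ, p.Prime → ∀ φ : R →+* ZMod p, |β p φ| ≤ M * p) :
    Tw (tt β) (cb β) (d * M) 0 := by
  refine ⟨le_rfl, fun p hp => abs_cb_le b hM0 hp fun φ => hM p hp φ, ?_, ?_, ?_⟩
  · intro p hp a a' haa
    unfold tt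
    rw [ch_congr hp haa]
  · intro p _ a _
    rfl
  · intro p hp a ha
    unfold tt
    rw [ch_dvd hp ha, zero_mul, abs_zero]

/-- The theorem on twisted traces, uniform in the traces. -/
theorem traces (d : ℕ) {M : ℝ} (hM0 : 0 ≤ M) {ε : ℝ} (hε : 0 < ε) :
    ∃ C : ℝ, 0 < C ∧ ∀ (R : Type) [CommRing R] (_b : Module.Basis (Fin d) ℤ R)
      (β : ∀ p : ℕ, (R →+* ZMod p) → ℝ),
    (∀ p : ℕ, p.Prime → ∀ φ : R →+* ZMod p, |β p φ| ≤ M * p) →
    (∀ A T₀ T₁ : ℕ, 1 ≤ A → 2 ≤ T₀ → T₀ ≤ T₁ →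
      (Nat.card {a : ℤ // Squarefree a ∧ |a| ≤ A ∧ ∃ T : ℕ, T₀ ≤ T ∧ T ≤ T₁ ∧
        ε < |twistAvg T a β|} : ℝ) ≤ C *
        (A * Real.log T₀ ^ 4 / T₀ + Real.log A ^ 13 + Real.log T₁)) ∧
    (∀ A T₀ T₁ : ℕ, 1 ≤ A → 2 ≤ T₀ → T₀ ≤ T₁ → A ^ 16 ≤ T₀ →
      (Nat.card {a : ℤ // Squarefree a ∧ |a| ≤ A ∧ ∃ T : ℕ, T₀ ≤ T ∧ T ≤ T₁ ∧
        ε < |twistAvg T a β|} : ℝ) ≤ C * (1 + Real.log (T₁ / T₀))) ∧
    (∀ K : ℕ, 1 ≤ K → ∃ E : Finset ℤ, (E.card : ℝ) ≤ C * (1 + Real.log K) ∧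
      ∀ a : ℤ, Squarefree a → a ∉ E → ∃ᶠ X : ℕ in atTop,
        ∀ T : ℕ, X ≤ K * T → T ≤ X → |twistAvg T a β| ≤ ε) := by
  obtain ⟨C, hC, hmain⟩ := Tw.main (M := d * M) (W := 0) (by positivity) le_rfl hε
  refine ⟨C, hC, ?_⟩
  intro R _ b β hM
  exact hmain _ _ (Tw_tt b β hM0 hM) (fun a T => twistAvg T a β) (fun a T => DD_tt b β a T)

/-- The theorem on weighted sums of twisted traces. -/
theorem traces_weighted (b : Module.Basis (Fin d) ℤ R)
    (β : ∀ p : ℕ, (R →+* ZMod p) → ℝ) {M : ℝ} (hM0 : 0 ≤ M)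
    (hM : ∀ p : ℕ, p.Prime → ∀ φ : R →+* ZMod p, |β p φ| ≤ M * p)
    (S : Finset ℤ) (hS : ∀ a ∈ S, Squarefree a) (m : ℤ → ℝ) {δ : ℝ} (hδ : 0 < δ) :
    ∀ᶠ T : ℕ in atTop, |∑ a ∈ S, m a * twistAvg T a β| ≤
      d * M * Real.sqrt (7 * ∑ a ∈ S, m a ^ 2) + δ := by
  filter_upwards [extensions_weighted b β hM0 (Filter.Eventually.of_forall hM) S hS m hδ]
    with T hT
  have h1 : ∀ a ∈ S, m a * (avg T (baseChange a β) - avg T β) = m a * twistAvg T a β := by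
    intro a _
    rw [avg_baseChange b]
    ring
  rwa [Finset.sum_congr rfl h1] at hT

end Pool.Agent.Helper29.UT
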