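import Pool.Agent.Helper29.UT.Often

/-!
# The number of exceptional twists above the square root of the height, with explicit dependence
on the size of the deviation
-/

set_option autoImplicit false

namespace Pool.Agent.Helper29.UT

open Finset Filter Topology Pool.Agent.Helper29.QT Pool.Agent.Helper29.TT

/-- A power of `log` is smaller than a power of `x`, with a negative power as a bound. -/
lemma ev_log_pow (K : ℝ) : ∀ᶠ x : ℕ in atTop,
    K * (Real.log x * (x : ℝ) ^ ((4 : ℝ) / 5)) ≤ (x : ℝ) ^ (-((1 : ℝ) / 7)) * x := by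
  have h1 : Tendsto (fun x : ℝ => Real.log x / x ^ ((2 : ℝ) / 35)) atTop (𝓝 0) :=
    (isLittleO_log_rpow_atTop (by norm_num : (0 : ℝ) < 2 / 35)).tendsto_div_nhds_zero
  have h2 := (h1.comp tendsto_natCast_atTop_atTop).eventually
    (Metric.ball_mem_nhds (0 : ℝ) (by positivity : 0 < 1 / (|K| + 1)))
  filter_upwards [h2, eventually_ge_atTop 1] with x hx hx1
  have hx0 : (0 : ℝ) < x := by exact_mod_cast hx1
  have h3 := Metric.mem_ball.1 hx
  rw [Real.dist_eq, sub_zero, Function.comp_apply] at h3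
  have h4 := (le_abs_self _).trans h3.le
  have h5 : 0 < (x : ℝ) ^ ((2 : ℝ) / 35) := Real.rpow_pos_of_pos hx0 _
  rw [div_le_iff₀ h5, one_div, inv_mul_eq_div, le_div_iff₀ (by positivity)] at h4
  have h6 : 0 < (x : ℝ) ^ ((4 : ℝ) / 5) := Real.rpow_pos_of_pos hx0 _
  have h7 : (x : ℝ) ^ (-((1 : ℝ) / 7)) * x = (x : ℝ) ^ ((2 : ℝ) / 35) * (x : ℝ) ^ ((4 : ℝ) / 5) := by
    conv_lhs => rw [← Real.rpow_one (x : ℝ)]
    rw [← Real.rpow_mul hx0.le, ← Real.rpow_add hx0, ← Real.rpow_add hx0]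
    norm_num
  rw [h7, ← mul_assoc]
  apply mul_le_mul_of_nonneg_right _ h6.le
  have h8 := log_nonneg' x
  have h9 : K * Real.log x ≤ (|K| + 1) * Real.log x := by
    apply mul_le_mul_of_nonneg_right _ h8
    linarith [le_abs_self K]
  linarith

/-- Short intervals contain few primes, with explicit dependence on the length. -/
lemma sum_log_short' {δ : ℝ} (hδ1 : δ ≤ 1) {x t : ℕ} (hx2 : 2 ≤ x)
    (hcond : 4 * (Real.log x * (x : ℝ) ^ ((4 : ℝ) / 5)) ≤ δ * x) (hxt : x ≤ t)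
    (ht : (t : ℝ) ≤ (1 + δ) * x) :
    ∑ p ∈ (Ioc x t).filter Nat.Prime, Real.log p ≤ 11 * δ * x := by
  have hxR : (2 : ℝ) ≤ x := by exact_mod_cast hx2
  have hlx : 0 < Real.log x := Real.log_pos (by linarith)
  have hlt : Real.log t ≤ 2 * Real.log x := by
    have h4 : (t : ℝ) ≤ (x : ℝ) ^ 2 := by nlinarith
    have h5 : (0 : ℝ) < t := by
      have : (x : ℝ) ≤ t := by exact_mod_cast hxt
      linarith
    have h6 := Real.log_le_log h5 h4
    rw [Real.log_pow] at h6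
    exact_mod_cast h6
  have hd : (0 : ℝ) ≤ (t : ℝ) - x := by
    have : (x : ℝ) ≤ t := by exact_mod_cast hxt
    linarith
  have hz : (0 : ℝ) ≤ (zz x : ℝ) ^ 4 := by positivity
  have hz2 : Real.log x * (zz x : ℝ) ^ 4 ≤ Real.log x * (x : ℝ) ^ ((4 : ℝ) / 5) :=
    mul_le_mul_of_nonneg_left (zz_pow_le x) hlx.le
  calc _ ≤ Real.log t * (5 * ((t : ℝ) - x) / Real.log x + 2 * (zz x : ℝ) ^ 4) :=
        sum_log_Ioc hx2 hxt
    _ ≤ (2 * Real.log x) * (5 * ((t : ℝ) - x) / Real.log x + 2 * (zz x : ℝ) ^ 4) := by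
        apply mul_le_mul_of_nonneg_right hlt
        positivity
    _ = 10 * ((t : ℝ) - x) + 4 * (Real.log x * (zz x : ℝ) ^ 4) := by
        field_simp
        ring
    _ ≤ 10 * (δ * x) + δ * x := by
        have : (t : ℝ) - x ≤ δ * x := by linarith
        linarith
    _ = _ := by ring

/-- Reduction to the scales of the grid, with explicit constants. -/
lemma to_grid' {c : ℕ → ℝ} {M : ℝ} (hc : ∀ p : ℕ, p.Prime → |c p| ≤ M) {ε δ : ℝ}
    (hδ : 0 < δ) (hδ1 : δ ≤ 1) (hMδ : 11 * δ * M ≤ ε / 2)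
    {T : ℕ} (hT : 1 ≤ T) (hX2 : 2 ≤ gr δ (ix δ T))
    (hcond : 4 * (Real.log (gr δ (ix δ T)) * ((gr δ (ix δ T) : ℕ) : ℝ) ^ ((4 : ℝ) / 5)) ≤
      δ * (gr δ (ix δ T) : ℕ)) (hε : 0 < ε) {a : ℤ}
    (h : ε * T < |SF c T a|) : ε / 2 * gr δ (ix δ T) < |SF c (gr δ (ix δ T)) a| := by
  have hM : 0 ≤ M := (abs_nonneg _).trans (hc 2 Nat.prime_two)
  obtain ⟨G, hG⟩ : ∃ G, G = gr δ (ix δ T) := ⟨_, rfl⟩
  rw [← hG] at hX2 hcond ⊢
  have hGT : G ≤ T := by rw [hG]; exact gr_ix_le hδ hT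
  have hTG : (T : ℝ) ≤ (1 + δ) * G := by rw [hG]; exact le_gr_ix hδ hT
  have h1 := SF_near hc hGT a
  have h2 := mul_le_mul_of_nonneg_left (sum_log_short' hδ1 hX2 hcond hGT hTG) hM
  have h3 : |SF c T a| ≤ |SF c T a - SF c G a| + |SF c G a| := by
    have := abs_add_le (SF c T a - SF c G a) (SF c G a)
    rw [sub_add_cancel] at this
    exact this
  have h4 : (G : ℝ) ≤ T := by exact_mod_cast hGT
  have hG0 : (0 : ℝ) ≤ G := Nat.cast_nonneg G
  have h5 : M * (11 * δ * G) ≤ ε / 2 * G := by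
    have := mul_le_mul_of_nonneg_right hMδ hG0
    linarith
  have h6 : ε * G ≤ ε * T := mul_le_mul_of_nonneg_left h4 hε.le
  linarith

open Classical in
/-- At a large scale the number of exceptional twists is bounded, uniformly in `ε`. -/
lemma bad_high' {M : ℝ} {c : ℕ → ℝ} (hc : ∀ p : ℕ, p.Prime → |c p| ≤ M) {ε : ℝ} (hε : 0 < ε)
    {G A : ℕ} (hG2 : 2 ≤ G)
    (h2 : M * Real.log 4 * (G : ℝ) ^ ((1 : ℝ) / 5) ≤ ε / 500 * G)
    (h3 : Real.log G * (26 * (G : ℝ) ^ ((79 : ℝ) / 80)) ≤ 1 / 1000 * G) (hA : A ^ 16 ≤ 2 * G) :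
    (((sqA A).filter fun a => ε * G < |SF c G a|).card : ℝ) * ε ^ 2 ≤ 7 * M ^ 2 := by
  have hM : 0 ≤ M := (abs_nonneg _).trans (hc 2 Nat.prime_two)
  have hG0 : (0 : ℝ) < G := by exact_mod_cast (by omega : 0 < G)
  have hlG := log_nonneg' G
  rcases Nat.eq_zero_or_pos A with rfl | hA1
  · have : (sqA 0).filter (fun a => ε * G < |SF c G a|) = ∅ := by
      rw [Finset.filter_eq_empty_iff]
      intro a ha
      have h4 := mem_sqA.1 ha
      have h5 : a = 0 := by omega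
      exact absurd h5 h4.2.ne_zero
    rw [this, Finset.card_empty, Nat.cast_zero, zero_mul]
    positivity
  have hb := bessel hc (one_le_zz (by omega : 1 ≤ G)) (lt_zz G) (sqA A)
    (fun a ha => (mem_sqA.1 ha).2) sqA_prod
  have h4 : ∀ a ∈ (sqA A).filter (fun a => ε * G < |SF c G a|),
      (996 / 1000 * ε ^ 2) * (G : ℝ) ^ 2 ≤ SS c (zz G) G a ^ 2 := by
    intro a ha
    obtain ⟨ha1, ha2⟩ := Finset.mem_filter.1 ha
    have h6 := SF_sub hc (zz G) G a
    have h7 : M * (Real.log 4 * (zz G : ℝ)) ≤ ε / 500 * G := by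
      refine le_trans ?_ h2
      rw [← mul_assoc]
      apply mul_le_mul_of_nonneg_left (zz_le G)
      have : 0 ≤ Real.log 4 := Real.log_nonneg (by norm_num)
      positivity
    have h8 : 998 / 1000 * ε * G ≤ |SS c (zz G) G a| := by
      have h9 : |SF c G a| ≤ |SF c G a - SS c (zz G) G a| + |SS c (zz G) G a| := by
        have := abs_add_le (SF c G a - SS c (zz G) G a) (SS c (zz G) G a)
        rw [sub_add_cancel] at this
        exact this
      linarith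
    rw [← sq_abs (SS c (zz G) G a)]
    refine le_trans ?_ (pow_le_pow_left₀ (by positivity) h8 2)
    have : 0 ≤ ε ^ 2 * (G : ℝ) ^ 2 := by positivity
    nlinarith
  have h5 : (((sqA A).filter fun a => ε * G < |SF c G a|).card : ℝ) *
      ((996 / 1000 * ε ^ 2) * (G : ℝ) ^ 2) ≤ ∑ a ∈ sqA A, SS c (zz G) G a ^ 2 := by
    rw [← nsmul_eq_mul, ← Finset.sum_const]
    exact (Finset.sum_le_sum h4).trans
      (Finset.sum_le_sum_of_subset_of_nonneg (Finset.filter_subset _ _) fun _ _ _ => sq_nonneg _)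
  have h6 : M ^ 2 * (Real.log 4 * G) * (5 * G + Real.log G * ((zz G : ℝ) ^ 4 *
      (1 + (sqA A).card * (4 * (A : ℝ) ^ 2)))) ≤ 6.94 * M ^ 2 * (G : ℝ) ^ 2 := by
    have h7 : Real.log G * ((zz G : ℝ) ^ 4 * (1 + (sqA A).card * (4 * (A : ℝ) ^ 2))) ≤
        1 / 1000 * G := by
      refine le_trans ?_ h3
      apply mul_le_mul_of_nonneg_left _ hlG
      have e1 := card_sqA hA1
      have e2 : (1 : ℝ) ≤ A := by exact_mod_cast hA1
      have e3 : 1 + ((sqA A).card : ℝ) * (4 * (A : ℝ) ^ 2) ≤ 13 * (A : ℝ) ^ 3 := by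
        have e4 : ((sqA A).card : ℝ) * (4 * (A : ℝ) ^ 2) ≤ 3 * A * (4 * (A : ℝ) ^ 2) :=
          mul_le_mul_of_nonneg_right e1 (by positivity)
        have e5 : (1 : ℝ) ≤ (A : ℝ) ^ 3 := one_le_pow₀ e2
        nlinarith
      have e4 : 1 + ((sqA A).card : ℝ) * (4 * (A : ℝ) ^ 2) ≤
          26 * (G : ℝ) ^ ((3 : ℝ) / 16) := by
        have := cube_le (by omega : 1 ≤ G) hA
        linarith
      calc (zz G : ℝ) ^ 4 * (1 + ((sqA A).card : ℝ) * (4 * (A : ℝ) ^ 2)) ≤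
          (G : ℝ) ^ ((4 : ℝ) / 5) * (26 * (G : ℝ) ^ ((3 : ℝ) / 16)) :=
            mul_le_mul (zz_pow_le G) e4 (by positivity) (Real.rpow_nonneg hG0.le _)
        _ = 26 * (G : ℝ) ^ ((79 : ℝ) / 80) := by
            have : (G : ℝ) ^ ((79 : ℝ) / 80) = (G : ℝ) ^ ((4 : ℝ) / 5) * (G : ℝ) ^ ((3 : ℝ) / 16) := by
              rw [← Real.rpow_add hG0]; norm_num
            rw [this]; ring
    calc _ ≤ M ^ 2 * (Real.log 4 * G) * (5 * G + 1 / 1000 * G) := by
          apply mul_le_mul_of_nonneg_left _ (by positivity)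
          linarith
      _ = (Real.log 4 * 5.001) * (M ^ 2 * (G : ℝ) ^ 2) := by ring
      _ ≤ 6.94 * (M ^ 2 * (G : ℝ) ^ 2) := by
          apply mul_le_mul_of_nonneg_right _ (by positivity)
          linarith [log_four_lt]
      _ = _ := by ring
  have h7 := (h5.trans hb).trans h6
  have h8 : (((sqA A).filter fun a => ε * G < |SF c G a|).card : ℝ) * (996 / 1000 * ε ^ 2) ≤
      6.94 * M ^ 2 := by
    have h9 : (0 : ℝ) < (G : ℝ) ^ 2 := by positivity
    apply le_of_mul_le_mul_right _ h9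
    linarith
  nlinarith [sq_nonneg M]

/-- The conditions on the scale. -/
lemma exists_scale' {M : ℝ} (hM : 0 ≤ M) {W : ℝ} (hW : 0 ≤ W) : ∃ S : ℕ, 2 ≤ S ∧ ∀ G : ℕ, S ≤ G →
    ∀ ε : ℝ, (G : ℝ) ^ (-((1 : ℝ) / 7)) ≤ 2 * ε →
      4 * (Real.log G * (G : ℝ) ^ ((4 : ℝ) / 5)) ≤ ε / (44 * (M + 1)) * G ∧
      M * Real.log 4 * (G : ℝ) ^ ((1 : ℝ) / 5) ≤ ε / 4 / 500 * G ∧
      Real.log G * (26 * (G : ℝ) ^ ((79 : ℝ) / 80)) ≤ 1 / 1000 * G ∧
      W * (3 * Real.log G) ≤ ε / 2 * G := by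
  have h1 := ev_log_pow (2 * 4 * (44 * (M + 1)))
  have h2 := ev_log_pow (2 * 2000 * (M * Real.log 4) / Real.log 2)
  have h3 := ev_log_pow (2 * 6 * W)
  obtain ⟨S, hS⟩ := Filter.eventually_atTop.1 (h1.and (h2.and (h3.and log_mul_le)))
  refine ⟨max S 2, le_max_right _ _, fun G hG ε hε => ?_⟩
  obtain ⟨g1, g2, g3, g4⟩ := hS G ((le_max_left _ _).trans hG)
  have hG2 : 2 ≤ G := (le_max_right _ _).trans hG
  have hG0 : (0 : ℝ) < G := by exact_mod_cast (by omega : 0 < G)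
  have hG1 : (1 : ℝ) ≤ G := by exact_mod_cast (by omega : 1 ≤ G)
  have hl2 : 0 < Real.log 2 := Real.log_pos (by norm_num)
  have hl4 : 0 ≤ Real.log 4 := Real.log_nonneg (by norm_num)
  have hL : Real.log 2 ≤ Real.log G := Real.log_le_log (by norm_num) (by exact_mod_cast hG2)
  have hL0 : 0 ≤ Real.log G := log_nonneg' G
  have hP : 1 ≤ (G : ℝ) ^ ((4 : ℝ) / 5) := Real.one_le_rpow hG1 (by norm_num)
  have hP2 : (G : ℝ) ^ ((1 : ℝ) / 5) ≤ (G : ℝ) ^ ((4 : ℝ) / 5) :=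
    Real.rpow_le_rpow_of_exponent_le hG1 (by norm_num)
  have hR : (G : ℝ) ^ (-((1 : ℝ) / 7)) * G ≤ 2 * ε * G := mul_le_mul_of_nonneg_right hε hG0.le
  have k1 := g1.trans hR
  have k2 := g2.trans hR
  have k3 := g3.trans hR
  obtain ⟨Y, hY⟩ : ∃ Y, Y = Real.log G * (G : ℝ) ^ ((4 : ℝ) / 5) := ⟨_, rfl⟩
  rw [← hY] at k1 k2 k3 ⊢
  refine ⟨?_, ?_, g4, ?_⟩
  · rw [div_mul_eq_mul_div, le_div_iff₀ (by positivity)]
    linarith
  · have e1 : M * Real.log 4 * (G : ℝ) ^ ((1 : ℝ) / 5) ≤ (M * Real.log 4) / Real.log 2 * Y := by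
      rw [hY, div_mul_eq_mul_div, le_div_iff₀ hl2]
      calc M * Real.log 4 * (G : ℝ) ^ ((1 : ℝ) / 5) * Real.log 2 ≤
          M * Real.log 4 * (G : ℝ) ^ ((4 : ℝ) / 5) * Real.log G := by
            apply mul_le_mul _ hL hl2.le (by positivity)
            exact mul_le_mul_of_nonneg_left hP2 (by positivity)
        _ = _ := by ring
    have e2 : 2 * 2000 * (M * Real.log 4) / Real.log 2 * Y =
        4000 * ((M * Real.log 4) / Real.log 2 * Y) := by ring
    rw [e2] at k2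
    linarith
  · have e1 : W * (3 * Real.log G) ≤ 3 * W * Y := by
      rw [hY]
      calc W * (3 * Real.log G) = 3 * W * Real.log G * 1 := by ring
        _ ≤ 3 * W * Real.log G * (G : ℝ) ^ ((4 : ℝ) / 5) :=
            mul_le_mul_of_nonneg_left hP (by positivity)
        _ = _ := by ring
    linarith

/-- From the size of the twists to the size of the scale. -/
lemma pow_le_of_sq {A G : ℕ} (hA : 1 ≤ A) (h : A ≤ 4 * G ^ 2) {ε : ℝ}
    (hε : (A : ℝ) ^ (-((1 : ℝ) / 14)) ≤ ε) : (G : ℝ) ^ (-((1 : ℝ) / 7)) ≤ 2 * ε := by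
  have hG : 1 ≤ G := by
    by_contra hG
    have : G = 0 := by omega
    rw [this] at h
    omega
  have hA0 : (0 : ℝ) < A := by exact_mod_cast hA
  have hG0 : (0 : ℝ) < G := by exact_mod_cast hG
  have h1 : (A : ℝ) ≤ (2 * (G : ℝ)) ^ 2 := by
    have : (A : ℝ) ≤ 4 * (G : ℝ) ^ 2 := by exact_mod_cast h
    linarith [this, (by ring : (2 * (G : ℝ)) ^ 2 = 4 * (G : ℝ) ^ 2)]
  have h2 : ((2 * (G : ℝ)) ^ 2) ^ (-((1 : ℝ) / 14)) ≤ (A : ℝ) ^ (-((1 : ℝ) / 14)) :=
    Real.rpow_le_rpow_of_nonpos hA0 h1 (by norm_num)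
  have h3 : ((2 * (G : ℝ)) ^ 2) ^ (-((1 : ℝ) / 14)) =
      (2 : ℝ) ^ (-((1 : ℝ) / 7)) * (G : ℝ) ^ (-((1 : ℝ) / 7)) := by
    rw [← Real.rpow_natCast, ← Real.rpow_mul (by positivity), Real.mul_rpow (by norm_num) hG0.le]
    norm_num
  have h4 : (1 : ℝ) / 2 ≤ (2 : ℝ) ^ (-((1 : ℝ) / 7)) := by
    calc (1 : ℝ) / 2 = (2 : ℝ) ^ (-(1 : ℝ)) := by rw [Real.rpow_neg_one]; norm_num
      _ ≤ _ := Real.rpow_le_rpow_of_exponent_le (by norm_num) (by norm_num)
  have h5 : 0 < (G : ℝ) ^ (-((1 : ℝ) / 7)) := Real.rpow_pos_of_pos hG0 _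
  rw [h3] at h2
  nlinarith

open Classical in
/-- **Many scales above the square root of the height.** -/
theorem Tw.far {M W : ℝ} (hM : 0 ≤ M) (hW : 0 ≤ W) : ∃ (C : ℝ) (A₀ : ℕ), 0 ≤ C ∧
    ∀ (t : ℕ → ℤ → ℝ) (c : ℕ → ℝ), Tw t c M W → ∀ A : ℕ, A₀ ≤ A →
    ∀ ε : ℝ, (A : ℝ) ^ (-((1 : ℝ) / 14)) ≤ ε → ε ≤ 1 → ∀ T₁ : ℕ,
      (((sqA A).filter fun a => ∃ T : ℕ, A ≤ T ^ 2 ∧ T ≤ T₁ ∧ ε < |DD t a T|).card : ℝ) ≤
        C * (Real.log A ^ 13 / ε ^ 13 + (1 + Real.log T₁) / ε ^ 3) := by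
  obtain ⟨S, hS2, hS⟩ := exists_scale' hM hW
  obtain ⟨L, hL⟩ : ∃ L : ℝ, L = 44 * (M + 1) := ⟨_, rfl⟩
  have hL0 : 0 < L := by rw [hL]; positivity
  have hL44 : 44 ≤ L := by rw [hL]; linarith
  obtain ⟨K, hK⟩ : ∃ K : ℝ, K = 112 * M ^ 2 := ⟨_, rfl⟩
  have hK0 : 0 ≤ K := by rw [hK]; positivity
  obtain ⟨D, hD⟩ : ∃ D : ℝ, D = 10 ^ 10 * (4 * M) ^ 12 * 16 ^ 12 := ⟨_, rfl⟩
  have hD0 : 0 ≤ D := by rw [hD]; positivity
  refine ⟨K * (2 * L) + D * (33 * L), 4 * S ^ 2 + 3, by positivity, ?_⟩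
  intro t c h A hA ε hεA hε1 T₁
  have hA3 : 3 ≤ A := by omega
  have hA0 : (0 : ℝ) < A := by exact_mod_cast (by omega : 0 < A)
  have hlA : 1 ≤ Real.log A := by
    rw [Real.le_log_iff_exp_le hA0]
    have : (3 : ℝ) ≤ A := by exact_mod_cast hA3
    linarith [Real.exp_one_lt_d9]
  have hε : 0 < ε := lt_of_lt_of_le (Real.rpow_pos_of_pos hA0 _) hεA
  obtain ⟨δ, hδD⟩ : ∃ δ, δ = ε / L := ⟨_, rfl⟩
  have hδ : 0 < δ := by rw [hδD]; positivity
  have hδ1 : δ ≤ 1 := by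
    rw [hδD, div_le_one hL0]
    linarith
  have hMδ : 11 * δ * M ≤ ε / 2 / 2 := by
    have e1 : 11 * δ * M = ε / 4 * (M / (M + 1)) := by
      rw [hδD, hL]
      field_simp
      ring
    rw [e1]
    have e2 : M / (M + 1) ≤ 1 := by
      rw [div_le_one (by linarith)]
      linarith
    nlinarith
  have hc := h.bound
  obtain ⟨J, hJ⟩ : ∃ J, J = (Icc 0 (ix δ T₁)).filter fun j => A ≤ 4 * gr δ j ^ 2 := ⟨_, rfl⟩
  have hbig : ∀ G : ℕ, A ≤ 4 * G ^ 2 → S ≤ G := by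
    intro G hG
    by_contra hlt
    push Not at hlt
    have : G ^ 2 ≤ S ^ 2 := Nat.pow_le_pow_left hlt.le 2
    omega
  have hsub : ((sqA A).filter fun a => ∃ T : ℕ, A ≤ T ^ 2 ∧ T ≤ T₁ ∧ ε < |DD t a T|) ⊆
      J.biUnion fun j => (sqA A).filter fun a => ε / 4 * gr δ j < |SF c (gr δ j) a| := by
    intro a ha
    obtain ⟨ha1, T, h1, h2, h3⟩ := Finset.mem_filter.1 ha
    rw [Finset.mem_biUnion]
    have hT1 : 1 ≤ T := by
      by_contra hT
      have : T = 0 := by omega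
      rw [this] at h1
      omega
    have hTA : A ≤ 4 * T ^ 2 := by omega
    have hST := hbig T hTA
    obtain ⟨-, -, -, hsc⟩ := hS T hST ε (pow_le_of_sq (by omega) hTA hεA)
    have hT0 : (0 : ℝ) < T := by exact_mod_cast hT1
    -- from the normalised sum to the sum over the primes
    have h4 : ε / 2 * T < |SF c T a| := by
      obtain ⟨⟨ha2, ha3⟩, ha4⟩ := mem_sqA.1 ha1
      have h5 := h.DD_sub ha4.ne_zero (A := A) (T := T) (_root_.abs_le.2 ⟨ha2, ha3⟩) hT1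
      have h6 : Real.log (2 * A) ≤ 3 * Real.log T := by
        have e1 : (2 * (A : ℝ)) ≤ (T : ℝ) ^ 3 := by
          have : 2 * A ≤ T ^ 3 := by
            calc 2 * A ≤ T * T ^ 2 := Nat.mul_le_mul (hS2.trans hST) h1
              _ = T ^ 3 := by ring
          exact_mod_cast this
        have e3 := Real.log_le_log (by positivity) e1
        rw [Real.log_pow] at e3
        exact_mod_cast e3
      have h7 : W * Real.log (2 * A) ≤ ε / 2 * T :=
        (mul_le_mul_of_nonneg_left h6 hW).trans hsc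
      have h8 : |DD t a T * T| ≤ |DD t a T * T - SF c T a| + |SF c T a| := by
        have := abs_add_le (DD t a T * T - SF c T a) (SF c T a)
        rw [sub_add_cancel] at this
        exact this
      rw [abs_mul, abs_of_pos hT0] at h8
      have h9 : ε * T < |DD t a T| * T := mul_lt_mul_of_pos_right h3 hT0
      linarith
    have h5 := le_gr_ix hδ hT1
    have h6 : (T : ℝ) ≤ 2 * gr δ (ix δ T) :=
      h5.trans (mul_le_mul_of_nonneg_right (by linarith) (Nat.cast_nonneg _))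
    have h7 : T ≤ 2 * gr δ (ix δ T) := by exact_mod_cast h6
    have h8 : A ≤ 4 * gr δ (ix δ T) ^ 2 := by
      have h9 : T ^ 2 ≤ (2 * gr δ (ix δ T)) ^ 2 := Nat.pow_le_pow_left h7 2
      have h10 : (2 * gr δ (ix δ T)) ^ 2 = 4 * gr δ (ix δ T) ^ 2 := by ring
      omega
    have h9 := hbig _ h8
    obtain ⟨hs1, -, -, -⟩ := hS _ h9 ε (pow_le_of_sq (by omega) h8 hεA)
    rw [← hL, ← hδD] at hs1
    refine ⟨ix δ T, ?_, ?_⟩
    · rw [hJ, Finset.mem_filter, Finset.mem_Icc]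
      exact ⟨⟨Nat.zero_le _, ix_mono hδ hT1 h2⟩, h8⟩
    · rw [Finset.mem_filter]
      refine ⟨ha1, ?_⟩
      have h10 := to_grid' hc hδ hδ1 hMδ hT1 (hS2.trans h9) hs1 (half_pos hε) h4
      have e1 : ε / 2 / 2 = ε / 4 := by ring
      rwa [e1] at h10
  have hj : ∀ j ∈ J,
      (((sqA A).filter fun a => ε / 4 * gr δ j < |SF c (gr δ j) a|).card : ℝ) ≤
        K / ε ^ 2 + if gr δ j ≤ A ^ 16 then D * Real.log A ^ 12 / ε ^ 12 else 0 := by
    intro j hj
    rw [hJ, Finset.mem_filter] at hj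
    obtain ⟨_, hj2⟩ := hj
    have h8 := hbig _ hj2
    obtain ⟨-, hs2, hs3, -⟩ := hS _ h8 ε (pow_le_of_sq (by omega) hj2 hεA)
    by_cases h16 : A ^ 16 ≤ 2 * gr δ j
    · have h9 := bad_high' hc (by positivity : 0 < ε / 4) (hS2.trans h8) hs2 hs3 h16
      have h10 : (((sqA A).filter fun a => ε / 4 * gr δ j < |SF c (gr δ j) a|).card : ℝ) ≤
          K / ε ^ 2 := by
        rw [hK, le_div_iff₀ (by positivity)]
        nlinarith
      have h11 : (0 : ℝ) ≤ if gr δ j ≤ A ^ 16 then D * Real.log A ^ 12 / ε ^ 12 else 0 := by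
        split_ifs
        · positivity
        · exact le_rfl
      linarith
    · rw [if_pos (by omega)]
      have h9 := bad_low hc (by positivity : 0 < ε / 4) (A := A) (G := gr δ j)
        (hS2.trans h8) (by omega) hj2
      have h10 : Real.log (gr δ j) ≤ 16 * Real.log A := by
        have e1 : ((gr δ j : ℕ) : ℝ) ≤ (A : ℝ) ^ 16 := by
          have : gr δ j ≤ A ^ 16 := by omega
          exact_mod_cast this
        have e2 := Real.log_le_log (by exact_mod_cast (by omega : 0 < gr δ j)) e1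
        rw [Real.log_pow] at e2
        exact_mod_cast e2
      have h11 : Real.log (gr δ j) ^ 12 ≤ (16 * Real.log A) ^ 12 :=
        pow_le_pow_left₀ (log_nonneg' _) h10 12
      have h12 : 10 ^ 10 * (M / (ε / 4)) ^ 12 * Real.log (gr δ j) ^ 12 ≤
          D * Real.log A ^ 12 / ε ^ 12 := by
        rw [hD]
        calc _ ≤ 10 ^ 10 * (M / (ε / 4)) ^ 12 * (16 * Real.log A) ^ 12 :=
              mul_le_mul_of_nonneg_left h11 (by positivity)
          _ = _ := by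
              field_simp
      have h13 : 0 ≤ K / ε ^ 2 := by positivity
      linarith
  have h1 : (((sqA A).filter fun a => ∃ T : ℕ, A ≤ T ^ 2 ∧ T ≤ T₁ ∧ ε < |DD t a T|).card : ℝ) ≤
      ∑ j ∈ J, (K / ε ^ 2 + if gr δ j ≤ A ^ 16 then D * Real.log A ^ 12 / ε ^ 12 else 0) := by
    refine le_trans ?_ (Finset.sum_le_sum hj)
    exact_mod_cast (Finset.card_le_card hsub).trans Finset.card_biUnion_le
  obtain ⟨l, hlD⟩ : ∃ l, l = Real.log (1 + δ) := ⟨_, rfl⟩
  have hl : 0 < l := by rw [hlD]; exact Real.log_pos (by linarith)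
  have hl2 : 1 / l ≤ 2 * L / ε := by
    have e1 : δ / 2 ≤ l := by
      rw [hlD]
      have := Real.le_log_one_add_of_nonneg hδ.le
      refine le_trans ?_ this
      rw [div_le_div_iff₀ (by norm_num) (by linarith)]
      nlinarith
    have e2 : 1 / l ≤ 1 / (δ / 2) := one_div_le_one_div_of_le (by positivity) e1
    refine e2.trans (le_of_eq ?_)
    rw [hδD]
    field_simp
  have hcard : (J.card : ℝ) ≤ Real.log T₁ / l + 1 := by
    have e1 : J.card ≤ ix δ T₁ + 1 := by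
      rw [hJ]
      refine (Finset.card_filter_le _ _).trans ?_
      rw [Nat.card_Icc, Nat.sub_zero]
    have e2 : (ix δ T₁ : ℝ) ≤ Real.log T₁ / l := by
      rw [hlD]
      exact Nat.floor_le (div_nonneg (log_nonneg' _) (hlD ▸ hl).le)
    have e3 : (J.card : ℝ) ≤ (ix δ T₁ : ℝ) + 1 := by exact_mod_cast e1
    linarith
  have hcard2 : ((J.filter fun j => gr δ j ≤ A ^ 16).card : ℝ) ≤ 16 * Real.log A / l + 1 := by
    have e1 : J.filter (fun j => gr δ j ≤ A ^ 16) ⊆ range (⌊16 * Real.log A / l⌋₊ + 1) := by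
      intro j hj
      have h2 := (Finset.mem_filter.1 hj).2
      rw [Finset.mem_range, Nat.lt_succ_iff]
      apply Nat.le_floor
      rw [le_div_iff₀ hl]
      have h3 : (1 + δ) ^ j ≤ (A : ℝ) ^ 16 := by
        refine (le_gr δ j).trans ?_
        exact_mod_cast h2
      have h4 := Real.log_le_log (by positivity) h3
      rw [Real.log_pow, Real.log_pow, ← hlD] at h4
      exact_mod_cast h4
    have e2 := Finset.card_le_card e1
    rw [Finset.card_range] at e2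
    have e3 : ((J.filter fun j => gr δ j ≤ A ^ 16).card : ℝ) ≤
        (⌊16 * Real.log A / l⌋₊ : ℝ) + 1 := by exact_mod_cast e2
    have e4 : (⌊16 * Real.log A / l⌋₊ : ℝ) ≤ 16 * Real.log A / l :=
      Nat.floor_le (by positivity)
    linarith
  have h2 : ∑ j ∈ J, (K / ε ^ 2 + if gr δ j ≤ A ^ 16 then D * Real.log A ^ 12 / ε ^ 12 else 0) ≤
      (Real.log T₁ / l + 1) * (K / ε ^ 2) +
        (16 * Real.log A / l + 1) * (D * Real.log A ^ 12 / ε ^ 12) := by
    rw [Finset.sum_add_distrib, Finset.sum_const, nsmul_eq_mul, ← Finset.sum_filter,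
      Finset.sum_const, nsmul_eq_mul]
    exact add_le_add (mul_le_mul_of_nonneg_right hcard (by positivity))
      (mul_le_mul_of_nonneg_right hcard2 (by positivity))
  refine h1.trans (h2.trans ?_)
  have hlT : 0 ≤ Real.log T₁ := log_nonneg' T₁
  have hLε : 1 ≤ 2 * L / ε := by
    rw [le_div_iff₀ hε]
    linarith
  have e1 : Real.log T₁ / l + 1 ≤ (1 + Real.log T₁) * (2 * L / ε) := by
    have f1 : Real.log T₁ / l = Real.log T₁ * (1 / l) := by ring
    rw [f1]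
    have f2 := mul_le_mul_of_nonneg_left hl2 hlT
    linarith
  have e2 : 16 * Real.log A / l + 1 ≤ Real.log A * (33 * L / ε) := by
    have f1 : 16 * Real.log A / l = 16 * (Real.log A * (1 / l)) := by ring
    rw [f1]
    have f2 := mul_le_mul_of_nonneg_left hl2 (by linarith : 0 ≤ Real.log A)
    have f3 : (1 : ℝ) ≤ Real.log A * (L / ε) := by
      have f4 : 1 ≤ L / ε := by
        rw [le_div_iff₀ hε]
        linarith
      nlinarith
    have f5 : Real.log A * (33 * L / ε) = 16 * (Real.log A * (2 * L / ε)) +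
      Real.log A * (L / ε) := by ring
    rw [f5]
    linarith
  have e3 : (Real.log T₁ / l + 1) * (K / ε ^ 2) ≤
      K * (2 * L) * ((1 + Real.log T₁) / ε ^ 3) := by
    calc _ ≤ ((1 + Real.log T₁) * (2 * L / ε)) * (K / ε ^ 2) :=
          mul_le_mul_of_nonneg_right e1 (by positivity)
      _ = _ := by
          field_simp
  have e4 : (16 * Real.log A / l + 1) * (D * Real.log A ^ 12 / ε ^ 12) ≤
      D * (33 * L) * (Real.log A ^ 13 / ε ^ 13) := by
    calc _ ≤ (Real.log A * (33 * L / ε)) * (D * Real.log A ^ 12 / ε ^ 12) :=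
          mul_le_mul_of_nonneg_right e2 (by positivity)
      _ = _ := by
          field_simp
  have p1 : 0 ≤ Real.log A ^ 13 / ε ^ 13 := by positivity
  have p2 : 0 ≤ (1 + Real.log T₁) / ε ^ 3 := by positivity
  have q1 : 0 ≤ K * (2 * L) * (Real.log A ^ 13 / ε ^ 13) := by positivity
  have q2 : 0 ≤ D * (33 * L) * ((1 + Real.log T₁) / ε ^ 3) := by positivity
  have q3 : (K * (2 * L) + D * (33 * L)) * (Real.log A ^ 13 / ε ^ 13 + (1 + Real.log T₁) / ε ^ 3) =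
      K * (2 * L) * (Real.log A ^ 13 / ε ^ 13) + K * (2 * L) * ((1 + Real.log T₁) / ε ^ 3) +
      D * (33 * L) * (Real.log A ^ 13 / ε ^ 13) + D * (33 * L) * ((1 + Real.log T₁) / ε ^ 3) := by
    ring
  rw [q3]
  linarith

end Pool.Agent.Helper29.UT
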